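import Pool.Agent.Helper4.TL.StD

/-! # Project TL (MP_1d384c_nt): module Ex (every solution of the relations comes from a twisted symbol) -/

set_option autoImplicit false

namespace Pool.Agent.Helper69.TL

open Pool.Agent.Helper14.CV (Homog EqC act Tl StFar StFex)
open Pool.Agent.Helper28.WK (Tw evw)
open Pool.Agent.Helper14.W5 (e5 tr5 Pl5 edge5 rY5 S5PlA S5Trm)
open Pool.Agent.Helper4.TL

private theorem eps_eq {a b c d A B C D : ℤ} (h1 : A = a) (h2 : B = b) (h3 : C = c) (h4 : D = d) :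
    eps A B C D = eps a b c d := by
  subst h1 h2 h3 h4
  rfl

private theorem odd_one {x : ℤ} (h : x = 1) : ¬ (2 : ℤ) ∣ x := by
  rw [h]
  decide

private theorem cop {r : ℕ} {a : ℤ} (h : ¬ 5 ∣ a) : IsUnit ((a : ℤ) : ZMod (5 ^ r)) := by
  have h1 : IsCoprime a 5 := by
    have := (Int.prime_ofNat_iff.2 (by norm_num : Nat.Prime 5)).coprime_iff_not_dvd.2 h
    exact this.symm
  have h2 : IsCoprime a ((5 ^ r : ℕ) : ℤ) := by
    push_cast
    exact h1.pow_right
  exact (ZMod.coe_int_isUnit_iff_isCoprime a (5 ^ r)).2 h2.symm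

private theorem den {r : ℕ} {a c : ℤ} (x : ZMod (5 ^ r)) (h : ¬ 5 ∣ a) :
    IsUnit ((a : ZMod (5 ^ r)) + 5 * c * x) := by
  have : NeZero (5 ^ r) := ⟨pow_ne_zero _ (by norm_num)⟩
  have : (a : ZMod (5 ^ r)) + 5 * c * x = ((a + 5 * c * (x.val : ℤ) : ℤ) : ZMod (5 ^ r)) := by
    push_cast
    rw [ZMod.natCast_zmod_val]
  rw [this]
  apply cop
  intro h3
  exact h ((dvd_add_left (⟨c * (x.val : ℤ), by ring⟩ : (5 : ℤ) ∣ 5 * c * (x.val : ℤ))).1 h3)

private theorem res {a b c d : ℤ} (h : a * d - 5 * (b * c) = 1) : ¬ 5 ∣ a ∧ ¬ 5 ∣ d := by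
  constructor
  · rintro ⟨k, rfl⟩
    have : 5 * k * d = 5 * (k * d) := by ring
    omega
  · rintro ⟨k, rfl⟩
    have : a * (5 * k) = 5 * (a * k) := by ring
    omega

private theorem pl_det {q q' : ℕ} {a b c d : ℤ} {x : ZMod q} {y : ZMod q'}
    (h : Pl5 0 a b c d x y) : a * d - 5 * (b * c) = 1 := by
  linear_combination h.1

private theorem pl_mk (r s : ℕ) {a b c d : ℤ} (h : a * d - 5 * (b * c) = 1) :
    ∃ (x : ZMod (5 ^ r)) (y : ZMod (5 ^ s)), Pl5 0 a b c d x y := by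
  have hr := res h
  refine ⟨(b : ZMod (5 ^ r)) * (a : ZMod (5 ^ r))⁻¹, (c : ZMod (5 ^ s)) * (d : ZMod (5 ^ s))⁻¹,
    by linear_combination h, ?_, ?_⟩
  · rw [mul_assoc, ZMod.inv_mul_of_unit _ (cop hr.1), mul_one]
  · rw [mul_assoc, ZMod.inv_mul_of_unit _ (cop hr.2), mul_one]

private theorem pl_neg {q q' : ℕ} {a b c d : ℤ} {x : ZMod q} {y : ZMod q'}
    (h : Pl5 0 a b c d x y) : Pl5 0 (-a) (-b) (-c) (-d) x y := by
  obtain ⟨h1, h2, h3⟩ := h
  refine ⟨by linear_combination h1, ?_, ?_⟩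
  · push_cast
    linear_combination -h2
  · push_cast
    linear_combination -h3

private theorem pl_mul {r s : ℕ} {a b c d : ℤ} {x : ZMod (5 ^ r)} {y : ZMod (5 ^ s)}
    (h : Pl5 0 a b c d x y) {α β γ δ : ℤ} (hm : α * δ - 5 * (β * γ) = 1) :
    Pl5 0 (a * α + 5 * b * γ) (a * β + b * δ) (c * α + d * γ) (5 * c * β + d * δ)
      (((β : ZMod (5 ^ r)) + (δ : ZMod (5 ^ r)) * x) *
        ((α : ZMod (5 ^ r)) + 5 * (γ : ZMod (5 ^ r)) * x)⁻¹)
      (((γ : ZMod (5 ^ s)) + (α : ZMod (5 ^ s)) * y) *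
        ((δ : ZMod (5 ^ s)) + 5 * (β : ZMod (5 ^ s)) * y)⁻¹) := by
  obtain ⟨h1, h2, h3⟩ := h
  have hr := res hm
  have u1 := ZMod.inv_mul_of_unit _ (den (r := r) (a := α) (c := γ) x hr.1)
  have u2 := ZMod.inv_mul_of_unit _ (den (r := s) (a := δ) (c := β) y hr.2)
  refine ⟨?_, ?_, ?_⟩
  · have e : (a * α + 5 * b * γ) * (5 * c * β + d * δ) -
        5 ^ (0 + 1) * (a * β + b * δ) * (c * α + d * γ) =
        (α * δ - 5 * (β * γ)) * (a * d - 5 ^ (0 + 1) * b * c) := by ring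
    rw [e, hm, h1, one_mul]
  · push_cast
    rw [h2]
    linear_combination (-((a : ZMod (5 ^ r)) * ((β : ZMod (5 ^ r)) + δ * x))) * u1
  · push_cast
    rw [h3]
    linear_combination (-((d : ZMod (5 ^ s)) * ((γ : ZMod (5 ^ s)) + α * y))) * u2

private theorem pl_gam {r s : ℕ} {a b c d : ℤ} {x : ZMod (5 ^ r)} {y : ZMod (5 ^ s)}
    (h : Pl5 0 a b c d x y) {α β γ δ : ℤ} (hg : α * δ - (5 ^ r * β) * (5 ^ (s + 1) * γ) = 1) :
    Pl5 0 (α * a + 5 ^ r * β * (5 * c)) (α * b + 5 ^ r * β * d)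
      (5 ^ s * γ * a + δ * c) (5 ^ (s + 1) * γ * b + δ * d) x y := by
  obtain ⟨h1, h2, h3⟩ := h
  have z1 : ((5 : ℤ) ^ r : ZMod (5 ^ r)) = 0 := by
    have := ZMod.natCast_self (5 ^ r)
    push_cast at this ⊢
    exact this
  have z2 : ((5 : ℤ) ^ s : ZMod (5 ^ s)) = 0 := by
    have := ZMod.natCast_self (5 ^ s)
    push_cast at this ⊢
    exact this
  refine ⟨?_, ?_, ?_⟩
  · have e : (α * a + 5 ^ r * β * (5 * c)) * (5 ^ (s + 1) * γ * b + δ * d) -
        5 ^ (0 + 1) * (α * b + 5 ^ r * β * d) * (5 ^ s * γ * a + δ * c) =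
        (α * δ - (5 ^ r * β) * (5 ^ (s + 1) * γ)) * (a * d - 5 ^ (0 + 1) * b * c) := by
      ring
    rw [e, hg, h1, one_mul]
  · push_cast at z1 ⊢
    rw [z1, h2]
    ring
  · push_cast at z2 ⊢
    rw [pow_succ, z2, h3]
    ring

/-! ### the function on the edges -/

private noncomputable def PX (r : ℕ) (a b : ℤ) : ZMod (5 ^ r) :=
  ((b : ℤ) : ZMod (5 ^ r)) * ((a : ℤ) : ZMod (5 ^ r))⁻¹

private theorem px_eq {r : ℕ} {a b A B : ℤ} {x : ZMod (5 ^ r)} (hA : A = a) (hB : B = b)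
    (ha : ¬ 5 ∣ a) (h : (b : ZMod (5 ^ r)) = x * a) : PX r A B = x := by
  subst hA hB
  unfold PX
  rw [h, mul_assoc, ZMod.mul_inv_of_unit _ (cop ha), mul_one]

/-- the representatives `1, (1 0; 1 1), (1 0; 2 1), (1 1; 1 2)` -/
private def rho : Fin 4 → ℤ × ℤ × ℤ × ℤ :=
  ![(1, 0, 0, 1), (1, 0, 1, 1), (1, 0, 2, 1), (1, 1, 1, 2)]

section

variable {R : Type} [AddCommGroup R] {r s : ℕ} (F : Fin 2 → ZMod (5 ^ r) → ZMod (5 ^ s) → R)

private def vl (k : Fin 4) (x : ZMod (5 ^ r)) (y : ZMod (5 ^ s)) : R :=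
  ![F 0 x y, F 0 x y + tr5 1 1 0 1 (F 0) x y, F 1 x y,
    F 0 x y + tr5 1 1 0 1 (F 0) x y - F 1 x y] k

private noncomputable def E0 (a b c d : ℤ) : R :=
  if c % 5 = 0 then eps a b c d • vl F 0 (PX r a b) (PX s d (c / 5))
  else if (c - d) % 5 = 0 then
    eps (a - b) b (c - d) d • vl F 1 (PX r (a - b) b) (PX s d ((c - d) / 5))
  else if (c - 2 * d) % 5 = 0 then
    eps (a - 2 * b) b (c - 2 * d) d • vl F 2 (PX r (a - 2 * b) b) (PX s d ((c - 2 * d) / 5))
  else eps (2 * a - b) (b - a) (2 * c - d) (d - c) •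
    vl F 3 (PX r (2 * a - b) (b - a)) (PX s (d - c) ((2 * c - d) / 5))

private noncomputable def EE (a b c d : ℤ) : R :=
  if c % 5 = 0 ∨ (c - d) % 5 = 0 ∨ (c - 2 * d) % 5 = 0 ∨ (c - 3 * d) % 5 = 0 then E0 F a b c d
  else -E0 F b (-a) d (-c)

/-- `(a b; c d) = γ ρ_k` and `v` is the value. -/
private def Val (k : Fin 4) (a b c d : ℤ) (v : R) : Prop :=
  ∃ (a' b' c' d' : ℤ) (x : ZMod (5 ^ r)) (y : ZMod (5 ^ s)), Pl5 0 a' b' c' d' x y ∧
    a = a' * (rho k).1 + b' * (rho k).2.2.1 ∧ b = a' * (rho k).2.1 + b' * (rho k).2.2.2 ∧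
    c = 5 * c' * (rho k).1 + d' * (rho k).2.2.1 ∧ d = 5 * c' * (rho k).2.1 + d' * (rho k).2.2.2 ∧
    v = eps a' b' (5 * c') d' • vl F k x y

variable {F}

private theorem val_neg {k : Fin 4} {a b c d : ℤ} {v : R} (h : Val F k a b c d v) :
    Val F k (-a) (-b) (-c) (-d) v := by
  obtain ⟨a', b', c', d', x, y, hp, rfl, rfl, rfl, rfl, rfl⟩ := h
  refine ⟨-a', -b', -c', -d', x, y, pl_neg hp, by ring, by ring, by ring, by ring, ?_⟩
  rw [eps_eq (rfl : -a' = -a') (rfl : -b' = -b') (by ring : 5 * -c' = -(5 * c')) rfl, eps_neg]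

private theorem val_gam {k : Fin 4} {α β γ δ : ℤ}
    (hg : α * δ - (5 ^ r * β) * (5 ^ (s + 1) * γ) = 1) {a b c d : ℤ} {v : R}
    (h : Val F k a b c d v) :
    Val F k (α * a + 5 ^ r * β * c) (α * b + 5 ^ r * β * d)
      (5 ^ (s + 1) * γ * a + δ * c) (5 ^ (s + 1) * γ * b + δ * d)
      (eps α (5 ^ r * β) (5 ^ (s + 1) * γ) δ • v) := by
  obtain ⟨a', b', c', d', x, y, hp, rfl, rfl, rfl, rfl, rfl⟩ := h
  refine ⟨_, _, _, _, x, y, pl_gam hp hg, by ring, by ring, by ring, by ring, ?_⟩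
  have hdt := pl_det hp
  rw [smul_smul, ← eps_mul (odd_one hg) (odd_one (by linear_combination hdt :
    a' * d' - b' * (5 * c') = 1))]
  rw [eps_eq rfl rfl (by ring : 5 ^ (s + 1) * γ * a' + δ * (5 * c') =
    5 * (5 ^ s * γ * a' + δ * c')) rfl]

/-- the value of `EE` for a matrix in one of the four classes -/
private theorem ev {k : Fin 4} {a b c d : ℤ} {v : R} (h : Val F k a b c d v) :
    EE F a b c d = v := by
  obtain ⟨a', b', c', d', x, y, hp, rfl, rfl, rfl, rfl, rfl⟩ := h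
  have hr := res (pl_det hp)
  obtain ⟨h1, h2, h3⟩ := hp
  have h4 := hr.2
  fin_cases k
  · simp only [rho, Fin.zero_eta, Matrix.cons_val_zero]
    unfold EE E0
    rw [if_pos (by omega), if_pos (by omega), px_eq (by ring) (by ring) hr.1 h2,
      px_eq (by ring) (by omega) hr.2 h3, eps_eq (a := a') (b := b') (c := 5 * c') (d := d') (by ring) (by ring) (by ring) (by ring)]
  · simp only [rho, Fin.mk_one, Matrix.cons_val_one, Matrix.cons_val_zero]
    unfold EE E0
    rw [if_pos (by omega), if_neg (by omega), if_pos (by omega),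
      px_eq (by ring) (by ring) hr.1 h2, px_eq (by ring) (by omega) hr.2 h3,
      eps_eq (a := a') (b := b') (c := 5 * c') (d := d') (by ring) (by ring) (by ring) (by ring)]
  · simp only [rho, Fin.reduceFinMk, Matrix.cons_val]
    unfold EE E0
    rw [if_pos (by omega), if_neg (by omega), if_neg (by omega), if_pos (by omega),
      px_eq (by ring) (by ring) hr.1 h2, px_eq (by ring) (by omega) hr.2 h3,
      eps_eq (a := a') (b := b') (c := 5 * c') (d := d') (by ring) (by ring) (by ring) (by ring)]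
  · simp only [rho, Fin.reduceFinMk, Matrix.cons_val]
    unfold EE E0
    rw [if_pos (by omega), if_neg (by omega), if_neg (by omega), if_neg (by omega),
      px_eq (by ring) (by ring) hr.1 h2, px_eq (by ring) (by omega) hr.2 h3,
      eps_eq (a := a') (b := b') (c := 5 * c') (d := d') (by ring) (by ring) (by ring) (by ring)]

/-- `EE (g S) = - EE g` for `g` in the first two classes -/
private theorem evS {k : Fin 4} (hk : k = 0 ∨ k = 1) {a b c d : ℤ} {v : R}
    (h : Val F k a b c d v) : EE F b (-a) d (-c) = -v := by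
  have h0 := ev (val_neg h)
  obtain ⟨a', b', c', d', x, y, hp, rfl, rfl, rfl, rfl, rfl⟩ := h
  have hr := res (pl_det hp)
  have h4 := hr.2
  rcases hk with rfl | rfl
  · simp only [rho, Matrix.cons_val_zero] at h0 ⊢
    unfold EE at h0 ⊢
    rw [if_pos (by omega)] at h0
    rw [if_neg (by omega), h0]
  · simp only [rho, Matrix.cons_val_one, Matrix.cons_val_zero] at h0 ⊢
    unfold EE at h0 ⊢
    rw [if_pos (by omega)] at h0
    rw [if_neg (by omega), h0]

/-- the relations -/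
private theorem evS23 (hTrm : S5Trm) (hR : RelE F) {k : Fin 4} (hk : k = 2 ∨ k = 3)
    {a b c d : ℤ} {v : R} (h : Val F k a b c d v) : EE F b (-a) d (-c) = -v := by
  obtain ⟨a', b', c', d', x, y, hp, rfl, rfl, rfl, rfl, rfl⟩ := h
  rcases hk with rfl | rfl
  · have hm := pl_mul hp (α := 2) (β := -1) (γ := 1) (δ := -2) (by ring)
    have h1 : Val F 2 (a' * (rho 2).2.1 + b' * (rho 2).2.2.2)
        (-(a' * (rho 2).1 + b' * (rho 2).2.2.1)) (5 * c' * (rho 2).2.1 + d' * (rho 2).2.2.2)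
        (-(5 * c' * (rho 2).1 + d' * (rho 2).2.2.1)) _ :=
      ⟨_, _, _, _, _, _, hm, by simp [rho]; ring, by simp [rho]; ring, by simp [rho]; ring,
        by simp [rho]; ring, rfl⟩
    rw [ev h1]
    have h2 := hR.1 x y
    have hdt := pl_det hp
    have he : eps (a' * 2 + 5 * b' * 1) (a' * -1 + b' * -2) (5 * (c' * 2 + d' * 1))
        (5 * c' * -1 + d' * -2) = -eps a' b' (5 * c') d' := by
      have h3 := eps_mul (a := a') (b := b') (c := 5 * c') (d := d') (a' := 2) (b' := -1)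
        (c' := 5) (d' := -2) (odd_one (by linear_combination hdt)) (odd_one (by norm_num))
      have h4 : eps 2 (-1) 5 (-2) = -1 := by decide
      rw [h4] at h3
      rw [eps_eq (by ring : a' * 2 + 5 * b' * 1 = a' * 2 + b' * 5) rfl
        (by ring : 5 * (c' * 2 + d' * 1) = 5 * c' * 2 + d' * 5) rfl, h3]
      ring
    rw [he, neg_smul]
    congr 2
    simp only [vl, Matrix.cons_val]
    exact (sub_eq_zero.1 h2).symm
  · have hm := pl_mul hp (α := 3) (β := -2) (γ := 1) (δ := -3) (by ring)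
    have h1 : Val F 3 (a' * (rho 3).2.1 + b' * (rho 3).2.2.2)
        (-(a' * (rho 3).1 + b' * (rho 3).2.2.1)) (5 * c' * (rho 3).2.1 + d' * (rho 3).2.2.2)
        (-(5 * c' * (rho 3).1 + d' * (rho 3).2.2.1)) _ :=
      ⟨_, _, _, _, _, _, hm, by simp [rho]; ring, by simp [rho]; ring, by simp [rho]; ring,
        by simp [rho]; ring, rfl⟩
    rw [ev h1]
    have h2 := hR.2 x y
    have ht := congrFun (congrFun ((hTrm R r s (F 0)).1 3 (-2) 1 (-3) 1 1 0 1 (by norm_num)
      (by norm_num) (by norm_num) (by norm_num)) x) y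
    have e1 : tr5 (3 * 1 + 5 * (-2) * 0) (3 * 1 + (-2) * 1) (1 * 1 + (-3) * 0)
        (5 * 1 * 1 + (-3) * 1) (F 0) x y = tr5 3 1 1 2 (F 0) x y := by norm_num
    rw [e1] at ht
    rw [← ht] at h2
    have hdt := pl_det hp
    have he : eps (a' * 3 + 5 * b' * 1) (a' * -2 + b' * -3) (5 * (c' * 3 + d' * 1))
        (5 * c' * -2 + d' * -3) = -eps a' b' (5 * c') d' := by
      have h3 := eps_mul (a := a') (b := b') (c := 5 * c') (d := d') (a' := 3) (b' := -2)
        (c' := 5) (d' := -3) (odd_one (by linear_combination hdt)) (odd_one (by norm_num))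
      have h4 : eps 3 (-2) 5 (-3) = -1 := by decide
      rw [h4] at h3
      rw [eps_eq (by ring : a' * 3 + 5 * b' * 1 = a' * 3 + b' * 5) rfl
        (by ring : 5 * (c' * 3 + d' * 1) = 5 * c' * 3 + d' * 5) rfl, h3]
      ring
    rw [he, neg_smul]
    congr 2
    simp only [vl, Matrix.cons_val]
    exact (sub_eq_zero.1 h2).symm

private theorem cls0 : ∀ a b c d : ZMod 5, a * d - b * c = 1 →
    (c = 0 ∨ c - d = 0 ∨ c - 2 * d = 0 ∨ c - 3 * d = 0) ∨ (d = 0 ∨ c + d = 0) := by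
  decide

private theorem four {a b c d : ℤ} (h : a * d - b * c = 1)
    (hc : 5 ∣ c ∨ 5 ∣ c - d ∨ 5 ∣ c - 2 * d ∨ 5 ∣ c - 3 * d) :
    (∃ v, Val F 0 a b c d v) ∨ (∃ v, Val F 1 a b c d v) ∨ (∃ v, Val F 2 a b c d v) ∨
      ∃ v, Val F 3 a b c d v := by
  rcases hc with ⟨c', hc'⟩ | ⟨c', hc'⟩ | ⟨c', hc'⟩ | ⟨c', hc'⟩
  · left
    obtain ⟨x, y, hp⟩ := pl_mk r s (a := a) (b := b) (c := c') (d := d)
      (by subst hc'; linear_combination h)
    exact ⟨_, a, b, c', d, x, y, hp, by simp [rho], by simp [rho], by simp [rho, hc'],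
      by simp [rho], rfl⟩
  · right; left
    obtain rfl : c = 5 * c' + d := by omega
    obtain ⟨x, y, hp⟩ := pl_mk r s (a := a - b) (b := b) (c := c') (d := d)
      (by linear_combination h)
    exact ⟨_, a - b, b, c', d, x, y, hp, by simp [rho], by simp [rho], by simp [rho],
      by simp [rho], rfl⟩
  · right; right; left
    obtain rfl : c = 5 * c' + 2 * d := by omega
    obtain ⟨x, y, hp⟩ := pl_mk r s (a := a - 2 * b) (b := b) (c := c') (d := d)
      (by linear_combination h)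
    exact ⟨_, a - 2 * b, b, c', d, x, y, hp, by simp [rho]; ring, by simp [rho],
      by simp [rho]; ring, by simp [rho], rfl⟩
  · right; right; right
    obtain ⟨e, he⟩ : ∃ e, 2 * c - d = 5 * e := ⟨2 * c' + d, by omega⟩
    obtain rfl : d = 2 * c - 5 * e := by omega
    obtain ⟨x, y, hp⟩ := pl_mk r s (a := 2 * a - b) (b := b - a) (c := e)
      (d := 2 * c - 5 * e - c) (by linear_combination h)
    exact ⟨_, 2 * a - b, b - a, e, 2 * c - 5 * e - c, x, y, hp, by simp [rho]; ring,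
      by simp [rho]; ring, by simp [rho]; ring, by simp [rho]; ring, rfl⟩

private theorem e5d : ∀ z : ℤ, ((z : ℤ) : ZMod 5) = 0 → (5 : ℤ) ∣ z := fun z hz =>
  (ZMod.intCast_zmod_eq_zero_iff_dvd z 5).1 hz

private theorem cls {a b c d : ℤ} (h : a * d - b * c = 1) :
    ((∃ v, Val F 0 a b c d v) ∨ (∃ v, Val F 1 a b c d v) ∨ (∃ v, Val F 2 a b c d v) ∨
      ∃ v, Val F 3 a b c d v) ∨
    ((∃ v, Val F 0 b (-a) d (-c) v) ∨ (∃ v, Val F 1 b (-a) d (-c) v)) := by
  have h1 := cls0 a b c d (by exact_mod_cast congrArg (fun z : ℤ => (z : ZMod 5)) h)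
  rcases h1 with (p | p | p | p) | (p | p)
  · exact Or.inl (four h (Or.inl (e5d _ p)))
  · exact Or.inl (four h (Or.inr (Or.inl (e5d _ (by push_cast; exact p)))))
  · exact Or.inl (four h (Or.inr (Or.inr (Or.inl (e5d _ (by push_cast; exact p))))))
  · exact Or.inl (four h (Or.inr (Or.inr (Or.inr (e5d _ (by push_cast; exact p))))))
  · right; left
    obtain ⟨d', rfl⟩ := e5d _ p
    obtain ⟨x, y, hp⟩ := pl_mk r s (a := b) (b := -a) (c := d') (d := -c)
      (by linear_combination h)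
    exact ⟨_, b, -a, d', -c, x, y, hp, by simp [rho], by simp [rho], by simp [rho],
      by simp [rho], rfl⟩
  · right; right
    obtain ⟨e, he⟩ := e5d (c + d) (by push_cast; exact p)
    obtain rfl : d = 5 * e - c := by omega
    obtain ⟨x, y, hp⟩ := pl_mk r s (a := b + a) (b := -a) (c := e) (d := -c)
      (by linear_combination h)
    exact ⟨_, b + a, -a, e, -c, x, y, hp, by simp [rho], by simp [rho], by simp [rho]; ring,
      by simp [rho], rfl⟩

/-- `Val` of the matrix times `S`, other direction -/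
private theorem evS' {k : Fin 4} (hk : k = 0 ∨ k = 1) {a b c d : ℤ} {v : R}
    (h : Val F k b (-a) d (-c) v) : EE F a b c d = -v := by
  have h1 := evS hk (val_neg h)
  simp only [neg_neg] at h1
  exact h1

private theorem ee_S (hTrm : S5Trm) (hR : RelE F) {a b c d : ℤ} (h : a * d - b * c = 1) :
    EE F b (-a) d (-c) = -EE F a b c d := by
  rcases cls (F := F) h with (⟨v, hv⟩ | ⟨v, hv⟩ | ⟨v, hv⟩ | ⟨v, hv⟩) | (⟨v, hv⟩ | ⟨v, hv⟩)
  · rw [ev hv, evS (Or.inl rfl) hv]
  · rw [ev hv, evS (Or.inr rfl) hv]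
  · rw [ev hv, evS23 hTrm hR (Or.inl rfl) hv]
  · rw [ev hv, evS23 hTrm hR (Or.inr rfl) hv]
  · rw [ev hv, evS' (Or.inl rfl) hv, neg_neg]
  · rw [ev hv, evS' (Or.inr rfl) hv, neg_neg]

private theorem ee_neg {a b c d : ℤ} (h : a * d - b * c = 1) :
    EE F (-a) (-b) (-c) (-d) = EE F a b c d := by
  rcases cls (F := F) h with (⟨v, hv⟩ | ⟨v, hv⟩ | ⟨v, hv⟩ | ⟨v, hv⟩) | (⟨v, hv⟩ | ⟨v, hv⟩)
  · rw [ev hv, ev (val_neg hv)]
  · rw [ev hv, ev (val_neg hv)]
  · rw [ev hv, ev (val_neg hv)]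
  · rw [ev hv, ev (val_neg hv)]
  · rw [evS' (Or.inl rfl) hv]
    exact evS' (Or.inl rfl) (val_neg hv)
  · rw [evS' (Or.inr rfl) hv]
    exact evS' (Or.inr rfl) (val_neg hv)

private theorem ee_gam {α β γ δ : ℤ}
    (hg : α * δ - (5 ^ r * β) * (5 ^ (s + 1) * γ) = 1) {a b c d : ℤ}
    (h : a * d - b * c = 1) :
    EE F (α * a + 5 ^ r * β * c) (α * b + 5 ^ r * β * d)
      (5 ^ (s + 1) * γ * a + δ * c) (5 ^ (s + 1) * γ * b + δ * d) =
      eps α (5 ^ r * β) (5 ^ (s + 1) * γ) δ • EE F a b c d := by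
  rcases cls (F := F) h with (⟨v, hv⟩ | ⟨v, hv⟩ | ⟨v, hv⟩ | ⟨v, hv⟩) | (⟨v, hv⟩ | ⟨v, hv⟩)
  · rw [ev hv, ev (val_gam hg hv)]
  · rw [ev hv, ev (val_gam hg hv)]
  · rw [ev hv, ev (val_gam hg hv)]
  · rw [ev hv, ev (val_gam hg hv)]
  · rw [evS' (Or.inl rfl) hv, smul_neg]
    apply evS' (Or.inl rfl)
    have := val_gam hg hv
    convert this using 1 <;> ring
  · rw [evS' (Or.inr rfl) hv, smul_neg]
    apply evS' (Or.inr rfl)
    have := val_gam hg hv
    convert this using 1 <;> ring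

private def Tri (F : Fin 2 → ZMod (5 ^ r) → ZMod (5 ^ s) → R) (a b c d : ℤ) : Prop :=
  EE F a b c d = EE F a (a + b) c (c + d) + EE F (a + b) b (c + d) d

private theorem tri_rot (hTrm : S5Trm) (hR : RelE F) {a b c d : ℤ} (h : a * d - b * c = 1)
    (ht : Tri F (a + b) (-a) (c + d) (-c)) : Tri F a b c d := by
  unfold Tri at ht ⊢
  have e1 : a + b + -a = b := by ring
  have e2 : c + d + -c = d := by ring
  rw [e1, e2, ee_S hTrm hR h, ee_S hTrm hR (a := a) (b := a + b) (c := c) (d := c + d)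
    (by linear_combination h)] at ht
  rw [eq_add_neg_iff_add_eq] at ht
  rw [← ht]
  abel

/-- the value for `γ ρ_k`, flexible form -/
private theorem evk (k : Fin 4) {a b c d a' b' c' d' : ℤ} {x : ZMod (5 ^ r)} {y : ZMod (5 ^ s)}
    (hp : Pl5 0 a' b' c' d' x y)
    (ha : a = a' * (rho k).1 + b' * (rho k).2.2.1)
    (hb : b = a' * (rho k).2.1 + b' * (rho k).2.2.2)
    (hc : c = 5 * c' * (rho k).1 + d' * (rho k).2.2.1)
    (hd : d = 5 * c' * (rho k).2.1 + d' * (rho k).2.2.2) :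
    EE F a b c d = eps a' b' (5 * c') d' • vl F k x y :=
  ev (k := k) ⟨a', b', c', d', x, y, hp, ha, hb, hc, hd, rfl⟩

/-- first class -/
private theorem tri_1 {a b c d : ℤ} (h : a * d - 5 * (b * c) = 1) :
    Tri F a b (5 * c) d := by
  obtain ⟨x, y, hp⟩ := pl_mk r s h
  have hm := pl_mul hp (α := 1) (β := 1) (γ := 0) (δ := 1) (by ring)
  unfold Tri
  rw [evk 0 hp (by simp [rho]) (by simp [rho]) (by simp [rho]) (by simp [rho]),
    evk 0 hm (by simp [rho]) (by simp [rho]) (by simp [rho]) (by simp [rho]),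
    evk 1 hp (by simp [rho]) (by simp [rho]) (by simp [rho]) (by simp [rho])]
  have he : eps (a * 1 + 5 * b * 0) (a * 1 + b * 1) (5 * (c * 1 + d * 0)) (5 * c * 1 + d * 1) =
      -eps a b (5 * c) d := by
    have h3 := eps_mul (a := a) (b := b) (c := 5 * c) (d := d) (a' := 1) (b' := 1)
      (c' := 0) (d' := 1) (odd_one (by linear_combination h)) (odd_one (by norm_num))
    have h4 : eps 1 1 0 1 = -1 := by decide
    rw [h4] at h3
    rw [eps_eq (by ring : a * 1 + 5 * b * 0 = a * 1 + b * 0) rfl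
      (by ring : 5 * (c * 1 + d * 0) = 5 * c * 1 + d * 0) rfl, h3]
    ring
  rw [he, neg_smul]
  simp only [vl, Matrix.cons_val]
  unfold tr5
  rw [smul_add]
  abel

/-- second class -/
private theorem tri_2 {a b c d : ℤ} (h : a * d - 5 * (b * c) = 1) :
    Tri F (a + b) b (5 * c + d) d := by
  obtain ⟨x, y, hp⟩ := pl_mk r s h
  unfold Tri
  rw [evk 1 hp (by simp [rho]) (by simp [rho]) (by simp [rho]) (by simp [rho]),
    evk 3 hp (by simp [rho]) (by simp [rho]; ring) (by simp [rho]) (by simp [rho]; ring),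
    evk 2 hp (by simp [rho]; ring) (by simp [rho]) (by simp [rho]; ring) (by simp [rho])]
  simp only [vl, Matrix.cons_val]
  rw [smul_sub, sub_add_cancel]

private theorem cls1 : ∀ c d : ZMod 5, (c = 0 ∧ d = 0) ∨ c = 0 ∨ d = 0 ∨ c + d = 0 ∨
    c - d = 0 ∨ c - 2 * d = 0 ∨ c - 3 * d = 0 := by
  decide

private theorem tri_all (hTrm : S5Trm) (hR : RelE F) {a b c d : ℤ} (h : a * d - b * c = 1) :
    Tri F a b c d := by
  have key : ∀ {a b c d : ℤ}, a * d - b * c = 1 → 5 ∣ c → Tri F a b c d := by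
    intro a b c d h hc
    obtain ⟨c', rfl⟩ := hc
    exact tri_1 (by linear_combination h)
  have key2 : ∀ {a b c d : ℤ}, a * d - b * c = 1 → 5 ∣ c - d → Tri F a b c d := by
    intro a b c d h hc
    obtain ⟨c', hc'⟩ := hc
    obtain rfl : c = 5 * c' + d := by omega
    have := tri_2 (F := F) (a := a - b) (b := b) (c := c') (d := d) (by linear_combination h)
    rw [sub_add_cancel] at this
    exact this
  rcases cls1 c d with ⟨p, -⟩ | p | p | p | p | p | p
  · exact key h (e5d _ p)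
  · exact key h (e5d _ p)
  · exact tri_rot hTrm hR h (tri_rot hTrm hR (by linear_combination h)
      (key (by linear_combination h) (by have := e5d _ p; omega)))
  · exact tri_rot hTrm hR h (key (by linear_combination h) (e5d _ (by push_cast; exact p)))
  · exact key2 h (e5d _ (by push_cast; exact p))
  · -- c = 2d : one rotation gives (3d : -2d), class 1
    have h5 := e5d (c - 2 * d) (by push_cast; exact p)
    exact tri_rot hTrm hR h (key2 (by linear_combination h) (by omega))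
  · -- c = 3d : two rotations
    have h5 := e5d (c - 3 * d) (by push_cast; exact p)
    exact tri_rot hTrm hR h (tri_rot hTrm hR (by linear_combination h)
      (key2 (by linear_combination h) (by omega)))

end

/-- Module Ex. -/
theorem hEx (hm : S5Trm) (ha : S5PlA) (_he : TEdg) (hfex : StFex) (hfar : StFar) : TEx := by
  intro R _ r s F hR
  obtain ⟨G, hGh, hG⟩ := hfex R inferInstance (EE F) (fun a b c d h =>
    ⟨ee_neg h, ee_S hm hR h, tri_all hm hR h⟩)
  refine ⟨G, ⟨hGh, ?_⟩, ?_⟩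
  · intro α β' γ' δ hdet hβ hγ
    obtain ⟨β, rfl⟩ := hβ
    obtain ⟨γ, rfl⟩ := hγ
    have hdet' : α * δ - 5 ^ r * β * (5 ^ (s + 1) * γ) = 1 := by exact_mod_cast hdet
    have hdet0 : α * δ - 5 ^ r * β * (5 ^ (s + 1) * γ) ≠ 0 := by
      rw [hdet']
      exact one_ne_zero
    have hH : Homog (act α (5 ^ r * β) (5 ^ (s + 1) * γ) δ G -
        eps α (5 ^ r * β) (5 ^ (s + 1) * γ) δ • G) := by
      rw [sub_eq_add_neg]
      exact (hGh.act hdet0).add (hGh.smul _).neg
    obtain ⟨k, hk⟩ := hfar R inferInstance _ hH (by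
      intro a b c d h
      have h1 := hG a b c d h
      have h2 := hG (α * a + 5 ^ r * β * c) (α * b + 5 ^ r * β * d)
        (5 ^ (s + 1) * γ * a + δ * c) (5 ^ (s + 1) * γ * b + δ * d)
        (by linear_combination (a * d - b * c) * hdet' + h)
      rw [ee_gam hdet' h, ← h1, smul_sub] at h2
      show G (α * a + 5 ^ r * β * c) (5 ^ (s + 1) * γ * a + δ * c) -
          eps α (5 ^ r * β) (5 ^ (s + 1) * γ) δ • G a c =
        G (α * b + 5 ^ r * β * d) (5 ^ (s + 1) * γ * b + δ * d) -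
          eps α (5 ^ r * β) (5 ^ (s + 1) * γ) δ • G b d
      have h3 := sub_eq_iff_eq_add.1 h2
      rw [h3]
      abel)
    refine ⟨k, fun p q hpq => ?_⟩
    have h4 := hk p q hpq
    have h5 : act α (5 ^ r * β) (5 ^ (s + 1) * γ) δ G p q -
        eps α (5 ^ r * β) (5 ^ (s + 1) * γ) δ • G p q = k := by
      have h6 : (0 : ℤ → ℤ → R) p q = 0 := rfl
      rw [h6, zero_add] at h4
      exact h4
    have h7 := (sub_eq_iff_eq_add.1 h5).trans (add_comm _ _)
    exact_mod_cast h7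
  · intro i
    funext x y
    have hp := ha 0 r s x y
    have hd := pl_det hp
    have e : ∀ (k : Fin 4) (u1 u2 v1 v2 : ℤ), rho k = (u1, v1, u2, v2) → u1 * v2 - u2 * v1 = 1 →
        edgeE 0 u1 u2 v1 v2 G x y = vl F k x y := by
      intro k u1 u2 v1 v2 hk hdet
      have h1 := evk (F := F) k hp rfl rfl rfl rfl
      rw [hk] at h1
      rw [← hG _ _ _ _ ?_] at h1
      · have h2 : edge5 0 u1 u2 v1 v2 G x y =
            eps 1 (x.val : ℤ) (5 * rY5 0 x y) (1 + 5 ^ (0 + 1) * (x.val : ℤ) * rY5 0 x y) •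
              vl F k x y := by
          rw [← h1]
          unfold edge5
          congr 1
          · congr 1 <;> ring
          · congr 1 <;> ring
        unfold edgeE
        rw [h2]
        unfold sgE
        rw [eps_eq rfl (by ring : (5 : ℤ) ^ 0 * (x.val : ℤ) = (x.val : ℤ)) rfl rfl,
          smul_smul, eps_sq, one_smul]
      · simp only
        linear_combination (u1 * v2 - u2 * v1) * hd + hdet
    fin_cases i
    · exact e 0 1 0 0 1 rfl (by norm_num)
    · exact e 2 1 2 0 1 rfl (by norm_num)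

end Pool.Agent.Helper69.TL
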