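import Pool.Agent.Helper69.TL.Defs

/-!
# MP_b6f052_pr: basics on `Conn`
-/

open MeasureTheory Set

namespace Pool.Agent.Helper69.TL

theorem rtg_mono {α : Type*} {r q : α → α → Prop} (h : ∀ a c, r a c → q a c) {x y : α}
    (hr : Relation.ReflTransGen r x y) : Relation.ReflTransGen q x y := by
  induction hr with
  | refl => exact Relation.ReflTransGen.refl
  | tail _ hbc ih => exact Relation.ReflTransGen.tail ih (h _ _ hbc)

theorem rtg_lift {α β : Type*} {r : α → α → Prop} {q : β → β → Prop} (f : α → β)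
    (h : ∀ a c, r a c → q (f a) (f c)) {x y : α}
    (hr : Relation.ReflTransGen r x y) : Relation.ReflTransGen q (f x) (f y) := by
  induction hr with
  | refl => exact Relation.ReflTransGen.refl
  | tail _ hbc ih => exact Relation.ReflTransGen.tail ih (h _ _ hbc)

section Basic
variable {b : ℕ} {ω ω' : Sym2 (X b) → Bool} {S S' : Set (X b)} {x y z : X b}

theorem adj_symm (h : adj x y) : adj y x := by
  rcases h with ⟨h1, h2⟩ | ⟨h1, h2⟩
  · exact Or.inl ⟨h1.symm, h2.symm⟩
  · exact Or.inr ⟨h1.symm, (treeGraph b).adj_symm h2⟩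

theorem adj_ne (h : adj x y) : x ≠ y := by
  rintro rfl
  rcases h with ⟨_, h2⟩ | ⟨_, h2⟩
  · rcases h2 with h2 | h2 <;> omega
  · exact (treeGraph b).loopless.irrefl _ h2

theorem Conn.symm (h : Conn ω S x y) : Conn ω S y x := by
  unfold Conn at *
  induction h with
  | refl => exact Relation.ReflTransGen.refl
  | tail _ hbc ih =>
    refine Relation.ReflTransGen.head ?_ ih
    obtain ⟨h1, h2, h3, h4⟩ := hbc
    exact ⟨adj_symm h1, by rw [Sym2.eq_swap]; exact h2, h4, h3⟩

theorem Conn.trans (h : Conn ω S x y) (h' : Conn ω S y z) : Conn ω S x z :=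
  Relation.ReflTransGen.trans h h'

theorem Conn.mono (h : Conn ω S x y) (hS : S ⊆ S') : Conn ω S' x y :=
  rtg_mono (fun _ _ ⟨h1, h2, h3, h4⟩ => ⟨h1, h2, hS h3, hS h4⟩) h

theorem Conn.incr (h : Conn ω S x y) (hω : ∀ e, ω e = true → ω' e = true) : Conn ω' S x y :=
  rtg_mono (fun _ _ ⟨h1, h2, h3, h4⟩ => ⟨h1, hω _ h2, h3, h4⟩) h

theorem Conn.single (h : adj x y) (ho : ω s(x, y) = true) (hx : x ∈ S) (hy : y ∈ S) :
    Conn ω S x y :=
  Relation.ReflTransGen.single ⟨h, ho, hx, hy⟩

/-- if `x ≠ y` are connected in `S` then both are in `S` -/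
theorem Conn.mem (h : Conn ω S x y) : x = y ∨ (x ∈ S ∧ y ∈ S) := by
  unfold Conn at h
  induction h with
  | refl => exact Or.inl rfl
  | tail _ hbc ih =>
    obtain ⟨_, _, h3, h4⟩ := hbc
    rcases ih with rfl | ⟨h5, _⟩
    · exact Or.inr ⟨h3, h4⟩
    · exact Or.inr ⟨h5, h4⟩

/-- `Conn` in at most `n` steps -/
def ConnN (ω : Sym2 (X b) → Bool) (S : Set (X b)) (x : X b) : ℕ → X b → Prop
  | 0, y => y = x
  | (n + 1), y => ConnN ω S x n y ∨
      ∃ a, ConnN ω S x n a ∧ adj a y ∧ ω s(a, y) = true ∧ a ∈ S ∧ y ∈ S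

theorem connN_iff : Conn ω S x y ↔ ∃ n, ConnN ω S x n y := by
  constructor
  · intro h
    unfold Conn at h
    induction h with
    | refl => exact ⟨0, rfl⟩
    | tail _ hbc ih =>
      obtain ⟨n, hn⟩ := ih
      exact ⟨n + 1, Or.inr ⟨_, hn, hbc⟩⟩
  · rintro ⟨n, hn⟩
    induction n generalizing y with
    | zero =>
      have : y = x := hn
      subst this
      exact Relation.ReflTransGen.refl
    | succ n ih =>
      rcases hn with hn | ⟨a, ha, h⟩
      · exact ih hn
      · exact Relation.ReflTransGen.tail (ih ha) h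

theorem measurableSet_coord {ι : Type*} (e : ι) : MeasurableSet {ω : ι → Bool | ω e = true} :=
  (measurable_pi_apply (X := fun _ : ι => Bool) e) (measurableSet_singleton true)

theorem measurableSet_connN (S : Set (X b)) (x : X b) (n : ℕ) (y : X b) :
    MeasurableSet {ω : Sym2 (X b) → Bool | ConnN ω S x n y} := by
  induction n generalizing y with
  | zero => exact MeasurableSet.const _
  | succ n ih =>
    have : {ω : Sym2 (X b) → Bool | ConnN ω S x (n + 1) y} =
        {ω | ConnN ω S x n y} ∪ ⋃ a : X b, ({ω | ConnN ω S x n a} ∩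
          ({ω | ω s(a, y) = true} ∩ {_ω | adj a y ∧ a ∈ S ∧ y ∈ S})) := by
      ext ω
      simp only [ConnN, mem_ofPred_eq, mem_union, mem_iUnion, mem_inter_iff]
      constructor
      · rintro (h | ⟨a, h1, h2, h3, h4, h5⟩)
        · exact Or.inl h
        · exact Or.inr ⟨a, h1, h3, h2, h4, h5⟩
      · rintro (h | ⟨a, h1, h3, h2, h4, h5⟩)
        · exact Or.inl h
        · exact Or.inr ⟨a, h1, h2, h3, h4, h5⟩
    rw [this]
    exact (ih y).union (MeasurableSet.iUnion fun a =>
      (ih a).inter ((measurableSet_coord _).inter (MeasurableSet.const _)))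

theorem measurableSet_conn (S : Set (X b)) (x y : X b) :
    MeasurableSet {ω : Sym2 (X b) → Bool | Conn ω S x y} := by
  have : {ω : Sym2 (X b) → Bool | Conn ω S x y} = ⋃ n : ℕ, {ω | ConnN ω S x n y} := by
    ext ω
    simp only [mem_ofPred_eq, mem_iUnion]
    exact connN_iff
  rw [this]
  exact MeasurableSet.iUnion fun n => measurableSet_connN S x n y

theorem conn_congr (h : ∀ e ∈ ES S, ω e = ω' e) (hc : Conn ω S x y) : Conn ω' S x y := by
  refine rtg_mono ?_ hc
  rintro a c ⟨h1, h2, h3, h4⟩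
  exact ⟨h1, by rw [← h _ ⟨a, c, rfl, h1, h3, h4⟩]; exact h2, h3, h4⟩

theorem dep_conn (S : Set (X b)) (x y : X b) :
    Dep {ω : Sym2 (X b) → Bool | Conn ω S x y} (ES S) := by
  intro ω ω' h
  exact ⟨conn_congr h, conn_congr fun e he => (h e he).symm⟩

theorem incr_conn (S : Set (X b)) (x y : X b) :
    Incr {ω : Sym2 (X b) → Bool | Conn ω S x y} := by
  intro ω ω' h hc
  exact Conn.incr hc h

/-- transport of `Conn` along an injection which preserves adjacency on `S` -/
theorem conn_map (f : X b → X b) (hf : Function.Injective f)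
    (hadj : ∀ a ∈ S, ∀ c ∈ S, (adj (f a) (f c) ↔ adj a c)) :
    Conn (ω ∘ Sym2.map f) S x y ↔ Conn ω (f '' S) (f x) (f y) := by
  constructor
  · intro h
    refine rtg_lift f ?_ h
    rintro a c ⟨h1, h2, h3, h4⟩
    exact ⟨(hadj a h3 c h4).mpr h1, by simpa using h2, mem_image_of_mem f h3,
      mem_image_of_mem f h4⟩
  · intro h
    have key : ∀ z, Relation.ReflTransGen
        (fun a c => adj a c ∧ ω s(a, c) = true ∧ a ∈ f '' S ∧ c ∈ f '' S) (f x) z →
        ∃ y', z = f y' ∧ Conn (ω ∘ Sym2.map f) S x y' := by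
      intro z hz
      induction hz with
      | refl => exact ⟨x, rfl, Relation.ReflTransGen.refl⟩
      | tail _ hbc ih =>
        obtain ⟨y', rfl, hy'⟩ := ih
        obtain ⟨h1, h2, h3, h4⟩ := hbc
        obtain ⟨c', hc', rfl⟩ := h4
        obtain ⟨a', ha', hae⟩ := h3
        obtain rfl := hf hae
        refine ⟨c', rfl, Relation.ReflTransGen.tail hy' ⟨(hadj _ ha' _ hc').mp h1, ?_, ha', hc'⟩⟩
        simpa using h2
    obtain ⟨y', hy, h'⟩ := key _ h
    obtain rfl := hf hy
    exact h'

theorem measurableSet_infinite_clus (S : Set (X b)) (x : X b) :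
    MeasurableSet {ω : Sym2 (X b) → Bool | (Clus ω S x).Infinite} := by
  have : {ω : Sym2 (X b) → Bool | (Clus ω S x).Infinite} =
      (⋃ F : Finset (X b), ⋂ y : X b, ({ω | Conn ω S x y}ᶜ ∪ {_ω | y ∈ F}))ᶜ := by
    ext ω
    simp only [mem_ofPred_eq, mem_compl_iff, mem_iUnion, mem_iInter, mem_union]
    rw [Set.Infinite, not_iff_not]
    constructor
    · intro h
      refine ⟨h.toFinset, fun y => ?_⟩
      by_cases hy : Conn ω S x y
      · right
        rw [Set.Finite.mem_toFinset]
        exact hy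
      · left
        exact hy
    · rintro ⟨F, hF⟩
      refine F.finite_toSet.subset ?_
      intro y hy
      rcases hF y with h | h
      · exact absurd hy h
      · exact h
  rw [this]
  exact (MeasurableSet.iUnion fun F => MeasurableSet.iInter fun y =>
    (measurableSet_conn S x y).compl.union (MeasurableSet.const _)).compl

/-- clusters grow with the region -/
theorem clus_mono (hS : S ⊆ S') : Clus ω S x ⊆ Clus ω S' x := fun _ h => Conn.mono h hS

/-- connected points have the same cluster -/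
theorem clus_eq (h : Conn ω S x y) : Clus ω S x = Clus ω S y := by
  ext z
  exact ⟨fun hz => h.symm.trans hz, fun hz => h.trans hz⟩

end Basic

end Pool.Agent.Helper69.TL
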