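import Pool.Agent.Helper69.TL.BA

/-!
# MP_b6f052_pr: geometry of the coordinate sets, columns and links
-/

open MeasureTheory Set

namespace Pool.Agent.Helper69.TL

variable {b : ℕ} {ω ω' : Sym2 (X b) → Bool} {S S' : Set (X b)} {x y z : X b}

theorem mem_of_mem_ES {e : Sym2 (X b)} (he : e ∈ ES S) (hx : x ∈ e) : x ∈ S := by
  obtain ⟨a, c, rfl, _, ha, hc⟩ := he
  rcases Sym2.mem_iff.mp hx with rfl | rfl
  · exact ha
  · exact hc

theorem ES_mono (h : S ⊆ S') : ES S ⊆ ES S' := by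
  rintro e ⟨a, c, rfl, h1, h2, h3⟩
  exact ⟨a, c, rfl, h1, h h2, h h3⟩

theorem desc_nil (v : TV b) : desc v [] = v := by
  unfold desc; simp

theorem desc_desc (v : TV b) (u w : List (Fin b)) : desc (desc v u) w = desc v (u ++ w) := by
  unfold desc; simp

theorem desc_inj {v : TV b} {u w : List (Fin b)} (h : desc v u = desc v w) : u = w := by
  unfold desc at h
  have := (Prod.mk.inj h).2
  exact List.append_cancel_left this

/-- points of `Reg` are below `v` in the slab -/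
theorem reg_slab {N M m : ℕ} (hm : m ≤ M) {v : TV b} {j : ℤ} (hx : x ∈ Reg N M m v j) :
    j ≤ x.2 ∧ x.2 ≤ j + M ∧ ∃ u, x.1 = desc v u := by
  obtain ⟨w, h1, h2⟩ := hx
  have hm' : (m : ℤ) ≤ M := by exact_mod_cast hm
  rcases h2 with ⟨_, h2⟩ | ⟨_, h2⟩ | ⟨_, _, h2, h3⟩
  · exact ⟨by omega, by omega, w, h1⟩
  · exact ⟨by omega, by omega, w, h1⟩
  · exact ⟨h2, h3, w, h1⟩

theorem ereg_disj_egen {N M m : ℕ} (v : TV b) (j k : ℤ) {w : List (Fin b)} (hw : w.length = N) :
    Disjoint (ES (Reg N M m v j)) (EGen N M m (desc v w) k) := by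
  rw [Set.disjoint_left]
  rintro e ⟨a, c, rfl, hac, ha, hc⟩ ⟨u, _, he⟩
  have ha' := mem_of_mem_ES he (Sym2.mem_mk_left a c)
  have hc' := mem_of_mem_ES he (Sym2.mem_mk_right a c)
  have key : ∀ x : X b, x ∈ Reg N M m v j → x ∈ Reg N M m (desc (desc v w) u) k →
      x.1 = desc v w ∧ x.2 = j + m := by
    rintro x ⟨w1, h1, h2⟩ ⟨w2, h3, _⟩
    rw [desc_desc, desc_desc] at h3
    have e := desc_inj (h1.symm.trans h3)
    have el := congrArg List.length e
    simp only [List.length_append] at el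
    rcases h2 with ⟨h2, h4⟩ | ⟨h2, h4⟩ | ⟨h2, h4, _⟩
    · subst h2
      have hu : u = [] := List.eq_nil_of_length_eq_zero (by simp at el; omega)
      have hw2 : w2 = [] := List.eq_nil_of_length_eq_zero (by simp at el; omega)
      subst hu; subst hw2
      simp only [List.append_nil] at e
      exact ⟨by rw [h1, e], h4⟩
    · have hu : u = [] := List.eq_nil_of_length_eq_zero (by omega)
      have hw2 : w2 = [] := List.eq_nil_of_length_eq_zero (by omega)
      subst hu; subst hw2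
      simp only [List.append_nil] at e
      exact ⟨by rw [h1, e], h4⟩
    · omega
  have h1 := key a ha ha'
  have h2 := key c hc hc'
  exact adj_ne hac (Prod.ext (h1.1.trans h2.1.symm) (h1.2.trans h2.2.symm))

theorem egen_disj_egen {N M m : ℕ} (v : TV b) (j k : ℤ) {w w' : List (Fin b)}
    (hw : w.length = N) (hw' : w'.length = N) (hne : w ≠ w') :
    Disjoint (EGen N M m (desc v w) j) (EGen N M m (desc v w') k) := by
  rw [Set.disjoint_left]
  rintro e ⟨u, _, he⟩ ⟨u', _, he'⟩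
  obtain ⟨a, c, rfl, hac, ha, hc⟩ := he
  have ha' := mem_of_mem_ES he' (Sym2.mem_mk_left a c)
  obtain ⟨w1, h1, _⟩ := ha
  obtain ⟨w2, h2, _⟩ := ha'
  rw [desc_desc, desc_desc] at h1 h2
  have e := desc_inj (h1.symm.trans h2)
  exact hne (List.append_inj_left e (hw.trans hw'.symm))

/-- all edges of `EGen` are inside the slab -/
theorem egen_slab {N M m : ℕ} (hm : m ≤ M) (v : TV b) (j : ℤ) :
    EGen N M m v j ⊆ ES {x | j ≤ x.2 ∧ x.2 ≤ j + M ∧ ∃ u, x.1 = desc v u} := by
  rintro e ⟨u, _, he⟩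
  refine ES_mono ?_ he
  intro x hx
  obtain ⟨h1, h2, w, h3⟩ := reg_slab hm hx
  exact ⟨h1, h2, u ++ w, by rw [h3, desc_desc]⟩

theorem egen_disj_slab {N M m : ℕ} (hm : m ≤ M) (v v' : TV b) {j k : ℤ} (hjk : j + M < k) :
    Disjoint (EGen N M m v j) (EGen N M m v' k) := by
  rw [Set.disjoint_left]
  intro e he he'
  have h1 := egen_slab hm v j he
  have h2 := egen_slab hm v' k he'
  obtain ⟨a, c, rfl, _, ha, _⟩ := h1
  have ha' := mem_of_mem_ES h2 (Sym2.mem_mk_left a c)
  have h3 := ha.2.1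
  have h4 := ha'.1
  omega

theorem egen_disj_col {N M m : ℕ} (_hN : 0 < N) (v : TV b) (j : ℤ) :
    Disjoint (EGen N M m v j) (Col N v) := by
  rw [Set.disjoint_left]
  rintro e ⟨u, hu, he⟩ ⟨u', h, hu', rfl⟩
  have ha := mem_of_mem_ES he (Sym2.mem_mk_left _ _)
  have hc := mem_of_mem_ES he (Sym2.mem_mk_right _ _)
  have key : ∀ t : ℤ, (desc v u', t) ∈ Reg N M m (desc v u) j → t = j + m := by
    rintro t ⟨w, h1, h2⟩
    rw [desc_desc] at h1
    have e := desc_inj h1
    have el := congrArg List.length e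
    simp only [List.length_append] at el
    rcases h2 with ⟨_, h4⟩ | ⟨_, h4⟩ | ⟨h2, h4, _⟩
    · exact h4
    · exact h4
    · exfalso
      have : N ∣ w.length := by
        rw [el] at hu'
        exact (Nat.dvd_add_right hu).mp hu'
      exact absurd (Nat.le_of_dvd h2 this) (by omega)
  have h1 := key _ ha
  have h2 := key _ hc
  omega

theorem ereg_subset_egen (N M m : ℕ) (v : TV b) (j : ℤ) :
    ES (Reg N M m v j) ⊆ EGen N M m v j := by
  intro e he
  exact ⟨[], by simp, by rw [desc_nil]; exact he⟩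

theorem egen_desc_subset {N M m : ℕ} (v : TV b) (j : ℤ) {w : List (Fin b)} (hw : N ∣ w.length) :
    EGen N M m (desc v w) j ⊆ EGen N M m v j := by
  rintro e ⟨u, hu, he⟩
  refine ⟨w ++ u, ?_, by rw [← desc_desc]; exact he⟩
  rw [List.length_append]
  exact (Nat.dvd_add_right hw).mpr hu

/-- a column of open edges -/
theorem conn_column (v : TV b) {h₁ h₂ : ℤ} (h12 : h₁ ≤ h₂)
    (ho : ∀ h, h₁ ≤ h → h < h₂ → ω s((v, h), (v, h + 1)) = true) :
    Conn ω {x | h₁ ≤ x.2 ∧ x.2 ≤ h₂} (v, h₁) (v, h₂) := by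
  induction h₂, h12 using Int.leInduction with
  | base => exact Relation.ReflTransGen.refl
  | succ n hn ih =>
    have h1 := (ih (fun h h3 h4 => ho h h3 (by omega))).mono
      (S' := {x : X b | h₁ ≤ x.2 ∧ x.2 ≤ n + 1}) (by
        rintro x ⟨h3, h4⟩
        exact ⟨h3, by omega⟩)
    refine h1.trans (Conn.single ?_ (ho n hn (by omega)) ?_ ?_)
    · exact Or.inl ⟨rfl, Or.inl rfl⟩
    · exact ⟨hn, by show n ≤ n + 1; omega⟩
    · exact ⟨by show h₁ ≤ n + 1; omega, le_refl _⟩

/-- linkable vertices -/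
def Lk (v v' : TV b) : Prop := ∃ P : Finset (Sym2 (TV b)),
    ∀ (ω : Sym2 (X b) → Bool) (h : ℤ), (∀ e ∈ P, ω (e.map (fun u => (u, h))) = true) →
      Conn ω {x | x.2 = h} (v, h) (v', h)

theorem Lk.refl (v : TV b) : Lk v v := ⟨∅, fun _ _ _ => Relation.ReflTransGen.refl⟩

theorem Lk.symm {v v' : TV b} (h : Lk v v') : Lk v' v := by
  obtain ⟨P, hP⟩ := h
  exact ⟨P, fun ω h ho => (hP ω h ho).symm⟩

theorem Lk.trans {v v' v'' : TV b} (h : Lk v v') (h' : Lk v' v'') : Lk v v'' := by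
  classical
  obtain ⟨P, hP⟩ := h
  obtain ⟨P', hP'⟩ := h'
  refine ⟨P ∪ P', fun ω h ho => ?_⟩
  exact (hP ω h fun e he => ho e (Finset.mem_union_left _ he)).trans
    (hP' ω h fun e he => ho e (Finset.mem_union_right _ he))

theorem Lk.of_tadj {v v' : TV b} (h : tadj v v') : Lk v v' := by
  refine ⟨{s(v, v')}, fun ω k ho => ?_⟩
  have := ho s(v, v') (Finset.mem_singleton_self _)
  rw [Sym2.map_mk] at this
  exact Conn.single (Or.inr ⟨rfl, h⟩) this rfl rfl

theorem lk_root (v : TV b) : Lk (false, []) v := by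
  obtain ⟨s, l⟩ := v
  induction l using List.reverseRecOn with
  | nil =>
    cases s with
    | false => exact Lk.refl _
    | true => exact Lk.of_tadj (Or.inr (Or.inr ⟨by simp, rfl, rfl⟩))
  | append_singleton l i ih =>
    exact ih.trans (Lk.of_tadj (Or.inl ⟨rfl, i, rfl⟩))

/-- the tree is connected: finitely many horizontal edges connect `v` and `v'` at any height -/
theorem tree_link (v v' : TV b) : ∃ P : Finset (Sym2 (TV b)),
    ∀ (ω : Sym2 (X b) → Bool) (h : ℤ), (∀ e ∈ P, ω (e.map (fun u => (u, h))) = true) →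
      Conn ω {x | x.2 = h} (v, h) (v', h) :=
  (lk_root v).symm.trans (lk_root v')

end Pool.Agent.Helper69.TL
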