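import Pool.Agent.Helper69.TL.BA

/-!
# MP_b6f052_pr, module BG: `emb`, `Off`, `Gen`
-/

open MeasureTheory Set

namespace Pool.Agent.Helper69.TL

section Basic
variable {b : ℕ} {ω ω' : Sym2 (X b) → Bool} {S S' : Set (X b)} {x y z : X b}

/-- embedding of the `false` side (shifted) below `v`, heights shifted by `j` -/
def emb (v : TV b) (j : ℤ) (x : X b) : X b :=
  (if x.1.1 = false then (v.1, v.2 ++ x.1.2) else (!v.1, x.1.2), j + x.2)

theorem bg_emb_false (v : TV b) (j : ℤ) (l : List (Fin b)) (h : ℤ) :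
    emb v j ((false, l), h) = (desc v l, j + h) := rfl

theorem bg_desc_desc (v : TV b) (w u : List (Fin b)) : desc (desc v w) u = desc v (w ++ u) := by
  simp [desc]

theorem bg_desc_nil (v : TV b) : desc v [] = v := by simp [desc]

theorem emb_injective (v : TV b) (j : ℤ) : Function.Injective (emb v j) := by
  rintro ⟨⟨s, l⟩, h⟩ ⟨⟨s', l'⟩, h'⟩ heq
  have h1 := congrArg Prod.fst heq
  have h2 := congrArg Prod.snd heq
  have h3 : h = h' := by
    simp only [emb] at h2
    linarith
  subst h3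
  cases s <;> cases s'
  · simp only [emb, if_true, Prod.mk.injEq, true_and, List.append_cancel_left_eq] at h1
    rw [h1]
  · exfalso
    have h4 := congrArg Prod.fst h1
    simp [emb] at h4
  · exfalso
    have h4 := congrArg Prod.fst h1
    simp [emb] at h4
  · simp only [emb, Bool.true_eq_false, if_false, Prod.mk.injEq, true_and] at h1
    rw [h1]

theorem bg_tadj_desc (v : TV b) (l l' : List (Fin b)) :
    tadj (desc v l) (desc v l') ↔ tadj ((false, l) : TV b) (false, l') := by
  simp only [tadj, desc, true_and, ne_eq, not_true_eq_false, false_and, or_false,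
    List.append_assoc, List.append_cancel_left_eq]

theorem bg_reg_emb (N M m : ℕ) (v : TV b) (j : ℤ) (w : List (Fin b)) (i : ℤ) :
    emb v j '' Reg N M m (false, w) i = Reg N M m (desc v w) (j + i) := by
  ext x
  constructor
  · rintro ⟨y, ⟨u, hy, hu⟩, rfl⟩
    obtain ⟨y1, y2⟩ := y
    simp only at hy hu
    subst hy
    refine ⟨u, ?_, ?_⟩
    · simp [emb, desc]
    · show (u = [] ∧ j + y2 = _) ∨ (u.length = N ∧ j + y2 = _) ∨
        (0 < u.length ∧ u.length < N ∧ _ ≤ j + y2 ∧ j + y2 ≤ _)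
      rcases hu with hu | hu | hu
      · exact Or.inl ⟨hu.1, by linarith [hu.2]⟩
      · exact Or.inr (Or.inl ⟨hu.1, by linarith [hu.2]⟩)
      · exact Or.inr (Or.inr ⟨hu.1, hu.2.1, by linarith [hu.2.2.1], by linarith [hu.2.2.2]⟩)
  · rintro ⟨u, hx, hu⟩
    obtain ⟨x1, x2⟩ := x
    simp only at hx hu
    subst hx
    refine ⟨(desc (false, w) u, x2 - j), ⟨u, rfl, ?_⟩, ?_⟩
    · show (u = [] ∧ x2 - j = _) ∨ (u.length = N ∧ x2 - j = _) ∨
        (0 < u.length ∧ u.length < N ∧ _ ≤ x2 - j ∧ x2 - j ≤ _)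
      rcases hu with hu | hu | hu
      · exact Or.inl ⟨hu.1, by linarith [hu.2]⟩
      · exact Or.inr (Or.inl ⟨hu.1, by linarith [hu.2]⟩)
      · exact Or.inr (Or.inr ⟨hu.1, hu.2.1, by linarith [hu.2.2.1], by linarith [hu.2.2.2]⟩)
    · simp [emb, desc]

theorem bg_adj_emb (v : TV b) (j : ℤ) {x y : X b} (hx : x.1.1 = false) (hy : y.1.1 = false) :
    adj (emb v j x) (emb v j y) ↔ adj x y := by
  obtain ⟨⟨s, l⟩, h⟩ := x
  obtain ⟨⟨s', l'⟩, h'⟩ := y
  simp only at hx hy
  subst hx hy
  rw [bg_emb_false, bg_emb_false]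
  simp only [adj, bg_tadj_desc]
  have h1 : desc v l = desc v l' ↔ ((false, l) : TV b) = (false, l') := by simp [desc]
  have h2 : (j + h' = j + h + 1 ∨ j + h = j + h' + 1) ↔ (h' = h + 1 ∨ h = h' + 1) := by
    constructor
    · rintro (h | h)
      · exact Or.inl (by linarith)
      · exact Or.inr (by linarith)
    · rintro (h | h)
      · exact Or.inl (by linarith)
      · exact Or.inr (by linarith)
  have h3 : j + h = j + h' ↔ h = h' := by constructor <;> intro h <;> linarith
  rw [h1, h2, h3]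

theorem off_emb (N M m : ℕ) (ω : Sym2 (X b) → Bool) (v : TV b) (j : ℤ) (w : List (Fin b)) (i : ℤ) :
    Off N M m (ω ∘ Sym2.map (emb v j)) (false, w) i = Off N M m ω (desc v w) (j + i) := by
  ext u
  have hmem : ∀ a ∈ Reg N M m ((false, w) : TV b) i, a.1.1 = false := by
    rintro a ⟨u, ha, -⟩
    rw [ha]
    rfl
  have h1 := conn_map (ω := ω) (S := Reg N M m ((false, w) : TV b) i)
    (x := ((false, w), i + m)) (y := (desc (false, w) u, i + m)) (emb v j) (emb_injective v j)
    (fun a ha c hc => bg_adj_emb v j (hmem a ha) (hmem c hc))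
  rw [bg_reg_emb] at h1
  have h2 : emb v j ((false, w), i + (m : ℤ)) = (desc v w, j + i + m) := by
    rw [bg_emb_false, add_assoc]
  have h3 : emb v j (desc (false, w) u, i + (m : ℤ)) = (desc (desc v w) u, j + i + m) := by
    have : (desc (false, w) u : TV b) = (false, w ++ u) := rfl
    rw [this, bg_emb_false, add_assoc, bg_desc_desc]
  rw [h2, h3] at h1
  exact and_congr_right fun _ => h1

theorem gen_emb (N M m : ℕ) (ω : Sym2 (X b) → Bool) (v : TV b) (j : ℤ) (l : ℕ)
    (w : List (Fin b)) (i : ℤ) :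
    Gen N M m (ω ∘ Sym2.map (emb v j)) (false, w) i l = Gen N M m ω (desc v w) (j + i) l := by
  induction l generalizing w with
  | zero => rfl
  | succ l ih =>
    simp only [Gen]
    rw [off_emb]
    have h1 : ∀ w' : List (Fin b), Gen N M m (ω ∘ Sym2.map (emb v j)) (desc (false, w) w') i l =
        Gen N M m ω (desc (desc v w) w') (j + i) l := by
      intro w'
      have : (desc (false, w) w' : TV b) = (false, w ++ w') := rfl
      rw [this, ih, bg_desc_desc]
    simp only [h1]

theorem gen_length {N M m : ℕ} {v : TV b} {j : ℤ} {l : ℕ} {u : List (Fin b)}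
    (h : u ∈ Gen N M m ω v j l) : u.length = N * l := by
  induction l generalizing v u with
  | zero =>
    have : u = [] := h
    simp [this]
  | succ l ih =>
    obtain ⟨w, hw, u', hu', rfl⟩ := h
    rw [List.length_append, hw.1, ih hu']
    ring

theorem bg_reg_slab {N M m : ℕ} (hm : m ≤ M) (v : TV b) (j : ℤ) :
    Reg N M m v j ⊆ {x | j ≤ x.2 ∧ x.2 ≤ j + M} := by
  have hm' : (m : ℤ) ≤ M := by exact_mod_cast hm
  rintro x ⟨w, -, h | h | h⟩
  · exact ⟨by rw [h.2]; linarith, by rw [h.2]; linarith⟩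
  · exact ⟨by rw [h.2]; linarith, by rw [h.2]; linarith⟩
  · exact ⟨h.2.2.1, h.2.2.2⟩

theorem gen_conn {N M m : ℕ} (hm : m ≤ M) {v : TV b} {j : ℤ} {l : ℕ} {u : List (Fin b)}
    (h : u ∈ Gen N M m ω v j l) :
    Conn ω {x | j ≤ x.2 ∧ x.2 ≤ j + M} (v, j + m) (desc v u, j + m) := by
  induction l generalizing v u with
  | zero =>
    have : u = [] := h
    rw [this, bg_desc_nil]
    exact Relation.ReflTransGen.refl
  | succ l ih =>
    obtain ⟨w, hw, u', hu', rfl⟩ := h
    rw [← bg_desc_desc]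
    exact (hw.2.mono (bg_reg_slab hm v j)).trans (ih hu')

theorem measurableSet_off (N M m : ℕ) (v : TV b) (j : ℤ) (w : List (Fin b)) :
    MeasurableSet {ω : Sym2 (X b) → Bool | w ∈ Off N M m ω v j} := by
  have h1 : {ω : Sym2 (X b) → Bool | w ∈ Off N M m ω v j} =
      {ω | w.length = N} ∩
        {ω | Conn ω (Reg N M m v j) (v, j + m) (desc v w, j + m)} := rfl
  rw [h1]
  exact (MeasurableSet.const _).inter (measurableSet_conn _ _ _)

theorem measurableSet_gen (N M m : ℕ) (v : TV b) (j : ℤ) (l : ℕ) (u : List (Fin b)) :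
    MeasurableSet {ω : Sym2 (X b) → Bool | u ∈ Gen N M m ω v j l} := by
  induction l generalizing v u with
  | zero =>
    exact MeasurableSet.const (u ∈ ({[]} : Set (List (Fin b))))
  | succ l ih =>
    have h1 : {ω : Sym2 (X b) → Bool | u ∈ Gen N M m ω v j (l + 1)} =
        ⋃ w : List (Fin b), ⋃ u' : List (Fin b), ({ω | w ∈ Off N M m ω v j} ∩
          {ω | u' ∈ Gen N M m ω (desc v w) j l}) ∩ {_ω | u = w ++ u'} := by
      ext ω
      simp only [Gen, mem_iUnion, mem_inter_iff, mem_ofPred_eq]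
      constructor
      · rintro ⟨w, hw, u', hu', h⟩
        exact ⟨w, u', ⟨hw, hu'⟩, h⟩
      · rintro ⟨w, u', ⟨hw, hu'⟩, h⟩
        exact ⟨w, hw, u', hu', h⟩
    rw [h1]
    exact MeasurableSet.iUnion fun w => MeasurableSet.iUnion fun u' =>
      ((measurableSet_off N M m v j w).inter (ih _ _)).inter (MeasurableSet.const _)

theorem off_congr {N M m : ℕ} {v : TV b} {j : ℤ}
    (h : ∀ e ∈ ES (Reg N M m v j), ω e = ω' e) : Off N M m ω v j = Off N M m ω' v j := by
  ext w
  exact and_congr_right fun _ => dep_conn (Reg N M m v j) _ _ ω ω' h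

theorem gen_congr {N M m : ℕ} {v : TV b} {j : ℤ}
    (h : ∀ e ∈ EGen N M m v j, ω e = ω' e) (l : ℕ) :
    Gen N M m ω v j l = Gen N M m ω' v j l := by
  induction l generalizing v with
  | zero => rfl
  | succ l ih =>
    have h1 : Off N M m ω v j = Off N M m ω' v j :=
      off_congr fun e he => h e ⟨[], by simp, by rwa [bg_desc_nil]⟩
    have h2 : ∀ w ∈ Off N M m ω' v j, Gen N M m ω (desc v w) j l =
        Gen N M m ω' (desc v w) j l := by
      intro w hw
      refine ih fun e he => ?_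
      obtain ⟨u, hu, he⟩ := he
      refine h e ⟨w ++ u, ?_, ?_⟩
      · rw [List.length_append, hw.1]
        exact dvd_add dvd_rfl hu
      · rwa [← bg_desc_desc]
    simp only [Gen]
    rw [h1]
    ext x
    constructor
    · rintro ⟨w, hw, u, hu, hx⟩
      exact ⟨w, hw, u, h2 w hw ▸ hu, hx⟩
    · rintro ⟨w, hw, u, hu, hx⟩
      exact ⟨w, hw, u, (h2 w hw).symm ▸ hu, hx⟩

end Basic

end Pool.Agent.Helper69.TL
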