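import Pool.Agent.Helper69.TL.Defs

/-!
The translation of the tree along an axis.
-/

set_option autoImplicit false

open MeasureTheory Set

namespace Pool.Agent.Helper69.TL

section Tau
variable {b : ℕ} [NeZero b]

/-- translation along the axis `… (true,[0]), (true,[]), (false,[]), (false,[0]), …` -/
def tauFun : TV b → TV b
  | (false, l) => (false, 0 :: l)
  | (true, []) => (false, [])
  | (true, i :: l) => if i = 0 then (true, l) else (false, i :: l)

/-- the other side -/
def tvFlip (u : TV b) : TV b := (!u.1, u.2)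

omit [NeZero b] in
theorem tvFlip_flip (u : TV b) : tvFlip (tvFlip u) = u := by
  rcases u with ⟨s, l⟩
  simp [tvFlip]

omit [NeZero b] in
theorem tadj_flip {u v : TV b} (h : tadj u v) : tadj (tvFlip u) (tvFlip v) := by
  rcases u with ⟨s, l⟩
  rcases v with ⟨s', l'⟩
  simpa [tadj, tvFlip] using h

theorem tauFun_flip (u : TV b) : tvFlip (tauFun (tvFlip (tauFun u))) = u := by
  rcases u with ⟨s, l⟩
  cases s
  · simp [tauFun, tvFlip]
  · cases l with
    | nil => simp [tauFun, tvFlip]
    | cons i l =>
      by_cases h : i = 0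
      · subst h; simp [tauFun, tvFlip]
      · simp [tauFun, tvFlip, h]

theorem tadj_tauFun {u v : TV b} (h : tadj u v) : tadj (tauFun u) (tauFun v) := by
  have key : ∀ (s : Bool) (l : List (Fin b)) (i : Fin b),
      tadj (tauFun (s, l)) (tauFun (s, l ++ [i])) := by
    intro s l i
    cases s
    · exact Or.inl ⟨rfl, i, rfl⟩
    · cases l with
      | nil =>
        by_cases hi : i = 0
        · subst hi
          refine Or.inr (Or.inr ?_)
          simp [tauFun]
        · refine Or.inl ?_
          simp [tauFun, hi]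
      | cons j l =>
        by_cases hj : j = 0
        · subst hj
          refine Or.inl ?_
          simp [tauFun]
        · refine Or.inl ?_
          simp [tauFun, hj]
  have hsymm : ∀ {u v : TV b}, tadj u v → tadj v u := fun {u v} h => (treeGraph b).symm.symm _ _ h
  rcases u with ⟨s, l⟩
  rcases v with ⟨s', l'⟩
  rcases h with ⟨h1, i, h2⟩ | ⟨h1, i, h2⟩ | ⟨h1, h2, h3⟩
  · simp only at h1 h2
    subst h1 h2
    exact key s l i
  · simp only at h1 h2
    subst h1 h2
    exact hsymm (key s l' i)
  · simp only at h1 h2 h3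
    subst h2 h3
    cases s <;> cases s'
    · exact absurd rfl h1
    · refine Or.inr (Or.inl ?_)
      simp [tauFun]
    · refine Or.inl ?_
      simp [tauFun]
    · exact absurd rfl h1

theorem exists_tau : ∃ τ : Equiv.Perm (TV b), (∀ u, τ u = tauFun u) ∧
    (∀ u v, tadj (τ u) (τ v) ↔ tadj u v) := by
  have hl : ∀ u : TV b, tvFlip (tauFun (tvFlip (tauFun u))) = u := tauFun_flip
  have hr : ∀ u : TV b, tauFun (tvFlip (tauFun (tvFlip u))) = u := by
    intro u
    have h := tauFun_flip (tvFlip u)
    have h2 := congrArg tvFlip h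
    rwa [tvFlip_flip, tvFlip_flip] at h2
  refine ⟨⟨tauFun, fun u => tvFlip (tauFun (tvFlip u)), hl, hr⟩, fun u => rfl, fun u v => ?_⟩
  constructor
  · intro h
    have h1 := tadj_flip (tadj_tauFun (tadj_flip h))
    have h2 : tadj (tvFlip (tauFun (tvFlip (tauFun u)))) (tvFlip (tauFun (tvFlip (tauFun v)))) := h1
    rwa [hl, hl] at h2
  · exact fun h => tadj_tauFun h

theorem tau_pow_false {τ : Equiv.Perm (TV b)} (hτ : ∀ u, τ u = tauFun u) (r : ℕ)
    (l : List (Fin b)) : (τ ^ r) (false, l) = (false, List.replicate r 0 ++ l) := by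
  induction r generalizing l with
  | zero => simp
  | succ r ih =>
    rw [pow_succ, Equiv.Perm.mul_apply, hτ]
    show (τ ^ r) (false, 0 :: l) = _
    rw [ih, List.replicate_succ', List.append_assoc]
    rfl

theorem tau_pow_adj {τ : Equiv.Perm (TV b)} (hτ : ∀ u v, tadj (τ u) (τ v) ↔ tadj u v) (r : ℕ)
    (u v : TV b) : tadj ((τ ^ r) u) ((τ ^ r) v) ↔ tadj u v := by
  induction r generalizing u v with
  | zero => simp
  | succ r ih =>
    rw [pow_succ, Equiv.Perm.mul_apply, Equiv.Perm.mul_apply, ih, hτ]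

theorem tau_eventually {τ : Equiv.Perm (TV b)} (hτ : ∀ u, τ u = tauFun u) (u : TV b) :
    ∃ r₀ : ℕ, ∀ r ≥ r₀, ∃ l : List (Fin b), (τ ^ r) u = (false, l) ∧ 0 < l.length ∧
      l.length ≤ 2 * r := by
  have key : ∀ u : TV b, ∃ (k : ℕ) (l : List (Fin b)), (τ ^ k) u = (false, l) := by
    rintro ⟨s, l⟩
    cases s
    · exact ⟨0, l, by simp⟩
    · induction l with
      | nil => exact ⟨1, [], by rw [pow_one, hτ]; rfl⟩
      | cons i l ih =>
        by_cases h : i = 0
        · subst h
          obtain ⟨k, l', h⟩ := ih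
          refine ⟨k + 1, l', ?_⟩
          rw [pow_succ, Equiv.Perm.mul_apply, hτ]
          simpa [tauFun] using h
        · exact ⟨1, i :: l, by rw [pow_one, hτ]; simp [tauFun, h]⟩
  obtain ⟨k, l, h⟩ := key u
  refine ⟨k + l.length + 1, fun r hr => ⟨List.replicate (r - k) 0 ++ l, ?_, ?_, ?_⟩⟩
  · obtain ⟨s, rfl⟩ : ∃ s, r = s + k := ⟨r - k, by omega⟩
    rw [pow_add, Equiv.Perm.mul_apply, h, tau_pow_false hτ, Nat.add_sub_cancel]
  · rw [List.length_append, List.length_replicate]; omega
  · rw [List.length_append, List.length_replicate]; omega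

end Tau

end Pool.Agent.Helper69.TL
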