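import Pool.Agent.Helper69.TL.BA
import Pool.Agent.Helper69.TL.Tau

/-!
Two far points on the axis are connected inside a finite box.
-/

set_option autoImplicit false

open MeasureTheory Set

namespace Pool.Agent.Helper69.TL

/-- boxes below `(false, 0^i)` -/
def Box (b : ℕ) [NeZero b] (r i : ℕ) : Set (X b) :=
  {x | ∃ l : List (Fin b), x.1 = (false, List.replicate i 0 ++ l) ∧ 0 < l.length ∧
    l.length ≤ 2 * r ∧ -(r : ℤ) ≤ x.2 ∧ x.2 ≤ r}

/-- pull back along an injection -/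
theorem box_mp_inj {ι κ : Type*} (f : κ → ι) (hf : Function.Injective f) (p : unitInterval) :
    MeasurePreserving (fun ω : ι → Bool => ω ∘ f) (mu ι p) (mu κ p) where
  measurable := measurable_pi_iff.mpr fun k => measurable_pi_apply (f k)
  map_eq := by
    unfold mu
    exact Measure.map_infinitePi_infinitePi_of_inj (P := fun _ : ι => edgeLaw p) hf

section
variable {b : ℕ}

/-- the automorphism of tree times line given by an automorphism of the tree -/
def liftT (σ : TV b → TV b) (x : X b) : X b := (σ x.1, x.2)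

theorem adj_liftT {σ : TV b → TV b} (hinj : Function.Injective σ)
    (h : ∀ u v, tadj (σ u) (σ v) ↔ tadj u v) (x y : X b) :
    adj (liftT σ x) (liftT σ y) ↔ adj x y := by
  unfold adj liftT
  dsimp only
  rw [h, hinj.eq_iff]

theorem liftT_injective {σ : TV b → TV b} (hinj : Function.Injective σ) :
    Function.Injective (liftT σ) := by
  intro x y hxy
  have h1 := congrArg Prod.fst hxy
  have h2 := congrArg Prod.snd hxy
  exact Prod.ext (hinj h1) h2

/-- the pulled back box -/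
def PBox (τ : Equiv.Perm (TV b)) (r : ℕ) : Set (X b) :=
  {x | ∃ l : List (Fin b), (τ ^ r) x.1 = (false, l) ∧ 0 < l.length ∧
    l.length ≤ 2 * r ∧ -(r : ℤ) ≤ x.2 ∧ x.2 ≤ r}

theorem image_pbox [NeZero b] {τ : Equiv.Perm (TV b)} (hτ : ∀ u, τ u = tauFun u) (r i : ℕ) :
    liftT (τ ^ (i + r) : Equiv.Perm (TV b)) '' PBox τ r = Box b r i := by
  ext x
  constructor
  · rintro ⟨y, ⟨l, h1, h2, h3, h4, h5⟩, rfl⟩
    refine ⟨l, ?_, h2, h3, h4, h5⟩
    show (τ ^ (i + r)) y.1 = _
    rw [pow_add, Equiv.Perm.mul_apply, h1, tau_pow_false hτ]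
  · rintro ⟨l, h1, h2, h3, h4, h5⟩
    refine ⟨((τ ^ r)⁻¹ (false, l), x.2), ⟨l, ?_, h2, h3, h4, h5⟩, ?_⟩
    · show (τ ^ r) ((τ ^ r)⁻¹ (false, l)) = _
      exact Equiv.apply_symm_apply _ _
    · refine Prod.ext ?_ rfl
      show (τ ^ (i + r)) ((τ ^ r)⁻¹ (false, l)) = x.1
      have h6 : (τ ^ r) ((τ ^ r)⁻¹ (false, l)) = (false, l) := Equiv.apply_symm_apply _ _
      rw [pow_add, Equiv.Perm.mul_apply, h6, tau_pow_false hτ, h1]

/-- every vertex is eventually in the pulled back box -/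
theorem eventually_pbox [NeZero b] {τ : Equiv.Perm (TV b)} (hτ : ∀ u, τ u = tauFun u) (x : X b) :
    ∃ r₀ : ℕ, ∀ r ≥ r₀, x ∈ PBox τ r := by
  obtain ⟨r₀, h⟩ := tau_eventually hτ x.1
  refine ⟨max r₀ x.2.natAbs, fun r hr => ?_⟩
  obtain ⟨l, h1, h2, h3⟩ := h r ((le_max_left _ _).trans hr)
  have h4 : x.2.natAbs ≤ r := (le_max_right _ _).trans hr
  exact ⟨l, h1, h2, h3, by omega, by omega⟩

theorem eventually_conn [NeZero b] {τ : Equiv.Perm (TV b)} (hτ : ∀ u, τ u = tauFun u)
    {ω : Sym2 (X b) → Bool} {S : Set (X b)} {x y : X b} (h : Conn ω S x y) :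
    ∃ r₀ : ℕ, ∀ r ≥ r₀, Conn ω (PBox τ r) x y := by
  unfold Conn at h
  induction h with
  | refl => exact ⟨0, fun r _ => Relation.ReflTransGen.refl⟩
  | tail _ hbc ih =>
    rename_i u v _
    obtain ⟨r₀, h0⟩ := ih
    obtain ⟨r₁, h1⟩ := eventually_pbox hτ u
    obtain ⟨r₂, h2⟩ := eventually_pbox hτ v
    obtain ⟨h3, h4, -, -⟩ := hbc
    refine ⟨max r₀ (max r₁ r₂), fun r hr => ?_⟩
    have hr0 : r₀ ≤ r := (le_max_left _ _).trans hr
    have hr1 : r₁ ≤ r := ((le_max_left _ _).trans (le_max_right _ _)).trans hr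
    have hr2 : r₂ ≤ r := ((le_max_right _ _).trans (le_max_right _ _)).trans hr
    exact (h0 r hr0).trans (Conn.single h3 h4 (h1 r hr1) (h2 r hr2))

end

theorem exists_box {b : ℕ} [NeZero b] {p : unitInterval} {A : Set ℤ} {h : ℤ} {n : ℕ}
    {c c' : ENNReal} (hc : c' < c)
    (H : c ≤ mu (Sym2 (X b)) p {ω | Conn ω (RA A) (v0 b, h) ((false, List.replicate n 0), h)}) :
    ∃ r : ℕ, 0 < r ∧ |h| ≤ r ∧ ∀ i : ℕ, c' ≤ mu (Sym2 (X b)) p {ω | Conn ω (Box b r i)
      ((false, List.replicate (r + i) 0), h) ((false, List.replicate (r + i + n) 0), h)} := by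
  obtain ⟨τ, hτ, hτadj⟩ := exists_tau (b := b)
  let x : X b := (v0 b, h)
  let y : X b := ((false, List.replicate n 0), h)
  let E : ℕ → Set (Sym2 (X b) → Bool) := fun R => ⋂ r ∈ Ici R, {ω | Conn ω (PBox τ r) x y}
  have hEmono : Monotone E := by
    intro R R' hRR' ω hω
    simp only [E, mem_iInter, mem_Ici] at hω ⊢
    exact fun r hr => hω r (hRR'.trans hr)
  have hsub : {ω : Sym2 (X b) → Bool | Conn ω (RA A) x y} ⊆ ⋃ R, E R := by
    intro ω hω
    obtain ⟨r₀, hr₀⟩ := eventually_conn hτ hω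
    refine mem_iUnion.mpr ⟨r₀, ?_⟩
    simp only [E, mem_iInter, mem_Ici]
    exact hr₀
  have h1 : c' < mu (Sym2 (X b)) p (⋃ R, E R) :=
    lt_of_lt_of_le hc (H.trans (measure_mono hsub))
  rw [hEmono.measure_iUnion] at h1
  obtain ⟨R, hR⟩ := lt_iSup_iff.mp h1
  let r : ℕ := max R (max 1 h.natAbs)
  have hrR : R ≤ r := le_max_left _ _
  have hr1 : 1 ≤ r := (le_max_left _ _).trans (le_max_right _ _)
  have hrh : h.natAbs ≤ r := (le_max_right _ _).trans (le_max_right _ _)
  have h2 : c' ≤ mu (Sym2 (X b)) p {ω | Conn ω (PBox τ r) x y} := by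
    refine hR.le.trans (measure_mono ?_)
    intro ω hω
    simp only [E, mem_iInter, mem_Ici] at hω
    exact hω r hrR
  have hh : |h| ≤ (r : ℤ) := by
    rw [Int.abs_eq_natAbs]
    exact_mod_cast hrh
  refine ⟨r, hr1, hh, fun i => ?_⟩
  have hinj : Function.Injective (liftT (b := b) (τ ^ (i + r) : Equiv.Perm (TV b))) :=
    liftT_injective (Equiv.injective _)
  have hmp := box_mp_inj (Sym2.map (liftT (b := b) (τ ^ (i + r) : Equiv.Perm (TV b))))
    (Sym2.map.injective hinj) p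
  have h3 := hmp.measure_preimage (s := {ω | Conn ω (PBox τ r) x y})
    (measurableSet_conn _ _ _).nullMeasurableSet
  have hx : liftT (b := b) (τ ^ (i + r) : Equiv.Perm (TV b)) x =
      ((false, List.replicate (r + i) 0), h) := by
    refine Prod.ext ?_ rfl
    show (τ ^ (i + r)) (false, []) = _
    rw [tau_pow_false hτ, List.append_nil, Nat.add_comm]
  have hy : liftT (b := b) (τ ^ (i + r) : Equiv.Perm (TV b)) y =
      ((false, List.replicate (r + i + n) 0), h) := by
    refine Prod.ext ?_ rfl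
    show (τ ^ (i + r)) (false, List.replicate n 0) = _
    rw [tau_pow_false hτ, List.replicate_append_replicate, Nat.add_comm i r]
  have h4 : (fun ω : Sym2 (X b) → Bool =>
      ω ∘ Sym2.map (liftT (b := b) (τ ^ (i + r) : Equiv.Perm (TV b)))) ⁻¹'
        {ω | Conn ω (PBox τ r) x y} = {ω | Conn ω (Box b r i)
      ((false, List.replicate (r + i) 0), h) ((false, List.replicate (r + i + n) 0), h)} := by
    ext ω
    have h5 := conn_map (ω := ω) (S := PBox τ r) (x := x) (y := y)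
      (liftT (b := b) (τ ^ (i + r) : Equiv.Perm (TV b))) hinj
      (fun a _ c _ => adj_liftT (Equiv.injective _) (tau_pow_adj hτadj _) a c)
    rw [image_pbox hτ, hx, hy] at h5
    exact h5
  rw [h4] at h3
  rw [h3]
  exact h2

end Pool.Agent.Helper69.TL
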