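import Pool.Agent.Helper69.TL.T2
import Pool.Agent.Helper69.TL.BG
import Pool.Agent.Helper69.TL.Box

/-!
# Module Chain: chain of box connections and straight pieces
-/

open MeasureTheory Set

namespace Pool.Agent.Helper69.TL

namespace Ch

set_option linter.unusedSectionVars false

variable {b : ℕ} [NeZero b]

/-- the vertices on the axis at height `h` -/
def ax (b : ℕ) [NeZero b] (h : ℤ) (k : ℕ) : X b := ((false, List.replicate k 0), h)

theorem adj_ax (h : ℤ) (k : ℕ) : adj (ax b h k) (ax b h (k + 1)) :=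
  Or.inr ⟨rfl, Or.inl ⟨rfl, 0, List.replicate_succ'⟩⟩

theorem straight {ω : Sym2 (X b) → Bool} {S : Set (X b)} {h : ℤ} {k₁ : ℕ} : ∀ k₂ : ℕ, k₁ ≤ k₂ →
    (∀ k, k₁ ≤ k → k < k₂ → ω s(ax b h k, ax b h (k + 1)) = true) →
    (∀ k, k₁ ≤ k → k ≤ k₂ → ax b h k ∈ S) → Conn ω S (ax b h k₁) (ax b h k₂) := by
  intro k₂ h12
  induction k₂, h12 using Nat.le_induction with
  | base => intro _ _; exact Relation.ReflTransGen.refl
  | succ k hk ih =>
    intro h1 h2
    refine Relation.ReflTransGen.tail (ih (fun i hi hi' => h1 i hi (by omega))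
      (fun i hi hi' => h2 i hi (by omega))) ⟨adj_ax h k, h1 k hk (by omega), h2 k hk (by omega),
        h2 (k + 1) (by omega) le_rfl⟩

theorem finite_words (m : ℕ) : {l : List (Fin b) | l.length ≤ m}.Finite := by
  have h : {l : List (Fin b) | l.length ≤ m} = ⋃ k ∈ Set.Iic m, {l | l.length = k} := by
    ext l; simp
  rw [h]
  exact (Set.finite_Iic m).biUnion fun k _ => List.finite_length_eq (Fin b) k

theorem finite_box (r i : ℕ) : (Box b r i).Finite := by
  have h : Box b r i ⊆ (fun q : List (Fin b) × ℤ => (((false, List.replicate i 0 ++ q.1), q.2) : X b)) ''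
      ({l : List (Fin b) | l.length ≤ 2 * r} ×ˢ Set.Icc (-(r : ℤ)) r) := by
    rintro ⟨x, t⟩ ⟨l, h1, h2, h3, h4, h5⟩
    refine ⟨(l, t), ⟨h3, h4, h5⟩, ?_⟩
    simp only at h1 ⊢
    rw [h1]
  exact ((((finite_words (2 * r))).prod (Set.finite_Icc _ _)).image _).subset h

theorem finite_ES {S : Set (X b)} (hS : S.Finite) : (ES S).Finite := by
  have h : ES S ⊆ (fun q : X b × X b => s(q.1, q.2)) '' (S ×ˢ S) := by
    rintro e ⟨a, c, h1, h2, h3, h4⟩
    exact ⟨(a, c), ⟨h3, h4⟩, h1.symm⟩
  exact ((hS.prod hS).image _).subset h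

theorem box_subset {r n L i : ℕ} (hr : 0 < r) (hi : i < L) {m : ℕ} :
    Box b r (i * n) ⊆ Reg (L * n + 3 * r) (2 * r) m (v0 b) (-(r : ℤ)) := by
  rintro x ⟨l, h1, h2, h3, h4, h5⟩
  refine ⟨List.replicate (i * n) 0 ++ l, ?_, Or.inr (Or.inr ⟨?_, ?_, h4, ?_⟩)⟩
  · rw [h1]; rfl
  · simp; omega
  · have h6 : i * n ≤ L * n := Nat.mul_le_mul_right n hi.le
    simp only [List.length_append, List.length_replicate]
    omega
  · push_cast
    omega

theorem ax_mem {h : ℤ} {r N m : ℕ} (hh : |h| ≤ r) (hm : (m : ℤ) = h + r) {k : ℕ} (hk : k ≤ N) :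
    ax b h k ∈ Reg N (2 * r) m (v0 b) (-(r : ℤ)) := by
  refine ⟨List.replicate k 0, rfl, ?_⟩
  have h1 := abs_le.1 hh
  rcases Nat.eq_zero_or_pos k with rfl | hk0
  · left
    refine ⟨rfl, ?_⟩
    show h = _
    omega
  · rcases Nat.lt_or_eq_of_le hk with hk' | rfl
    · right; right
      refine ⟨by simpa using hk0, by simpa using hk', h1.1, ?_⟩
      show h ≤ _
      push_cast
      omega
    · right; left
      refine ⟨by simp, ?_⟩
      show h = _
      omega

theorem incr_iInter {ι : Type*} {L : ℕ} {E : ℕ → Set (ι → Bool)} (hE : ∀ n, Incr (E n)) :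
    Incr (⋂ n ∈ Finset.range L, E n) := by
  intro ω ω' h hω
  simp only [mem_iInter] at hω ⊢
  exact fun n hn => hE n ω ω' h (hω n hn)

end Ch

open Ch in
theorem chain_bound {b : ℕ} [NeZero b] {p : unitInterval} {h : ℤ} {n r : ℕ} {c : ENNReal}
    (hr : 0 < r) (hh : |h| ≤ r) (hn : 0 < n)
    (H : ∀ i : ℕ, c ≤ mu (Sym2 (X b)) p {ω | Conn ω (Box b r i)
      ((false, List.replicate (r + i) 0), h) ((false, List.replicate (r + i + n) 0), h)}) (L : ℕ) :
    ENNReal.ofReal p ^ (3 * r) * c ^ L ≤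
      mu (Sym2 (X b)) p {ω | List.replicate (L * n + 3 * r) 0 ∈
        Off (L * n + 3 * r) (2 * r) (h + r).toNat ω (v0 b) 0} := by
  classical
  set N := L * n + 3 * r with hN
  set m := (h + r).toNat with hm
  have hm' : (m : ℤ) = h + r := by
    have := (abs_le.1 hh).1
    omega
  -- the box events
  let E : ℕ → Set (Sym2 (X b) → Bool) := fun i => {ω | Conn ω (Box b r (i * n))
    ((false, List.replicate (r + i * n) 0), h) ((false, List.replicate (r + i * n + n) 0), h)}
  have hEm : ∀ i, MeasurableSet (E i) := fun i => measurableSet_conn _ _ _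
  have hEi : ∀ i, Incr (E i) := fun i => incr_conn _ _ _
  have hfin : ∀ i, (ES (Box b r (i * n))).Finite := fun i => finite_ES (finite_box _ _)
  have h1 : c ^ L ≤ mu (Sym2 (X b)) p (⋂ i ∈ Finset.range L, E i) := by
    refine harris_range L E (fun i => (hfin i).toFinset) hEm hEi ?_ p (fun i => H (i * n))
    intro i
    rw [Set.Finite.coe_toFinset]
    exact dep_conn _ _ _
  -- the straight edges
  let D : Finset (Sym2 (X b)) := (Finset.range r ∪ Finset.Ico (r + L * n) N).image
    fun k => s(ax b h k, ax b h (k + 1))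
  have hD : D.card ≤ 3 * r := by
    refine Finset.card_image_le.trans ((Finset.card_union_le _ _).trans ?_)
    rw [Finset.card_range, Nat.card_Ico]
    omega
  have hAm : MeasurableSet (⋂ i ∈ Finset.range L, E i) :=
    Finset.measurableSet_biInter _ fun i _ => hEm i
  have h2 := mu_force D hAm (incr_iInter hEi) p
  have hp : ENNReal.ofReal p ≤ 1 := by
    rw [← ENNReal.ofReal_one]
    exact ENNReal.ofReal_le_ofReal p.2.2
  have h3 : ENNReal.ofReal p ^ (3 * r) ≤ ENNReal.ofReal p ^ D.card := pow_le_pow_right_of_le_one' hp hD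
  -- inclusion
  have h4 : ((⋂ i ∈ Finset.range L, E i) ∩ {ω | ∀ i ∈ D, ω i = true}) ⊆
      {ω | List.replicate N 0 ∈ Off N (2 * r) m ω (v0 b) (-(r : ℤ))} := by
    rintro ω ⟨hω1, hω2⟩
    simp only [mem_iInter] at hω1
    refine ⟨by simp, ?_⟩
    have hopen : ∀ k, (k < r ∨ (r + L * n ≤ k ∧ k < N)) → ω s(ax b h k, ax b h (k + 1)) = true := by
      intro k hk
      apply hω2
      refine Finset.mem_image.2 ⟨k, ?_, rfl⟩
      rw [Finset.mem_union, Finset.mem_range, Finset.mem_Ico]
      exact hk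
    have hS : ∀ k, k ≤ N → ax b h k ∈ Reg N (2 * r) m (v0 b) (-(r : ℤ)) := fun k hk =>
      ax_mem hh hm' hk
    have c1 : Conn ω (Reg N (2 * r) m (v0 b) (-(r : ℤ))) (ax b h 0) (ax b h r) :=
      straight r (by omega) (fun k _ hk => hopen k (Or.inl hk)) (fun k _ hk => hS k (by omega))
    have c3 : Conn ω (Reg N (2 * r) m (v0 b) (-(r : ℤ))) (ax b h (r + L * n)) (ax b h N) :=
      straight N (by omega) (fun k hk hk' => hopen k (Or.inr ⟨hk, hk'⟩))
        (fun k _ hk => hS k hk)
    have c2 : ∀ i, i ≤ L → Conn ω (Reg N (2 * r) m (v0 b) (-(r : ℤ))) (ax b h r)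
        (ax b h (r + i * n)) := by
      intro i
      induction i with
      | zero =>
        intro _
        rw [Nat.zero_mul, Nat.add_zero]
        exact Relation.ReflTransGen.refl
      | succ i ih =>
        intro hi
        have h5 := (hω1 i (Finset.mem_range.2 (by omega)))
        have h6 : Conn ω (Reg N (2 * r) m (v0 b) (-(r : ℤ))) (ax b h (r + i * n))
            (ax b h (r + i * n + n)) := Conn.mono h5 (box_subset hr (by omega))
        have h7 : r + (i + 1) * n = r + i * n + n := by ring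
        rw [h7]
        exact Conn.trans (ih (by omega)) h6
    have h8 := Conn.trans c1 (Conn.trans (c2 L le_rfl) c3)
    have e1 : (v0 b, (-(r : ℤ)) + m) = ax b h 0 := by
      refine Prod.ext rfl ?_
      show (-(r : ℤ)) + m = h
      omega
    have e2 : (desc (v0 b) (List.replicate N 0), (-(r : ℤ)) + m) = ax b h N := by
      refine Prod.ext rfl ?_
      show (-(r : ℤ)) + m = h
      omega
    rw [e1, e2]
    exact h8
  have h5 : mu (Sym2 (X b)) p {ω | List.replicate N 0 ∈ Off N (2 * r) m ω (v0 b) 0} =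
      mu (Sym2 (X b)) p {ω | List.replicate N 0 ∈ Off N (2 * r) m ω (v0 b) (-(r : ℤ))} := by
    have hinj : Function.Injective (Sym2.map (emb (v0 b) (-(r : ℤ)))) :=
      Sym2.map.injective (emb_injective _ _)
    have h6 := (mp_inj (Sym2.map (emb (v0 b) (-(r : ℤ)))) hinj p).measure_preimage
      (measurableSet_off N (2 * r) m (v0 b) 0 (List.replicate N 0)).nullMeasurableSet
    rw [← h6]
    congr 1
    ext ω
    have h7 := off_emb N (2 * r) m ω (v0 b) (-(r : ℤ)) [] 0
    simp only [mem_preimage, mem_ofPred_eq]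
    have e1 : desc (v0 b) [] = v0 b := rfl
    rw [e1, add_zero] at h7
    show List.replicate N 0 ∈ Off N (2 * r) m (ω ∘ Sym2.map (emb (v0 b) (-(r : ℤ)))) (false, []) 0 ↔ _
    rw [h7]
  rw [h5]
  exact (mul_le_mul' h3 h1).trans (h2.trans (measure_mono h4))

end Pool.Agent.Helper69.TL
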