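import Pool.Agent.Helper69.TL.T1
import Pool.Agent.Helper69.TL.BG
import Pool.Agent.Helper69.TL.BE

open MeasureTheory Set

namespace Pool.Agent.Helper69.TL

section Columnaux
variable {b N M m : ℕ}

/-- the edges of the column at `u` with heights between `h₁` and `h₂` -/
noncomputable def ColFin (b : ℕ) (u : TV b) (h₁ h₂ : ℤ) : Finset (Sym2 (X b)) :=
  open Classical in (Finset.Ico h₁ h₂).image fun h => s((u, h), (u, h + 1))

theorem mem_colFin {u : TV b} {h₁ h₂ : ℤ} {e : Sym2 (X b)} :
    e ∈ ColFin b u h₁ h₂ ↔ ∃ h, h₁ ≤ h ∧ h < h₂ ∧ s((u, h), (u, h + 1)) = e := by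
  classical
  simp [ColFin, and_assoc]

theorem colFin_disj {u u' : TV b} (h : u ≠ u') (h₁ h₂ : ℤ) :
    Disjoint (↑(ColFin b u h₁ h₂) : Set (Sym2 (X b))) ↑(ColFin b u' h₁ h₂) := by
  rw [Set.disjoint_left]
  intro e he he'
  rw [Finset.mem_coe, mem_colFin] at he he'
  obtain ⟨a, -, -, rfl⟩ := he
  obtain ⟨a', -, -, h'⟩ := he'
  rw [Sym2.eq_iff] at h'
  rcases h' with ⟨h1, -⟩ | ⟨h1, -⟩ <;> exact h (congrArg Prod.fst h1).symm

theorem colFin_card (u : TV b) (h₁ h₂ : ℤ) :
    (ColFin b u h₁ h₂).card ≤ (Finset.Ico h₁ h₂).card := by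
  classical
  exact Finset.card_image_le

theorem measurableSet_meet_diag (v v' : TV b) (j j' : ℤ) :
    MeasurableSet {ω : Sym2 (X b) → Bool | Meet N M m ω v j ω v' j'} := by
  have : {ω : Sym2 (X b) → Bool | Meet N M m ω v j ω v' j'} =
      ⋂ l, ⋃ u : List (Fin b), {ω | u ∈ Gen N M m ω v j l} ∩ {ω | u ∈ Gen N M m ω v' j' l} := by
    ext ω; simp [Meet]
  rw [this]
  exact MeasurableSet.iInter fun l => MeasurableSet.iUnion fun u =>
    (measurableSet_gen N M m v j l u).inter (measurableSet_gen N M m v' j' l u)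

end Columnaux

theorem ae_column {b N M m : ℕ} {p : unitInterval} (hN : 0 < N) (hm : m ≤ M) (hp : 0 < (p : ℝ))
    (v : TV b) {j k : ℤ} (hjk : j + M < k) :
    ∀ᵐ ω ∂(mu (Sym2 (X b)) p), Meet N M m ω v j ω v k →
      Conn ω (RA (Ici j)) (v, j + m) (v, k + m) := by
  classical
  set Bad : Set (Sym2 (X b) → Bool) := {ω | Meet N M m ω v j ω v k} ∩
    {ω | Conn ω (RA (Ici j)) (v, j + m) (v, k + m)}ᶜ with hBad
  have hBadm : MeasurableSet Bad :=
    (measurableSet_meet_diag v v j k).inter (measurableSet_conn _ _ _).compl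
  have hM0 : (0 : ℤ) ≤ M := Nat.cast_nonneg M
  have hm0 : (0 : ℤ) ≤ m := Nat.cast_nonneg m
  have hjk' : j + m ≤ k + m := by omega
  suffices hz : mu (Sym2 (X b)) p Bad = 0 by
    have h1 : ∀ᵐ ω ∂(mu (Sym2 (X b)) p), ω ∉ Bad := measure_eq_zero_iff_ae_notMem.1 hz
    filter_upwards [h1] with ω hω hmeet
    by_contra hcon
    exact hω ⟨hmeet, hcon⟩
  rw [mu_eq_lintegral_mix (Col N v)ᶜ hBadm p]
  refine (lintegral_congr fun ω => ?_).trans lintegral_zero
  -- the two trees do not see the columns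
  have hgen : ∀ (i : ℤ) (ω' : Sym2 (X b) → Bool) (l : ℕ),
      Gen N M m (mix (Col N v)ᶜ ω ω') v i l = Gen N M m ω v i l := by
    intro i ω' l
    refine gen_congr (fun e he => ?_) l
    have : e ∉ Col N v := fun h => (Set.disjoint_left.1 (egen_disj_col hN v i) he h).elim
    simp [mix, this]
  by_cases hmeet : Meet N M m ω v j ω v k
  swap
  · have : {ω' | mix (Col N v)ᶜ ω ω' ∈ Bad} = ∅ := by
      ext ω'
      simp only [hBad, mem_inter_iff, mem_ofPred_eq, mem_empty_iff_false, iff_false, not_and]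
      intro h
      exact (hmeet (by simpa only [Meet, hgen] using h)).elim
    rw [this, measure_empty]
  · choose u hu1 hu2 using hmeet
    set D : ℕ → Finset (Sym2 (X b)) := fun l => ColFin b (desc v (u l)) (j + m) (k + m) with hD
    have hlen : ∀ l, (u l).length = N * l := fun l => gen_length (hu1 l)
    have hne : ∀ l l', l ≠ l' → desc v (u l) ≠ desc v (u l') := by
      intro l l' hne h
      have h1 : v.2 ++ u l = v.2 ++ u l' := congrArg Prod.snd h
      have h2 : u l = u l' := List.append_cancel_left h1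
      have h3 : N * l = N * l' := by rw [← hlen, ← hlen, h2]
      exact hne (Nat.eq_of_mul_eq_mul_left hN h3)
    have hE := ae_exists_of_indep (p := p) (E := fun l => {ω' | ∀ e ∈ D l, ω' e = true})
      (S := fun l => ↑(D l))
      (fun l => by
        have : {ω' : Sym2 (X b) → Bool | ∀ e ∈ D l, ω' e = true} =
            ⋂ e ∈ D l, {ω' | ω' e = true} := by ext; simp
        rw [this]
        refine Finset.measurableSet_biInter _ fun e _ => ?_
        have hs : MeasurableSet ((fun ω' : Sym2 (X b) → Bool => ω' e) ⁻¹' {true}) :=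
          (measurable_pi_apply e) (measurableSet_singleton true)
        exact hs)
      (fun l ω₁ ω₂ h => by
        simp only [mem_ofPred_eq]
        constructor
        · intro h1 e he; rw [← h e he]; exact h1 e he
        · intro h1 e he; rw [h e he]; exact h1 e he)
      (fun l l' hll => colFin_disj (hne l l' hll) _ _)
      (c := ENNReal.ofReal p ^ (Finset.Ico (j + m) (k + (m : ℤ))).card)
      (ENNReal.pow_pos (ENNReal.ofReal_pos.2 hp) _)
      (fun l => by
        rw [mu_open]
        exact pow_le_pow_right_of_le_one' (by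
          rw [← ENNReal.ofReal_one]; exact ENNReal.ofReal_le_ofReal p.2.2) (colFin_card _ _ _))
    rw [measure_eq_zero_iff_ae_notMem]
    filter_upwards [hE] with ω' hω' hbad
    obtain ⟨l, hl⟩ := hω'
    obtain ⟨-, hconn⟩ := hbad
    refine hconn ?_
    -- the connection
    have h1 : Conn (mix (Col N v)ᶜ ω ω') {x | j ≤ x.2 ∧ x.2 ≤ j + M} (v, j + m)
        (desc v (u l), j + m) := gen_conn (l := l) hm (by rw [hgen]; exact hu1 l)
    have h2 : Conn (mix (Col N v)ᶜ ω ω') {x | k ≤ x.2 ∧ x.2 ≤ k + M} (v, k + m)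
        (desc v (u l), k + m) := gen_conn (l := l) hm (by rw [hgen]; exact hu2 l)
    have h3 : Conn (mix (Col N v)ᶜ ω ω') {x | j + m ≤ x.2 ∧ x.2 ≤ k + m}
        (desc v (u l), j + m) (desc v (u l), k + m) := by
      refine conn_column _ hjk' fun h ha hb => ?_
      have hcol : s((desc v (u l), h), (desc v (u l), h + 1)) ∈ Col N v :=
        ⟨u l, h, ⟨l, hlen l⟩, rfl⟩
      have : mix (Col N v)ᶜ ω ω' s((desc v (u l), h), (desc v (u l), h + 1)) =
          ω' s((desc v (u l), h), (desc v (u l), h + 1)) := by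
        simp [mix, hcol]
      rw [this]
      exact hl _ (mem_colFin.2 ⟨h, ha, hb, rfl⟩)
    refine ((h1.mono fun x hx => ?_).trans (h3.mono fun x hx => ?_)).trans
      (h2.mono fun x hx => ?_).symm
    · exact hx.1
    · exact (show j ≤ x.2 by have := hx.1; omega)
    · exact (show j ≤ x.2 by have := hx.1; omega)

end Pool.Agent.Helper69.TL
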