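import Pool.Agent.Helper69.TL.Problem

/-!
# Definitions for MP_b6f052_pr (uniqueness threshold of tree times line)

`TV b` : the `(b+1)`-regular tree, as two rooted `b`-ary trees (`false` and `true`) whose roots are
joined by an edge; words are read from the root, the children of `(s,l)` are `(s, l ++ [i])`.
`X b = TV b × ℤ` : vertices of `T × ℤ`.
-/

open MeasureTheory Set

namespace Pool.Agent.Helper69.TL

/-! ## Measures -/

/-- product Bernoulli measure -/
noncomputable def mu (ι : Type*) (p : unitInterval) : Measure (ι → Bool) :=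
  Measure.infinitePi fun _ => edgeLaw p

instance (ι : Type*) (p : unitInterval) : IsProbabilityMeasure (mu ι p) := by
  unfold mu; infer_instance

/-- the event `A` depends only on the coordinates in `S` -/
def Dep {ι : Type*} (A : Set (ι → Bool)) (S : Set ι) : Prop :=
  ∀ ω ω' : ι → Bool, (∀ i ∈ S, ω i = ω' i) → (ω ∈ A ↔ ω' ∈ A)

/-- increasing event -/
def Incr {ι : Type*} (A : Set (ι → Bool)) : Prop :=
  ∀ ω ω' : ι → Bool, (∀ i, ω i = true → ω' i = true) → ω ∈ A → ω' ∈ A

open Classical in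
/-- `ω` on `S` and `ω'` off `S` -/
noncomputable def mix {ι : Type*} (S : Set ι) (ω ω' : ι → Bool) : ι → Bool :=
  fun i => if i ∈ S then ω i else ω' i

/-! ## The graph -/

/-- vertices of the tree -/
abbrev TV (b : ℕ) := Bool × List (Fin b)

/-- vertices of tree times `ℤ` -/
abbrev X (b : ℕ) := TV b × ℤ

variable {b : ℕ}

/-- adjacency in the tree -/
def tadj (u v : TV b) : Prop :=
  (u.1 = v.1 ∧ ∃ i, v.2 = u.2 ++ [i]) ∨ (u.1 = v.1 ∧ ∃ i, u.2 = v.2 ++ [i]) ∨
    (u.1 ≠ v.1 ∧ u.2 = [] ∧ v.2 = [])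

/-- the tree as a graph -/
def treeGraph (b : ℕ) : SimpleGraph (TV b) where
  Adj := tadj
  symm := ⟨by
    rintro u v (⟨h1, h2⟩ | ⟨h1, h2⟩ | ⟨h1, h2, h3⟩)
    · exact Or.inr (Or.inl ⟨h1.symm, h2⟩)
    · exact Or.inl ⟨h1.symm, h2⟩
    · exact Or.inr (Or.inr ⟨h1.symm, h3, h2⟩)⟩
  loopless := ⟨by
    rintro u (⟨_, i, h⟩ | ⟨_, i, h⟩ | ⟨h, _⟩)
    · simpa using congrArg List.length h
    · simpa using congrArg List.length h
    · exact h rfl⟩

/-- adjacency in tree times `ℤ` -/
def adj (x y : X b) : Prop :=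
  (x.1 = y.1 ∧ (y.2 = x.2 + 1 ∨ x.2 = y.2 + 1)) ∨ (x.2 = y.2 ∧ tadj x.1 y.1)

/-- `x` and `y` are joined by an open path all of whose edges have both ends in `S` -/
def Conn (ω : Sym2 (X b) → Bool) (S : Set (X b)) (x y : X b) : Prop :=
  Relation.ReflTransGen (fun a c => adj a c ∧ ω s(a, c) = true ∧ a ∈ S ∧ c ∈ S) x y

/-- edges inside `S` -/
def ES (S : Set (X b)) : Set (Sym2 (X b)) :=
  {e | ∃ a c, e = s(a, c) ∧ adj a c ∧ a ∈ S ∧ c ∈ S}

/-- tree times `A` -/
def RA (A : Set ℤ) : Set (X b) := {x | x.2 ∈ A}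

/-- the cluster of `x` in the region `S` -/
def Clus (ω : Sym2 (X b) → Bool) (S : Set (X b)) (x : X b) : Set (X b) := {y | Conn ω S x y}

/-- exactly one infinite cluster in tree times `A` -/
def Uniq (A : Set ℤ) (ω : Sym2 (X b) → Bool) : Prop :=
  (∃ x, (Clus ω (RA A) x).Infinite) ∧
    ∀ x y, (Clus ω (RA A) x).Infinite → (Clus ω (RA A) y).Infinite → Conn ω (RA A) x y

/-- descendant of `v` with relative word `w` -/
def desc (v : TV b) (w : List (Fin b)) : TV b := (v.1, v.2 ++ w)

/-- the root of the `false` side -/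
def v0 (b : ℕ) : TV b := (false, [])

/-! ## The embedded Galton–Watson trees

`N` = number of generations in a block, heights `j, …, j + M` = slab at `j`, base height `j + m`. -/

/-- region used for one block below `v` in the slab at `j`: the interior generations
`1, …, N - 1` at all heights of the slab, and the root and the leaves at the base height only -/
def Reg (N M m : ℕ) (v : TV b) (j : ℤ) : Set (X b) :=
  {x | ∃ w : List (Fin b), x.1 = desc v w ∧
    ((w = [] ∧ x.2 = j + m) ∨ (w.length = N ∧ x.2 = j + m) ∨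
      (0 < w.length ∧ w.length < N ∧ j ≤ x.2 ∧ x.2 ≤ j + M))}

/-- the words of length `N` whose vertex at base height is connected to the root inside `Reg` -/
def Off (N M m : ℕ) (ω : Sym2 (X b) → Bool) (v : TV b) (j : ℤ) : Set (List (Fin b)) :=
  {w | w.length = N ∧ Conn ω (Reg N M m v j) (v, j + m) (desc v w, j + m)}

/-- the `l`-th generation of the embedded Galton–Watson tree -/
def Gen (N M m : ℕ) (ω : Sym2 (X b) → Bool) : TV b → ℤ → ℕ → Set (List (Fin b))
  | _, _, 0 => {[]}
  | v, j, (l + 1) => {x | ∃ w ∈ Off N M m ω v j, ∃ u ∈ Gen N M m ω (desc v w) j l, x = w ++ u}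

/-- all coordinates that the embedded tree at `(v, j)` looks at -/
def EGen (N M m : ℕ) (v : TV b) (j : ℤ) : Set (Sym2 (X b)) :=
  {e | ∃ u : List (Fin b), N ∣ u.length ∧ e ∈ ES (Reg N M m (desc v u) j)}

/-- the column edges at the block vertices below `v` -/
def Col (N : ℕ) (v : TV b) : Set (Sym2 (X b)) :=
  {e | ∃ (u : List (Fin b)) (h : ℤ), N ∣ u.length ∧ e = s((desc v u, h), (desc v u, h + 1))}

/-- both trees at `(v, j)` in `ω` and `(v', j')` in `ω'` contain a common word in every generation -/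
def Meet (N M m : ℕ) (ω : Sym2 (X b) → Bool) (v : TV b) (j : ℤ) (ω' : Sym2 (X b) → Bool)
    (v' : TV b) (j' : ℤ) : Prop :=
  ∀ l, ∃ u, u ∈ Gen N M m ω v j l ∧ u ∈ Gen N M m ω' v' j' l

/-- probability that an independent embedded tree meets the tree of `ω` at `(v, j)` -/
noncomputable def surv (N M m : ℕ) (p : unitInterval) (v : TV b) (j : ℤ)
    (ω : Sym2 (X b) → Bool) : ENNReal :=
  mu (Sym2 (X b)) p {ω' | Meet N M m ω v j ω' (v0 b) 0}

/-- good start at `(v, j)` -/
def Good (N M m : ℕ) (p : unitInterval) (v : TV b) (j : ℤ) : Set (Sym2 (X b) → Bool) :=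
  {ω | 0 < surv N M m p v j ω}

/-- the finite-volume criterion for given `N M m` -/
structure FatAt (b N M m : ℕ) (p : unitInterval) : Prop where
  hN : 0 < N
  hm : m ≤ M
  hfat : 1 < ∑ w : Fin N → Fin b,
    ((mu (Sym2 (X b)) p).real {ω | List.ofFn w ∈ Off N M m ω (v0 b) 0}) ^ 2

/-- the finite-volume criterion -/
def Fat (b : ℕ) (p : unitInterval) : Prop := ∃ N M m, FatAt b N M m p

end Pool.Agent.Helper69.TL
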