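import Pool.Agent.Helper69.TL.T1
import Pool.Agent.Helper69.TL.BG
import Pool.Agent.Helper69.TL.BE

open MeasureTheory Set

namespace Pool.Agent.Helper69.TL

/-- common word in generation `l` -/
def RR {b : ℕ} (N M m : ℕ) (j k : ℤ) (l : ℕ) (v : TV b) : Set (Sym2 (X b) → Bool) :=
  {ω | ∃ u, u ∈ Gen N M m ω v j l ∧ u ∈ Gen N M m ω v k l}

/-- common word of the first generation -/
def AA {b : ℕ} (N M m : ℕ) (j k : ℤ) (v : TV b) (w : List (Fin b)) : Set (Sym2 (X b) → Bool) :=
  {ω | w ∈ Off N M m ω v j ∧ w ∈ Off N M m ω v k}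

section GWaux
variable {b N M m : ℕ} {j k : ℤ}

theorem rr_zero (v : TV b) : RR N M m j k 0 v = univ := by
  ext ω
  simp only [RR, mem_ofPred_eq, mem_univ, iff_true]
  exact ⟨[], by simp [Gen], by simp [Gen]⟩

theorem rr_succ (l : ℕ) (v : TV b) : RR N M m j k (l + 1) v =
    ⋃ w : Fin N → Fin b, AA N M m j k v (List.ofFn w) ∩ RR N M m j k l (desc v (List.ofFn w)) := by
  ext ω
  simp only [RR, AA, mem_ofPred_eq, mem_iUnion, mem_inter_iff, Gen]
  constructor
  · rintro ⟨x, ⟨w, hw, u, hu, rfl⟩, ⟨w', hw', u', hu', h⟩⟩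
    have hl : w.length = w'.length := hw.1.trans hw'.1.symm
    obtain ⟨rfl, rfl⟩ := List.append_inj h hl
    have hwN : w.length = N := hw.1
    subst hwN
    refine ⟨w.get, ?_, ?_⟩
    · rw [List.ofFn_get]; exact ⟨hw, hw'⟩
    · rw [List.ofFn_get]; exact ⟨u, hu, hu'⟩
  · rintro ⟨w, ⟨h1, h2⟩, u, h3, h4⟩
    exact ⟨List.ofFn w ++ u, ⟨_, h1, u, h3, rfl⟩, ⟨_, h2, u, h4, rfl⟩⟩

theorem rr_anti_succ (l : ℕ) (v : TV b) : RR N M m j k (l + 1) v ⊆ RR N M m j k l v := by
  induction l generalizing v with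
  | zero => rw [rr_zero]; exact subset_univ _
  | succ l ih =>
    rw [rr_succ, rr_succ]
    exact iUnion_mono fun w => inter_subset_inter_right _ (ih _)

theorem rr_antitone (v : TV b) : Antitone fun l => RR N M m j k l v :=
  antitone_nat_of_succ_le fun l => rr_anti_succ l v

theorem measurableSet_rr (l : ℕ) (v : TV b) : MeasurableSet (RR N M m j k l v) := by
  have : RR N M m j k l v = ⋃ u : List (Fin b), {ω | u ∈ Gen N M m ω v j l} ∩
      {ω | u ∈ Gen N M m ω v k l} := by
    ext ω; simp [RR]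
  rw [this]
  exact MeasurableSet.iUnion fun u => (measurableSet_gen N M m v j l u).inter
    (measurableSet_gen N M m v k l u)

theorem measurableSet_aa (v : TV b) (w : List (Fin b)) : MeasurableSet (AA N M m j k v w) :=
  (measurableSet_off N M m v j w).inter (measurableSet_off N M m v k w)

theorem dep_rr (l : ℕ) (v : TV b) :
    Dep (RR N M m j k l v) (EGen N M m v j ∪ EGen N M m v k) := by
  intro ω ω' h
  have h1 := gen_congr (ω := ω) (ω' := ω') (N := N) (M := M) (m := m) (v := v) (j := j)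
    (fun e he => h e (Or.inl he)) l
  have h2 := gen_congr (ω := ω) (ω' := ω') (N := N) (M := M) (m := m) (v := v) (j := k)
    (fun e he => h e (Or.inr he)) l
  simp only [RR, mem_ofPred_eq, h1, h2]

theorem dep_aa (v : TV b) (w : List (Fin b)) :
    Dep (AA N M m j k v w) (ES (Reg N M m v j) ∪ ES (Reg N M m v k)) := by
  intro ω ω' h
  have h1 := off_congr (ω := ω) (ω' := ω') (N := N) (M := M) (m := m) (v := v) (j := j)
    (fun e he => h e (Or.inl he))
  have h2 := off_congr (ω := ω) (ω' := ω') (N := N) (M := M) (m := m) (v := v) (j := k)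
    (fun e he => h e (Or.inr he))
  simp only [AA, mem_ofPred_eq, h1, h2]

theorem gw_desc_nil (v : TV b) : desc v [] = v := by
  simp [desc]

theorem mu_rr (p : unitInterval) (l : ℕ) (v : TV b) :
    mu (Sym2 (X b)) p (RR N M m j k l v) = mu (Sym2 (X b)) p (RR N M m j k l (v0 b)) := by
  have hmp := mp_inj (Sym2.map (emb v 0)) (Sym2.map.injective (emb_injective v 0)) p
  have hpre : (fun ω : Sym2 (X b) → Bool => ω ∘ Sym2.map (emb v 0)) ⁻¹' (RR N M m j k l (v0 b)) =
      RR N M m j k l v := by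
    ext ω
    simp only [RR, mem_preimage, mem_ofPred_eq, v0]
    rw [gen_emb, gen_emb, gw_desc_nil, zero_add, zero_add]
  rw [← hpre, hmp.measure_preimage (measurableSet_rr l _).nullMeasurableSet]

theorem mu_off (p : unitInterval) (v : TV b) (j : ℤ) (w : List (Fin b)) :
    mu (Sym2 (X b)) p {ω | w ∈ Off N M m ω v j} =
      mu (Sym2 (X b)) p {ω | w ∈ Off N M m ω (v0 b) 0} := by
  have hmp := mp_inj (Sym2.map (emb v j)) (Sym2.map.injective (emb_injective v j)) p
  have hpre : (fun ω : Sym2 (X b) → Bool => ω ∘ Sym2.map (emb v j)) ⁻¹'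
      {ω | w ∈ Off N M m ω (v0 b) 0} = {ω | w ∈ Off N M m ω v j} := by
    ext ω
    simp only [mem_preimage, mem_ofPred_eq, v0]
    rw [off_emb, gw_desc_nil, add_zero]
  rw [← hpre, hmp.measure_preimage (measurableSet_off N M m _ 0 w).nullMeasurableSet]

theorem mu_aa (hm : m ≤ M) (p : unitInterval) (hjk : j + M < k) (v : TV b) (w : List (Fin b)) :
    mu (Sym2 (X b)) p (AA N M m j k v w) =
      mu (Sym2 (X b)) p {ω | w ∈ Off N M m ω (v0 b) 0} ^ 2 := by
  have hd : Disjoint (ES (Reg N M m v j)) (ES (Reg N M m v k)) :=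
    (egen_disj_slab hm v v hjk).mono (ereg_subset_egen N M m v j) (ereg_subset_egen N M m v k)
  have h := indep (A := {ω | w ∈ Off N M m ω v j}) (B := {ω | w ∈ Off N M m ω v k})
    (measurableSet_off N M m v j w) (measurableSet_off N M m v k w)
    (S := ES (Reg N M m v j)) (T := ES (Reg N M m v k))
    (fun ω ω' h => by
      have := off_congr (ω := ω) (ω' := ω') (N := N) (M := M) (m := m) (v := v) (j := j) h
      simp only [mem_ofPred_eq, this])
    (fun ω ω' h => by
      have := off_congr (ω := ω) (ω' := ω') (N := N) (M := M) (m := m) (v := v) (j := k) h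
      simp only [mem_ofPred_eq, this]) hd p
  have h2 : AA N M m j k v w = {ω | w ∈ Off N M m ω v j} ∩ {ω | w ∈ Off N M m ω v k} := rfl
  rw [h2, h, mu_off, mu_off p v k, sq]

theorem mu_aa_rr (p : unitInterval) (l : ℕ) (v : TV b) {w : List (Fin b)}
    (hw : w.length = N) :
    mu (Sym2 (X b)) p (AA N M m j k v w ∩ RR N M m j k l (desc v w)) =
      mu (Sym2 (X b)) p (AA N M m j k v w) * mu (Sym2 (X b)) p (RR N M m j k l (v0 b)) := by
  rw [indep (measurableSet_aa v w) (measurableSet_rr l _) (dep_aa v w) (dep_rr l _) _ p, mu_rr]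
  rw [disjoint_union_left, disjoint_union_right, disjoint_union_right]
  exact ⟨⟨ereg_disj_egen v j j hw, ereg_disj_egen v j k hw⟩,
    ereg_disj_egen v k j hw, ereg_disj_egen v k k hw⟩

theorem mu_rr_rr (p : unitInterval) (l : ℕ) (v : TV b) {w w' : List (Fin b)}
    (hw : w.length = N) (hw' : w'.length = N) (hne : w ≠ w') :
    mu (Sym2 (X b)) p (RR N M m j k l (desc v w) ∩ RR N M m j k l (desc v w')) =
      mu (Sym2 (X b)) p (RR N M m j k l (v0 b)) ^ 2 := by
  rw [indep (measurableSet_rr l _) (measurableSet_rr l _) (dep_rr l _) (dep_rr l _) _ p, mu_rr,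
    mu_rr p l (desc v w'), sq]
  rw [disjoint_union_left, disjoint_union_right, disjoint_union_right]
  exact ⟨⟨egen_disj_egen v j j hw hw' hne, egen_disj_egen v j k hw hw' hne⟩,
    egen_disj_egen v k j hw hw' hne, egen_disj_egen v k k hw hw' hne⟩

/-- Bonferroni with a uniform bound of the intersections -/
theorem bonferroni {Ω κ : Type*} [MeasurableSpace Ω] (μ : Measure Ω) [IsProbabilityMeasure μ]
    (E : κ → Set Ω) (hE : ∀ i, MeasurableSet (E i)) {c : ℝ} (hc0 : 0 ≤ c) (s : Finset κ)
    (hc : ∀ i ∈ s, ∀ i' ∈ s, i ≠ i' → μ.real (E i ∩ E i') ≤ c) :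
    ∑ i ∈ s, μ.real (E i) - (s.card : ℝ) ^ 2 * c ≤ μ.real (⋃ i ∈ s, E i) := by
  classical
  induction s using Finset.induction_on with
  | empty => simp
  | insert a s ha ih =>
    have ih' := ih fun i hi i' hi' => hc i (Finset.mem_insert_of_mem hi) i'
      (Finset.mem_insert_of_mem hi')
    rw [Finset.sum_insert ha, Finset.card_insert_of_notMem ha, Finset.set_biUnion_insert]
    have hU : MeasurableSet (⋃ i ∈ s, E i) := Finset.measurableSet_biUnion s fun i _ => hE i
    have h1 := measureReal_union_add_inter (μ := μ) (s := E a) hU (h₁ := measure_ne_top _ _)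
      (h₂ := measure_ne_top _ _)
    have h2 : μ.real (E a ∩ ⋃ i ∈ s, E i) ≤ s.card * c := by
      rw [inter_iUnion₂]
      refine (measureReal_biUnion_finset_le s _).trans ?_
      rw [← nsmul_eq_mul]
      refine Finset.sum_le_card_nsmul _ _ _ fun i hi => ?_
      exact hc a (Finset.mem_insert_self _ _) i (Finset.mem_insert_of_mem hi)
        (fun h => ha (h ▸ hi))
    push_cast
    nlinarith [h1, h2, ih', mul_nonneg (Nat.cast_nonneg (α := ℝ) s.card) hc0]

/-- a decreasing sequence with a supercritical recursion stays away from zero -/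
theorem recursion_pos {x : ℕ → ℝ} (hx : Antitone x) (hpos : ∀ l, 0 < x l) {s K : ℝ} (hs : 1 < s)
    (hK : 0 < K) (hrec : ∀ l, s * x l - K * x l ^ 2 ≤ x (l + 1)) :
    ∃ ε, 0 < ε ∧ ∀ l, ε ≤ x l := by
  by_cases h : ∀ l, (s - 1) / K ≤ x l
  · exact ⟨(s - 1) / K, div_pos (by linarith) hK, h⟩
  · push Not at h
    obtain ⟨l0, hl0⟩ := h
    refine ⟨x l0, hpos l0, fun l => ?_⟩
    rcases le_total l l0 with h1 | h1
    · exact hx h1
    · obtain ⟨d, rfl⟩ := Nat.exists_eq_add_of_le h1
      clear h1
      induction d with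
      | zero => exact le_refl _
      | succ d ih =>
        refine ih.trans ?_
        have h2 : x (l0 + d) ≤ x l0 := hx (by omega)
        have h3 : K * x (l0 + d) ≤ s - 1 := by
          have : x (l0 + d) ≤ (s - 1) / K := h2.trans hl0.le
          rw [le_div_iff₀ hK] at this
          linarith
        have h4 := hrec (l0 + d)
        have h5 := hpos (l0 + d)
        have : x (l0 + d) ≤ s * x (l0 + d) - K * x (l0 + d) ^ 2 := by nlinarith
        exact this.trans h4

end GWaux

theorem meet_pos {b N M m : ℕ} {p : unitInterval} (H : FatAt b N M m p) (v : TV b) {j k : ℤ}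
    (hjk : j + M < k) :
    0 < mu (Sym2 (X b)) p {ω | Meet N M m ω v j ω v k} := by
  classical
  set μ := mu (Sym2 (X b)) p with hμ
  set x : ℕ → ℝ := fun l => μ.real (RR N M m j k l (v0 b)) with hxdef
  set q : (Fin N → Fin b) → ℝ := fun w =>
    μ.real {ω | List.ofFn w ∈ Off N M m ω (v0 b) 0} with hq
  have hfat : 1 < ∑ w : Fin N → Fin b, q w ^ 2 := H.hfat
  have hanti : Antitone x := fun a c h => measureReal_mono (rr_antitone _ h)
  have hlen : ∀ w : Fin N → Fin b, (List.ofFn w).length = N := fun w => List.length_ofFn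
  -- the events of the first step
  set E : ℕ → (Fin N → Fin b) → Set (Sym2 (X b) → Bool) := fun l w =>
    AA N M m j k (v0 b) (List.ofFn w) ∩ RR N M m j k l (desc (v0 b) (List.ofFn w)) with hEdef
  have hEmeas : ∀ l w, MeasurableSet (E l w) := fun l w =>
    (measurableSet_aa _ _).inter (measurableSet_rr _ _)
  have hEmu : ∀ l w, μ.real (E l w) = q w ^ 2 * x l := by
    intro l w
    have h1 := mu_aa_rr (M := M) (m := m) (j := j) (k := k) p l (v0 b) (hlen w)
    rw [mu_aa H.hm p hjk] at h1
    simp only [hEdef, Measure.real, hq, hxdef]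
    rw [← hμ] at h1
    rw [h1, ENNReal.toReal_mul, ENNReal.toReal_pow]
  have hEE : ∀ l w w', w ≠ w' → μ.real (E l w ∩ E l w') ≤ x l ^ 2 := by
    intro l w w' hne
    have h1 := mu_rr_rr (M := M) (m := m) (j := j) (k := k) p l (v0 b) (hlen w) (hlen w')
      (fun h => hne (List.ofFn_injective h))
    have h2 : μ.real (RR N M m j k l (desc (v0 b) (List.ofFn w)) ∩
        RR N M m j k l (desc (v0 b) (List.ofFn w'))) = x l ^ 2 := by
      simp only [Measure.real, hxdef]
      rw [hμ, h1, ENNReal.toReal_pow]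
    rw [← h2]
    exact measureReal_mono (inter_subset_inter inter_subset_right inter_subset_right)
  have hsucc : ∀ l, RR N M m j k (l + 1) (v0 b) = ⋃ w ∈ (Finset.univ : Finset (Fin N → Fin b)),
      E l w := by
    intro l; rw [rr_succ]; simp [hEdef]
  have hpos : ∀ l, 0 < x l := by
    intro l
    induction l with
    | zero => simp only [hxdef]; rw [rr_zero]; simp [μ]
    | succ l ih =>
      obtain ⟨w, hw⟩ : ∃ w, 0 < q w ^ 2 := by
        by_contra hcon
        push Not at hcon
        have := Finset.sum_nonpos (s := (Finset.univ : Finset (Fin N → Fin b)))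
          (fun w _ => hcon w)
        linarith
      have h1 : 0 < μ.real (E l w) := by rw [hEmu]; exact mul_pos hw ih
      refine h1.trans_le (measureReal_mono ?_)
      rw [hsucc]
      exact subset_biUnion_of_mem (u := fun w => E l w) (Finset.mem_univ w)
  have hcardpos : 0 < (Fintype.card (Fin N → Fin b) : ℝ) := by
    by_contra hcon
    have h0 : Fintype.card (Fin N → Fin b) = 0 := by
      have : (Fintype.card (Fin N → Fin b) : ℝ) ≤ 0 := not_lt.1 hcon
      exact_mod_cast le_antisymm this (Nat.cast_nonneg _)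
    have : IsEmpty (Fin N → Fin b) := Fintype.card_eq_zero_iff.1 h0
    rw [Finset.univ_eq_empty, Finset.sum_empty] at hfat
    linarith
  have hrec : ∀ l, (∑ w : Fin N → Fin b, q w ^ 2) * x l -
      (Fintype.card (Fin N → Fin b) : ℝ) ^ 2 * x l ^ 2 ≤ x (l + 1) := by
    intro l
    have h1 := bonferroni μ (E l) (hEmeas l) (sq_nonneg (x l)) Finset.univ
      (fun w _ w' _ hne => hEE l w w' hne)
    simp only [hEmu] at h1
    rw [← Finset.sum_mul, ← hsucc, Finset.card_univ] at h1
    exact h1
  obtain ⟨ε, hε, hle⟩ := recursion_pos hanti hpos hfat (pow_pos hcardpos 2) hrec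
  -- the intersection
  have hMeet : {ω | Meet N M m ω v j ω v k} = ⋂ l, RR N M m j k l v := by
    ext ω; simp [Meet, RR]
  rw [hMeet]
  have htend := tendsto_measure_iInter_atTop (μ := μ) (s := fun l => RR N M m j k l v)
    (fun l => (measurableSet_rr l v).nullMeasurableSet) (rr_antitone v)
    ⟨0, measure_ne_top _ _⟩
  have hge : ∀ l, ENNReal.ofReal ε ≤ μ (RR N M m j k l v) := by
    intro l
    rw [hμ, mu_rr, ← hμ]
    exact ENNReal.ofReal_le_of_le_toReal (hle l)
  have : ENNReal.ofReal ε ≤ μ (⋂ l, RR N M m j k l v) :=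
    ge_of_tendsto' htend hge
  exact (ENNReal.ofReal_pos.2 hε).trans_le this

end Pool.Agent.Helper69.TL
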