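import Pool.Agent.Helper69.TL.T1
import Pool.Agent.Helper69.TL.BG
import Pool.Agent.Helper69.TL.BE
import Pool.Agent.Helper69.TL.GW

/-!
# MP_b6f052_pr, module Surv: the function `surv`
-/

open MeasureTheory Set

namespace Pool.Agent.Helper69.TL

section Surv
variable {b N M m : ℕ} {p : unitInterval}

theorem measurableSet_meet (v v' : TV b) (j j' : ℤ) :
    MeasurableSet {z : (Sym2 (X b) → Bool) × (Sym2 (X b) → Bool) |
      Meet N M m z.1 v j z.2 v' j'} := by
  have h1 : {z : (Sym2 (X b) → Bool) × (Sym2 (X b) → Bool) | Meet N M m z.1 v j z.2 v' j'} =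
      ⋂ l : ℕ, ⋃ u : List (Fin b), (Prod.fst ⁻¹' {ω | u ∈ Gen N M m ω v j l}) ∩
        (Prod.snd ⁻¹' {ω | u ∈ Gen N M m ω v' j' l}) := by
    ext z
    simp only [Meet, mem_iInter, mem_iUnion, mem_inter_iff, mem_preimage, mem_ofPred_eq]
  rw [h1]
  exact MeasurableSet.iInter fun l => MeasurableSet.iUnion fun u =>
    ((measurableSet_gen N M m v j l u).preimage measurable_fst).inter
      ((measurableSet_gen N M m v' j' l u).preimage measurable_snd)

theorem measurable_surv (v : TV b) (j : ℤ) : Measurable (surv N M m p v j) :=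
  measurable_measure_prodMk_left (measurableSet_meet (N := N) (M := M) (m := m) v (v0 b) j 0)

theorem surv_congr {v : TV b} {j : ℤ} {ω ω' : Sym2 (X b) → Bool}
    (h : ∀ e ∈ EGen N M m v j, ω e = ω' e) : surv N M m p v j ω = surv N M m p v j ω' := by
  unfold surv Meet
  simp only [gen_congr h]

theorem surv_gen_shift (N M m : ℕ) (v : TV b) (j : ℤ) (ω : Sym2 (X b) → Bool) (l : ℕ) :
    Gen N M m (ω ∘ Sym2.map (emb v j)) (v0 b) 0 l = Gen N M m ω v j l := by
  have h := gen_emb N M m ω v j l [] 0
  rw [bg_desc_nil, add_zero] at h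
  exact h

/-- the second tree may be placed anywhere -/
theorem surv_eq (v v' : TV b) (j k : ℤ) (ω : Sym2 (X b) → Bool) :
    mu (Sym2 (X b)) p {ω' | Meet N M m ω v j ω' v' k} = surv N M m p v j ω := by
  have h1 : MeasurableSet {ω' | Meet N M m ω v j ω' (v0 b) 0} :=
    (measurableSet_meet (N := N) (M := M) (m := m) v (v0 b) j 0).preimage measurable_prodMk_left
  have h2 := (mp_inj (Sym2.map (emb v' k)) (Sym2.map.injective (emb_injective v' k)) p)
  unfold surv
  rw [← h2.measure_preimage h1.nullMeasurableSet]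
  congr 1
  ext ω'
  simp only [mem_preimage, mem_ofPred_eq, Meet, surv_gen_shift]

theorem good_measurable (v : TV b) (j : ℤ) : MeasurableSet (Good (b := b) N M m p v j) :=
  measurableSet_lt measurable_const (measurable_surv v j)

theorem good_dep (v : TV b) (j : ℤ) : Dep (Good (b := b) N M m p v j) (EGen N M m v j) := by
  intro ω ω' h
  simp only [Good, mem_ofPred_eq, surv_congr h]

/-- `μ (Good v j) = μ (Good v0 0)` -/
theorem mu_good (v : TV b) (j : ℤ) :
    mu (Sym2 (X b)) p (Good N M m p v j) = mu (Sym2 (X b)) p (Good N M m p (v0 b) 0) := by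
  have h2 := (mp_inj (Sym2.map (emb v j)) (Sym2.map.injective (emb_injective v j)) p)
  rw [← h2.measure_preimage (good_measurable (v0 b) 0).nullMeasurableSet]
  congr 1
  ext ω
  simp only [mem_preimage, Good, mem_ofPred_eq, surv, Meet, surv_gen_shift]

theorem good_pos (H : FatAt b N M m p) :
    0 < mu (Sym2 (X b)) p (Good N M m p (v0 b) 0) := by
  classical
  set k : ℤ := M + 1 with hk
  have hjk : (0 : ℤ) + M < k := by omega
  have h1 := meet_pos H (v0 b) hjk
  have hA : MeasurableSet {ω : Sym2 (X b) → Bool | Meet N M m ω (v0 b) 0 ω (v0 b) k} :=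
    (measurableSet_meet (N := N) (M := M) (m := m) (v0 b) (v0 b) 0 k).preimage
      (measurable_id.prodMk measurable_id)
  rw [mu_eq_lintegral_mix (EGen N M m (v0 b) 0) hA p] at h1
  have hdisj := egen_disj_slab (N := N) H.hm (v0 b) (v0 b) hjk
  have h2 : ∀ ω : Sym2 (X b) → Bool, mu (Sym2 (X b)) p
      {ω' | mix (EGen N M m (v0 b) 0) ω ω' ∈
        {ω : Sym2 (X b) → Bool | Meet N M m ω (v0 b) 0 ω (v0 b) k}} =
      surv N M m p (v0 b) 0 ω := by
    intro ω
    rw [← surv_eq (v0 b) (v0 b) 0 k ω]
    congr 1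
    ext ω'
    have h3 : ∀ l, Gen N M m (mix (EGen N M m (v0 b) 0) ω ω') (v0 b) 0 l =
        Gen N M m ω (v0 b) 0 l := fun l => gen_congr (fun e he => by simp [mix, he]) l
    have h4 : ∀ l, Gen N M m (mix (EGen N M m (v0 b) 0) ω ω') (v0 b) k l =
        Gen N M m ω' (v0 b) k l := fun l => gen_congr (fun e he => by
          have : e ∉ EGen N M m (v0 b) 0 := fun he' => Set.disjoint_left.1 hdisj he' he
          simp [mix, this]) l
    simp only [mem_ofPred_eq, Meet, h3, h4]
  simp only [h2] at h1
  have h3 := (lintegral_pos_iff_support (measurable_surv (N := N) (M := M) (m := m) (p := p)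
    (v0 b) 0)).1 h1
  refine h3.trans_le (measure_mono ?_)
  intro ω hω
  exact pos_iff_ne_zero.2 hω

theorem p_pos (H : FatAt b N M m p) : 0 < (p : ℝ) := by
  by_contra hcon
  have hp : (p : ℝ) = 0 := le_antisymm (not_lt.1 hcon) p.2.1
  have hcl : ∀ e : Sym2 (X b), mu (Sym2 (X b)) p {ω | ω e = true} = 0 := by
    intro e
    have h := mu_open ({e} : Finset (Sym2 (X b))) p
    simpa [hp] using h
  have hall : mu (Sym2 (X b)) p {ω | ∃ e, ω e = true} = 0 := by
    have : {ω : Sym2 (X b) → Bool | ∃ e, ω e = true} = ⋃ e, {ω | ω e = true} := by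
      ext ω; simp
    rw [this]
    exact measure_iUnion_null hcl
  have hzero : ∀ w : Fin N → Fin b,
      (mu (Sym2 (X b)) p).real {ω | List.ofFn w ∈ Off N M m ω (v0 b) 0} = 0 := by
    intro w
    rw [measureReal_def, ENNReal.toReal_eq_zero_iff]
    left
    refine measure_mono_null ?_ hall
    rintro ω ⟨hlen, hc⟩
    rcases Relation.ReflTransGen.cases_head hc with h | ⟨c, ⟨-, hc, -, -⟩, -⟩
    · exfalso
      have h1 := congrArg (fun x : X b => x.1.2.length) h
      simp [desc, v0] at h1
      exact H.hN.ne h1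
    · exact ⟨_, hc⟩
  have h := H.hfat
  simp only [hzero] at h
  norm_num at h

/-- a good start has an infinite cluster -/
theorem good_infinite (H : FatAt b N M m p) {v : TV b} {j : ℤ} {ω : Sym2 (X b) → Bool}
    (h : ω ∈ Good N M m p v j) :
    (Clus ω {x | j ≤ x.2 ∧ x.2 ≤ j + M} (v, j + m)).Infinite := by
  have h1 : (0 : ENNReal) < surv N M m p v j ω := h
  have h2 : ∃ ω', Meet N M m ω v j ω' (v0 b) 0 := by
    by_contra hcon
    push Not at hcon
    have : {ω' | Meet N M m ω v j ω' (v0 b) 0} = ∅ := by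
      ext ω'
      simp [hcon ω']
    rw [surv, this, measure_empty] at h1
    exact lt_irrefl _ h1
  obtain ⟨ω', h3⟩ := h2
  choose u hu hu' using h3
  refine Set.infinite_of_injective_forall_mem (f := fun l : ℕ => ((desc v (u l), j + m) : X b))
    ?_ (fun l => gen_conn H.hm (hu l))
  intro l l' hll
  have h4 : desc v (u l) = desc v (u l') := congrArg Prod.fst hll
  have h5 : (v.2 ++ u l).length = (v.2 ++ u l').length := by
    have := congrArg Prod.snd h4
    simp only [desc] at this
    rw [this]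
  rw [List.length_append, List.length_append, gen_length (hu l), gen_length (hu l')] at h5
  exact Nat.eq_of_mul_eq_mul_left H.hN (by omega)

end Surv

end Pool.Agent.Helper69.TL
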