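import Pool.Agent.Helper69.TL.T1
import Pool.Agent.Helper69.TL.BE
import Pool.Agent.Helper69.TL.Surv

open MeasureTheory Set

namespace Pool.Agent.Helper69.TL

theorem ae_exists_good {b N M m : ℕ} {p : unitInterval} (H : FatAt b N M m p) {A : Set ℤ}
    (hA : IsUpperSet A) (h0 : (0 : ℤ) ∈ A) :
    ∀ᵐ ω ∂(mu (Sym2 (X b)) p), ∃ j ∈ A, ω ∈ Good N M m p (v0 b) j := by
  have key : ∀ i i' : ℕ, i < i' → Disjoint (EGen N M m (v0 b) ((i : ℤ) * (M + 1)))
      (EGen N M m (v0 b) ((i' : ℤ) * (M + 1))) := by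
    intro i i' h
    refine egen_disj_slab H.hm _ _ ?_
    have : (i : ℤ) + 1 ≤ i' := by exact_mod_cast h
    nlinarith [(Nat.cast_nonneg M : (0 : ℤ) ≤ M)]
  have h := ae_exists_of_indep (p := p)
    (E := fun i : ℕ => Good (b := b) N M m p (v0 b) ((i : ℤ) * (M + 1)))
    (S := fun i : ℕ => EGen (b := b) N M m (v0 b) ((i : ℤ) * (M + 1)))
    (fun i => good_measurable _ _) (fun i => good_dep _ _)
    (fun i i' hne => by
      rcases lt_or_gt_of_ne hne with h | h
      · exact key i i' h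
      · exact (key i' i h).symm)
    (good_pos H) (fun i => (mu_good _ _).ge)
  filter_upwards [h] with ω hω
  obtain ⟨i, hi⟩ := hω
  exact ⟨_, hA (by positivity) h0, hi⟩

end Pool.Agent.Helper69.TL
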