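import Pool.Agent.Helper69.TL.Defs

/-! # T3: a zero-one lemma (Lévy's zero-one law in elementary form) -/

open MeasureTheory Set

namespace Pool.Agent.Helper69.TL

/-- If every cylinder event `C` satisfies `μ (C \ B) ≥ δ μ C`, then `μ B = 0`. -/
theorem zero_of_levy {ι : Type*} {p : unitInterval} {B : Set (ι → Bool)} (hB : MeasurableSet B)
    {δ : ENNReal} (hδ : 0 < δ)
    (h : ∀ (J : Finset ι) (C : Set (ι → Bool)), MeasurableSet C → Dep C ↑J →
      δ * mu ι p C ≤ mu ι p (C \ B)) : mu ι p B = 0 := by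
  -- the cylinders form an algebra which generates the product `σ`-algebra
  have halg : IsSetAlgebra (measurableCylinders (fun _ : ι => Bool)) :=
    ⟨empty_mem_measurableCylinders _, fun s hs => compl_mem_measurableCylinders hs,
      fun s t hs ht => union_mem_measurableCylinders hs ht⟩
  have hdense : (mu ι p).MeasureDense (measurableCylinders (fun _ : ι => Bool)) :=
    Measure.MeasureDense.of_generateFrom_isSetAlgebra_finite _ halg
      generateFrom_measurableCylinders.symm
  -- key estimate
  have key : ∀ ε : ℝ, 0 < ε → δ * (mu ι p B - ENNReal.ofReal ε) ≤ ENNReal.ofReal ε := by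
    intro ε hε
    obtain ⟨C, hC, hBC⟩ := hdense.approx B hB (measure_ne_top _ _) ε hε
    have hCm : MeasurableSet C := MeasurableSet.of_mem_measurableCylinders hC
    obtain ⟨J, S, hS, rfl⟩ := (mem_measurableCylinders _).1 hC
    have hdep : Dep (cylinder J S) (J : Set ι) := by
      intro ω ω' hω
      simp only [mem_cylinder]
      have : J.restrict ω = J.restrict ω' := by
        funext i
        exact hω i.1 i.2
      rw [this]
    have h1 := h J _ hCm hdep
    have h2 : mu ι p (cylinder J S \ B) ≤ ENNReal.ofReal ε :=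
      (measure_mono (by
        intro x hx
        exact Or.inr hx)).trans hBC.le
    have h3 : mu ι p B ≤ mu ι p (cylinder J S) + ENNReal.ofReal ε := by
      have : B ⊆ cylinder J S ∪ symmDiff B (cylinder J S) := by
        intro x hx
        by_cases hxC : x ∈ cylinder J S
        · exact Or.inl hxC
        · exact Or.inr (Or.inl ⟨hx, hxC⟩)
      exact (measure_mono this).trans ((measure_union_le _ _).trans (by gcongr))
    have h4 : mu ι p B - ENNReal.ofReal ε ≤ mu ι p (cylinder J S) :=
      tsub_le_iff_right.2 h3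
    calc δ * (mu ι p B - ENNReal.ofReal ε) ≤ δ * mu ι p (cylinder J S) := by gcongr
      _ ≤ _ := h1
      _ ≤ _ := h2
  by_contra hne
  have hpos : 0 < mu ι p B := pos_iff_ne_zero.2 hne
  -- work with reals
  have hδ' : ∃ d : ℝ, 0 < d ∧ ENNReal.ofReal d ≤ δ := by
    rcases eq_or_ne δ ⊤ with h | h
    · exact ⟨1, one_pos, by simp [h]⟩
    · exact ⟨δ.toReal, ENNReal.toReal_pos hδ.ne' h, by rw [ENNReal.ofReal_toReal h]⟩
  obtain ⟨d, hd, hdδ⟩ := hδ'
  set β : ℝ := (mu ι p B).toReal with hβ
  have hβpos : 0 < β := ENNReal.toReal_pos hne (measure_ne_top _ _)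
  have hBβ : mu ι p B = ENNReal.ofReal β := by
    rw [hβ, ENNReal.ofReal_toReal (measure_ne_top _ _)]
  -- choose `ε`
  set ε : ℝ := d * β / (2 * (d + 1)) with hεdef
  have hε : 0 < ε := by positivity
  have h1 := key ε hε
  rw [hBβ, ← ENNReal.ofReal_sub _ hε.le] at h1
  have h2 : ENNReal.ofReal d * ENNReal.ofReal (β - ε) ≤ ENNReal.ofReal ε :=
    (mul_le_mul_left hdδ _).trans h1
  rw [← ENNReal.ofReal_mul hd.le] at h2
  have h3 := (ENNReal.ofReal_le_ofReal_iff hε.le).1 h2
  -- `d (β - ε) ≤ ε` i.e. `d β ≤ (d+1) ε = d β / 2`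
  have h4 : (d + 1) * ε = d * β / 2 := by
    rw [hεdef]; field_simp
  nlinarith [mul_pos hd hβpos]

end Pool.Agent.Helper69.TL
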