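import Pool.Agent.Helper69.TL.T1
import Pool.Agent.Helper69.TL.T3
import Pool.Agent.Helper69.TL.BE
import Pool.Agent.Helper69.TL.Surv

open MeasureTheory Set

namespace Pool.Agent.Helper69.TL

namespace Hit

variable {b : ℕ}

/-- the boxes -/
def Kn (b n : ℕ) : Set (X b) := {x | x.2 ≤ n ∧ (x.1.2.length : ℤ) ≤ x.2 + n}

theorem kn_finite (n : ℕ) : (Kn b n).Finite := by
  have h1 : Set.Finite {l : List (Fin b) | l.length ≤ 2 * n} := List.finite_length_le _ _
  have h2 : Set.Finite (((Set.univ : Set Bool) ×ˢ {l : List (Fin b) | l.length ≤ 2 * n}) ×ˢ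
      Set.Icc (-(n:ℤ)) n : Set ((Bool × List (Fin b)) × ℤ)) :=
    (Set.finite_univ.prod h1).prod (Set.finite_Icc _ _)
  refine h2.subset ?_
  rintro ⟨⟨s, l⟩, j⟩ ⟨h, h'⟩
  simp only [mem_prod, mem_univ, mem_setOf_eq, mem_Icc, true_and] at h h' ⊢
  omega

/-- the edges inside a box -/
def In (b n : ℕ) : Set (Sym2 (X b)) := {e | ∀ y ∈ e, y ∈ Kn b n}

theorem kn_large (y : X b) : ∃ n0, ∀ n ≥ n0, y ∈ Kn b n := by
  refine ⟨y.2.natAbs + y.1.2.length, fun n hn => ?_⟩
  simp only [Kn, mem_setOf_eq]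
  omega

theorem in_large (J : Finset (Sym2 (X b))) : ∃ n0, ∀ n ≥ n0, ∀ e ∈ J, e ∈ In b n := by
  classical
  induction J using Finset.induction_on with
  | empty => exact ⟨0, by simp⟩
  | insert e J _ ih =>
    obtain ⟨n1, h1⟩ := ih
    induction e with
    | _ a c =>
      obtain ⟨n2, h2⟩ := kn_large a
      obtain ⟨n3, h3⟩ := kn_large c
      refine ⟨n1 + n2 + n3, fun n hn e he => ?_⟩
      rcases Finset.mem_insert.1 he with he | he
      · subst he
        intro y hy
        rcases Sym2.mem_iff.1 hy with rfl | rfl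
        · exact h2 n (by omega)
        · exact h3 n (by omega)
      · exact h1 n (by omega) e he

theorem es_subset_in (n : ℕ) (S : Set (X b)) (hS : S ⊆ Kn b n) : ES S ⊆ In b n := by
  rintro e ⟨a, c, rfl, _, ha, hc⟩ y hy
  rcases Sym2.mem_iff.1 hy with rfl | rfl
  · exact hS ha
  · exact hS hc

/-- boundary vertices -/
def Bd (b n : ℕ) : Set (X b) := {z | z ∈ Kn b n ∧ (z.2 = n ∨ (z.1.2.length : ℤ) = z.2 + n)}

theorem bd_of_adj {n : ℕ} {z y : X b} (hz : z ∈ Kn b n) (hy : y ∉ Kn b n) (h : adj z y) :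
    z ∈ Bd b n := by
  refine ⟨hz, ?_⟩
  simp only [Kn, mem_setOf_eq] at hz hy
  rcases h with ⟨h1, h2⟩ | ⟨h1, h2⟩
  · rw [← h1] at hy
    omega
  · have hlen : y.1.2.length ≤ z.1.2.length + 1 := by
      rcases h2 with ⟨_, i, h2⟩ | ⟨_, i, h2⟩ | ⟨_, h2, h3⟩
      · rw [h2]; simp
      · rw [h2]; simp; omega
      · rw [h2, h3]; simp
    rw [← h1] at hy
    omega

theorem exit_conn {ω : Sym2 (X b) → Bool} {S K : Set (X b)} {x y : X b} (h : Conn ω S x y)
    (hx : x ∈ K) (hy : y ∉ K) : ∃ z z', z ∈ K ∧ z ∈ S ∧ Conn ω (K ∩ S) x z ∧ adj z z' ∧ z' ∉ K := by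
  have key : (Conn ω (K ∩ S) x y ∧ y ∈ K) ∨
      ∃ z z', z ∈ K ∧ z ∈ S ∧ Conn ω (K ∩ S) x z ∧ adj z z' ∧ z' ∉ K := by
    clear hy
    induction h with
    | refl => exact Or.inl ⟨Relation.ReflTransGen.refl, hx⟩
    | tail _ hs ih =>
      rename_i a c _
      rcases ih with ⟨h1, h2⟩ | h1
      · by_cases hc : c ∈ K
        · left
          exact ⟨Relation.ReflTransGen.tail h1 ⟨hs.1, hs.2.1, ⟨h2, hs.2.2.1⟩, ⟨hc, hs.2.2.2⟩⟩, hc⟩
        · right
          exact ⟨a, c, h2, hs.2.2.1, h1, hs.1, hc⟩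
      · exact Or.inr h1
  rcases key with h1 | h1
  · exact absurd h1.2 hy
  · exact h1

theorem sum_trials {ι I : Type*} {p : unitInterval} (S : Set ι) (F : Finset I)
    (Hz Tz : I → Set (ι → Bool)) (δ : ENNReal)
    (hH : ∀ z ∈ F, MeasurableSet (Hz z)) (dH : ∀ z ∈ F, Dep (Hz z) S)
    (hT : ∀ z ∈ F, MeasurableSet (Tz z)) (S' : I → Set ι)
    (dT : ∀ z ∈ F, Dep (Tz z) (S' z)) (hd : ∀ z ∈ F, Disjoint S (S' z))
    (hδ : ∀ z ∈ F, δ ≤ mu ι p (Tz z)) :
    ∀ C : Set (ι → Bool), MeasurableSet C → Dep C S →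
      δ * mu ι p (C ∩ ⋃ z ∈ F, Hz z) ≤ mu ι p (C ∩ ⋃ z ∈ F, (Hz z ∩ Tz z)) := by
  classical
  induction F using Finset.induction_on with
  | empty => intro C _ _; simp
  | insert z F _ ih =>
    intro C hC dC
    have hz : z ∈ insert z F := Finset.mem_insert_self _ _
    have ih' := ih (fun z hz => hH z (Finset.mem_insert_of_mem hz))
      (fun z hz => dH z (Finset.mem_insert_of_mem hz))
      (fun z hz => hT z (Finset.mem_insert_of_mem hz))
      (fun z hz => dT z (Finset.mem_insert_of_mem hz))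
      (fun z hz => hd z (Finset.mem_insert_of_mem hz))
      (fun z hz => hδ z (Finset.mem_insert_of_mem hz))
      (C \ Hz z) (hC.diff (hH z hz)) (by
        intro ω ω' h
        rw [mem_diff, mem_diff, dC ω ω' h, dH z hz ω ω' h])
    have h1 : δ * mu ι p (C ∩ Hz z) ≤ mu ι p ((C ∩ Hz z) ∩ Tz z) := by
      rw [indep (hC.inter (hH z hz)) (hT z hz) (S := S) (T := S' z) (by
        intro ω ω' h
        rw [mem_inter_iff, mem_inter_iff, dC ω ω' h, dH z hz ω ω' h]) (dT z hz) (hd z hz) p,
        mul_comm]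
      exact mul_le_mul_right (hδ z hz) _
    have h2 : mu ι p (C ∩ ⋃ y ∈ insert z F, Hz y) ≤
        mu ι p (C ∩ Hz z) + mu ι p ((C \ Hz z) ∩ ⋃ y ∈ F, Hz y) := by
      refine le_trans (measure_mono ?_) (measure_union_le _ _)
      rintro ω ⟨hω, hω'⟩
      simp only [Finset.mem_insert, mem_iUnion, exists_prop] at hω'
      obtain ⟨y, hy, hyω⟩ := hω'
      by_cases hωz : ω ∈ Hz z
      · exact Or.inl ⟨hω, hωz⟩
      · right
        refine ⟨⟨hω, hωz⟩, ?_⟩
        rcases hy with rfl | hy
        · exact absurd hyω hωz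
        · simp only [mem_iUnion, exists_prop]
          exact ⟨y, hy, hyω⟩
    have h3 : mu ι p ((C ∩ Hz z) ∩ Tz z) + mu ι p ((C \ Hz z) ∩ ⋃ y ∈ F, (Hz y ∩ Tz y)) ≤
        mu ι p (C ∩ ⋃ y ∈ insert z F, (Hz y ∩ Tz y)) := by
      rw [← measure_union]
      · apply measure_mono
        rintro ω (⟨⟨h1, h2⟩, h3⟩ | ⟨⟨h1, h2⟩, h3⟩)
        · refine ⟨h1, ?_⟩
          simp only [Finset.mem_insert, mem_iUnion, exists_prop]
          exact ⟨z, Or.inl rfl, h2, h3⟩
        · refine ⟨h1, ?_⟩
          simp only [mem_iUnion, exists_prop] at h3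
          obtain ⟨y, hy, hyω⟩ := h3
          simp only [Finset.mem_insert, mem_iUnion, exists_prop]
          exact ⟨y, Or.inr hy, hyω⟩
      · rw [Set.disjoint_left]
        rintro ω ⟨⟨_, h1⟩, _⟩ ⟨⟨_, h2⟩, _⟩
        exact h2 h1
      · apply MeasurableSet.inter (hC.diff (hH z hz))
        exact Finset.measurableSet_biUnion F fun y hy =>
          (hH y (Finset.mem_insert_of_mem hy)).inter (hT y (Finset.mem_insert_of_mem hy))
    calc δ * mu ι p (C ∩ ⋃ y ∈ insert z F, Hz y)
        ≤ δ * (mu ι p (C ∩ Hz z) + mu ι p ((C \ Hz z) ∩ ⋃ y ∈ F, Hz y)) := by gcongr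
      _ = δ * mu ι p (C ∩ Hz z) + δ * mu ι p ((C \ Hz z) ∩ ⋃ y ∈ F, Hz y) := mul_add _ _ _
      _ ≤ _ := add_le_add h1 ih'
      _ ≤ _ := h3

theorem desc_desc (v : TV b) (u w : List (Fin b)) : desc (desc v u) w = desc v (u ++ w) := by
  simp [desc]

theorem es_disj_in {n : ℕ} {S : Set (X b)} (h : ∀ x ∈ S, x ∉ Kn b n) :
    Disjoint (ES S) (In b n) := by
  rw [Set.disjoint_left]
  rintro e ⟨a, c, rfl, _, ha, _⟩ he
  exact h a ha (he a (Sym2.mem_mk_left a c))

/-- the trial at a boundary vertex -/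
theorem trial {N M m : ℕ} (hN : 0 < N) (hm : m ≤ M) (hb : 0 < b) {A : Set ℤ}
    (hA : IsUpperSet A) {n : ℕ} {z : X b} (hz : z ∈ Bd b n) (hzA : z.2 ∈ A) :
    ∃ (P : Finset (Sym2 (X b))) (v : TV b) (j : ℤ), j ∈ A ∧
      (∀ ω : Sym2 (X b) → Bool, (∀ e ∈ P, ω e = true) → Conn ω (RA A) z (v, j + m)) ∧
      P.card ≤ M + m + 1 ∧ Disjoint (↑P) (EGen N M m v j) ∧
      Disjoint (In b n) (↑P ∪ EGen N M m v j) := by
  classical
  obtain ⟨v, j⟩ := z
  obtain ⟨hz, hz'⟩ := hz
  simp only [Kn, mem_setOf_eq] at hz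
  simp only at hz' hzA
  rcases hz' with hz' | hz'
  · -- top side
    subst hz'
    refine ⟨(Finset.range (m + 1)).image fun i : ℕ => s((v, (n : ℤ) + i), (v, (n : ℤ) + i + 1)),
      v, n + 1, hA (by omega) hzA, ?_, ?_, ?_, ?_⟩
    · intro ω hω
      have h1 := conn_column (ω := ω) v (h₁ := n) (h₂ := n + 1 + m) (by omega) (by
        intro h hh1 hh2
        obtain ⟨i, hi⟩ : ∃ i : ℕ, h = n + i := ⟨(h - n).toNat, by omega⟩
        subst hi
        exact hω _ (Finset.mem_image.2 ⟨i, Finset.mem_range.2 (by omega), rfl⟩))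
      refine h1.mono ?_
      rintro y ⟨hy, _⟩
      exact hA hy hzA
    · refine le_trans Finset.card_image_le ?_
      simp
    · rw [disjoint_comm]
      refine Set.disjoint_of_subset_right ?_ (egen_disj_col hN v _)
      intro e he
      obtain ⟨i, _, rfl⟩ := Finset.mem_image.1 (Finset.mem_coe.1 he)
      exact ⟨[], (n : ℤ) + i, by simp, by simp [desc]⟩
    · rw [disjoint_comm, disjoint_union_left]
      constructor
      · rw [Set.disjoint_left]
        intro e he hin
        obtain ⟨i, _, rfl⟩ := Finset.mem_image.1 (Finset.mem_coe.1 he)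
        have := hin _ (Sym2.mem_mk_right _ _)
        simp only [Kn, mem_setOf_eq] at this
        omega
      · refine Set.disjoint_of_subset_left (egen_slab hm v _) (es_disj_in ?_)
        rintro x ⟨hx1, _, _⟩ hx
        simp only [Kn, mem_setOf_eq] at hx
        omega
  · -- lateral side
    let c0 : Fin b := ⟨0, hb⟩
    let u : ℕ → TV b := fun i => desc v (List.replicate i c0)
    have hu0 : u 0 = v := by simp [u, desc]
    have hulen : ∀ i, (u i).2.length = v.2.length + i := by
      intro i; simp [u, desc]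
    have huadj : ∀ i (h : ℤ), adj ((u i, h) : X b) (u (i + 1), h) := by
      intro i h
      refine Or.inr ⟨rfl, Or.inl ⟨rfl, c0, ?_⟩⟩
      simp [u, desc, List.replicate_succ']
    refine ⟨((Finset.range (M + 1)).image fun i : ℕ => s((u i, j), (u (i + 1), j))) ∪
      ((Finset.range m).image fun i : ℕ =>
        s((u (M + 1), j + i), (u (M + 1), j + i + 1))), u (M + 1), j, hzA, ?_, ?_, ?_, ?_⟩
    · intro ω hω
      have h1 : ∀ i ≤ M + 1, Conn ω (RA A) (v, j) (u i, j) := by
        intro i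
        induction i with
        | zero => intro _; rw [hu0]; exact Relation.ReflTransGen.refl
        | succ i ih =>
          intro hi
          refine (ih (by omega)).trans (Conn.single (huadj i j) ?_ hzA hzA)
          apply hω
          refine Finset.mem_union_left _ (Finset.mem_image.2 ⟨i, Finset.mem_range.2 (by omega), rfl⟩)
      have h2 := conn_column (ω := ω) (u (M + 1)) (h₁ := j) (h₂ := j + m) (by omega) (by
        intro h hh1 hh2
        obtain ⟨i, hi⟩ : ∃ i : ℕ, h = j + i := ⟨(h - j).toNat, by omega⟩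
        subst hi
        exact hω _ (Finset.mem_union_right _
          (Finset.mem_image.2 ⟨i, Finset.mem_range.2 (by omega), rfl⟩)))
      refine (h1 (M + 1) le_rfl).trans (h2.mono ?_)
      rintro y ⟨hy, _⟩
      exact hA hy hzA
    · refine le_trans (Finset.card_union_le _ _) ?_
      have h1 := Finset.card_image_le (s := Finset.range (M + 1))
        (f := fun i : ℕ => s(((u i, j) : X b), (u (i + 1), j)))
      have h2 := Finset.card_image_le (s := Finset.range m)
        (f := fun i : ℕ => s(((u (M + 1), j + i) : X b), (u (M + 1), j + i + 1)))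
      simp only [Finset.card_range] at h1 h2
      omega
    · rw [Finset.coe_union, disjoint_union_left]
      constructor
      · rw [Set.disjoint_left]
        intro e he hin
        obtain ⟨i, hi, rfl⟩ := Finset.mem_image.1 (Finset.mem_coe.1 he)
        have hi' := Finset.mem_range.1 hi
        obtain ⟨a, c, hac, _, ⟨_, _, w, ha⟩, ⟨_, _, w', hc⟩⟩ := egen_slab hm _ _ hin
        have hmem : ((u i, j) : X b) ∈ s(a, c) := by rw [← hac]; exact Sym2.mem_mk_left _ _
        have : ∃ w'', u i = desc (u (M + 1)) w'' := by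
          rcases Sym2.mem_iff.1 hmem with h | h
          · exact ⟨w, by rw [← ha, ← h]⟩
          · exact ⟨w', by rw [← hc, ← h]⟩
        obtain ⟨w'', hw⟩ := this
        have h3 := congrArg (fun t : TV b => t.2.length) hw
        simp only [desc, List.length_append] at h3
        rw [hulen, hulen] at h3
        omega
      · rw [disjoint_comm]
        refine Set.disjoint_of_subset_right ?_ (egen_disj_col hN _ _)
        intro e he
        obtain ⟨i, _, rfl⟩ := Finset.mem_image.1 (Finset.mem_coe.1 he)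
        exact ⟨[], j + i, by simp, by simp [desc]⟩
    · rw [disjoint_comm, disjoint_union_left, Finset.coe_union, disjoint_union_left]
      refine ⟨⟨?_, ?_⟩, ?_⟩
      · rw [Set.disjoint_left]
        intro e he hin
        obtain ⟨i, _, rfl⟩ := Finset.mem_image.1 (Finset.mem_coe.1 he)
        have := hin _ (Sym2.mem_mk_right _ _)
        simp only [Kn, mem_setOf_eq, hulen] at this
        push_cast at this
        omega
      · rw [Set.disjoint_left]
        intro e he hin
        obtain ⟨i, hi, rfl⟩ := Finset.mem_image.1 (Finset.mem_coe.1 he)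
        have hi' := Finset.mem_range.1 hi
        have := hin _ (Sym2.mem_mk_right _ _)
        simp only [Kn, mem_setOf_eq, hulen] at this
        push_cast at this
        omega
      · refine Set.disjoint_of_subset_left (egen_slab hm _ _) (es_disj_in ?_)
        rintro x ⟨hx1, hx2, w, hx3⟩ hx
        simp only [Kn, mem_setOf_eq, hx3, desc, List.length_append] at hx
        rw [hulen] at hx
        push_cast at hx
        omega

end Hit

open Hit

theorem ae_hit_good {b N M m : ℕ} {p : unitInterval} (H : FatAt b N M m p) (hb : 0 < b)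
    {A : Set ℤ} (hA : IsUpperSet A) (x : X b) :
    ∀ᵐ ω ∂(mu (Sym2 (X b)) p), (Clus ω (RA A) x).Infinite →
      ∃ v j, j ∈ A ∧ ω ∈ Good N M m p v j ∧ Conn ω (RA A) x (v, j + m) := by
  classical
  set G : Set (Sym2 (X b) → Bool) :=
    {ω | ∃ v j, j ∈ A ∧ ω ∈ Good N M m p v j ∧ Conn ω (RA A) x (v, j + m)} with hG
  have hGm : MeasurableSet G := by
    have : G = ⋃ v : TV b, ⋃ j : ℤ, ⋃ _ : j ∈ A,
        (Good N M m p v j ∩ {ω | Conn ω (RA A) x (v, j + m)}) := by
      ext ω
      simp only [hG, mem_setOf_eq, mem_iUnion, mem_inter_iff, exists_prop]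
    rw [this]
    exact MeasurableSet.iUnion fun v => MeasurableSet.iUnion fun j => MeasurableSet.iUnion fun _ =>
      (good_measurable v j).inter (measurableSet_conn _ _ _)
  set B : Set (Sym2 (X b) → Bool) := {ω | (Clus ω (RA A) x).Infinite} ∩ Gᶜ with hB
  have hBm : MeasurableSet B := (measurableSet_infinite_clus _ _).inter hGm.compl
  set g := mu (Sym2 (X b)) p (Good N M m p (v0 b) 0) with hg
  have hgpos : 0 < g := good_pos H
  have hppos := p_pos H
  have hp1 : ENNReal.ofReal (p : ℝ) ≤ 1 := by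
    rw [ENNReal.ofReal_le_one]; exact p.2.2
  set δ := ENNReal.ofReal (p : ℝ) ^ (M + m + 1) * g with hδ
  have hδpos : 0 < δ := by
    apply ENNReal.mul_pos
    · exact pow_ne_zero _ (by simpa using hppos)
    · exact hgpos.ne'
  have hδ1 : δ ≤ 1 := by
    calc δ ≤ 1 * 1 := mul_le_mul' (pow_le_one₀ (zero_le) hp1) prob_le_one
      _ = 1 := one_mul 1
  have hzero : mu (Sym2 (X b)) p B = 0 := by
    refine zero_of_levy hBm hδpos ?_
    intro J C hC dC
    obtain ⟨n1, hn1⟩ := in_large J
    obtain ⟨n2, hn2⟩ := kn_large x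
    set n := n1 + n2 with hn
    have hJ := hn1 n (by omega)
    have hx := hn2 n (by omega)
    have hfin : (Bd b n ∩ RA A).Finite :=
      (kn_finite n).subset fun z hz => hz.1.1
    set F := hfin.toFinset with hF
    have htr : ∀ z : X b, ∃ (P : Finset (Sym2 (X b))) (v : TV b) (j : ℤ), z ∈ F → j ∈ A ∧
      (∀ ω : Sym2 (X b) → Bool, (∀ e ∈ P, ω e = true) → Conn ω (RA A) z (v, j + m)) ∧
      P.card ≤ M + m + 1 ∧ Disjoint (↑P) (EGen N M m v j) ∧
      Disjoint (In b n) (↑P ∪ EGen N M m v j) := by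
      intro z
      by_cases hz : z ∈ F
      · have hz' := hfin.mem_toFinset.1 hz
        obtain ⟨P, v, j, h⟩ := trial H.hN H.hm hb hA hz'.1 hz'.2
        exact ⟨P, v, j, fun _ => h⟩
      · exact ⟨∅, v0 b, 0, fun h => absurd h hz⟩
    choose P v j hPvj using htr
    have dC' : Dep C (In b n) := fun ω ω' h => dC ω ω' fun i hi => h i (hJ i hi)
    have key := sum_trials (p := p) (In b n) F
      (fun z => {ω | Conn ω (Kn b n ∩ RA A) x z})
      (fun z => {ω | ∀ e ∈ P z, ω e = true} ∩ Good N M m p (v z) (j z)) δ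
      (fun z _ => measurableSet_conn _ _ _)
      (fun z _ => fun ω ω' h => dep_conn _ _ _ ω ω' fun i hi =>
        h i (es_subset_in n _ inter_subset_left hi))
      (fun z _ => by
        refine MeasurableSet.inter ?_ (good_measurable _ _)
        have : {ω : Sym2 (X b) → Bool | ∀ e ∈ P z, ω e = true} =
            ⋂ e ∈ P z, (fun ω : Sym2 (X b) → Bool => ω e) ⁻¹' {true} := by
          ext ω; simp
        rw [this]
        exact Finset.measurableSet_biInter _ fun e _ =>
          (measurable_pi_apply e) (measurableSet_singleton _))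
      (fun z => ↑(P z) ∪ EGen N M m (v z) (j z))
      (fun z _ => by
        intro ω ω' h
        have h1 : (∀ e ∈ P z, ω e = true) ↔ (∀ e ∈ P z, ω' e = true) := by
          constructor
          · intro h' e he
            rw [← h e (Or.inl he)]; exact h' e he
          · intro h' e he
            rw [h e (Or.inl he)]; exact h' e he
        have h2 := good_dep (N := N) (M := M) (m := m) (p := p) (v z) (j z) ω ω'
          fun i hi => h i (Or.inr hi)
        rw [mem_inter_iff, mem_inter_iff, mem_setOf_eq, mem_setOf_eq, h1, h2])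
      (fun z hz => (hPvj z hz).2.2.2.2)
      (fun z hz => by
        obtain ⟨_, _, hcard, hdisj, _⟩ := hPvj z hz
        have hopen : MeasurableSet {ω : Sym2 (X b) → Bool | ∀ e ∈ P z, ω e = true} := by
          have : {ω : Sym2 (X b) → Bool | ∀ e ∈ P z, ω e = true} =
              ⋂ e ∈ P z, (fun ω : Sym2 (X b) → Bool => ω e) ⁻¹' {true} := by
            ext ω; simp
          rw [this]
          exact Finset.measurableSet_biInter _ fun e _ =>
            (measurable_pi_apply e) (measurableSet_singleton _)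
        rw [indep hopen (good_measurable _ _) (S := ↑(P z)) (T := EGen N M m (v z) (j z))
          (by
            intro ω ω' h
            constructor
            · intro h' e he
              rw [← h e he]; exact h' e he
            · intro h' e he
              rw [h e he]; exact h' e he) (good_dep _ _) hdisj p, mu_open, mu_good]
        exact mul_le_mul' (pow_le_pow_of_le_one (zero_le) hp1 hcard) le_rfl)
      C hC dC'
    set U : Set (Sym2 (X b) → Bool) := ⋃ z ∈ F, {ω | Conn ω (Kn b n ∩ RA A) x z} with hU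
    set V : Set (Sym2 (X b) → Bool) := ⋃ z ∈ F, ({ω | Conn ω (Kn b n ∩ RA A) x z} ∩
      ({ω | ∀ e ∈ P z, ω e = true} ∩ Good N M m p (v z) (j z))) with hV
    have hUm : MeasurableSet U :=
      Finset.measurableSet_biUnion F fun z _ => measurableSet_conn _ _ _
    have hBU : B ⊆ U := by
      rintro ω ⟨hω, _⟩
      have : ∃ y ∈ Clus ω (RA A) x, y ∉ Kn b n := by
        by_contra hcon
        push Not at hcon
        exact hω ((kn_finite n).subset hcon)
      obtain ⟨y, hy, hyK⟩ := this
      obtain ⟨z, z', hz1, hz2, hz3, hz4, hz5⟩ := exit_conn hy hx hyK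
      simp only [hU, mem_iUnion, exists_prop]
      exact ⟨z, hfin.mem_toFinset.2 ⟨bd_of_adj hz1 hz5 hz4, hz2⟩, hz3⟩
    have hVB : C ∩ V ⊆ (C \ B) ∩ U := by
      rintro ω ⟨hω, hωV⟩
      simp only [hV, mem_iUnion, exists_prop] at hωV
      obtain ⟨z, hz, hz1, hz2, hz3⟩ := hωV
      obtain ⟨hjA, hconn, _, _, _⟩ := hPvj z hz
      refine ⟨⟨hω, ?_⟩, ?_⟩
      · rintro ⟨_, hnG⟩
        apply hnG
        refine ⟨v z, j z, hjA, hz3, ?_⟩
        exact (Conn.mono hz1 inter_subset_right).trans (hconn ω hz2)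
      · simp only [hU, mem_iUnion, exists_prop]
        exact ⟨z, hz, hz1⟩
    calc δ * mu (Sym2 (X b)) p C
        ≤ δ * (mu (Sym2 (X b)) p (C ∩ U) + mu (Sym2 (X b)) p (C \ U)) := by
          gcongr
          exact measure_le_inter_add_diff _ _ _
      _ = δ * mu (Sym2 (X b)) p (C ∩ U) + δ * mu (Sym2 (X b)) p (C \ U) := mul_add _ _ _
      _ ≤ mu (Sym2 (X b)) p ((C \ B) ∩ U) + mu (Sym2 (X b)) p ((C \ B) \ U) := by
          refine add_le_add (le_trans key (measure_mono hVB)) ?_
          calc δ * mu (Sym2 (X b)) p (C \ U) ≤ 1 * mu (Sym2 (X b)) p (C \ U) := by gcongr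
            _ = mu (Sym2 (X b)) p (C \ U) := one_mul _
            _ ≤ _ := by
              apply measure_mono
              rintro ω ⟨h1, h2⟩
              exact ⟨⟨h1, fun h => h2 (hBU h)⟩, h2⟩
      _ = mu (Sym2 (X b)) p (C \ B) := measure_inter_add_diff _ hUm
  rw [ae_iff]
  convert hzero using 2
  ext ω
  simp only [hB, hG, mem_setOf_eq, Classical.not_imp, mem_inter_iff, mem_compl_iff]

end Pool.Agent.Helper69.TL
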