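import Pool.Agent.Helper69.TL.Defs

/-!
# T1: measure tools (generic index type, no graph)
-/

open MeasureTheory Set

namespace Pool.Agent.Helper69.TL

section T1
variable {ι κ : Type*} {p : unitInterval}

theorem mix_apply_of_mem {S : Set ι} {i : ι} (hi : i ∈ S) (ω ω' : ι → Bool) :
    mix S ω ω' i = ω i := by
  unfold mix; exact if_pos hi

theorem mix_apply_of_notMem {S : Set ι} {i : ι} (hi : i ∉ S) (ω ω' : ι → Bool) :
    mix S ω ω' i = ω' i := by
  unfold mix; exact if_neg hi

theorem measurable_mix (S : Set ι) :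
    Measurable (fun z : (ι → Bool) × (ι → Bool) => mix S z.1 z.2) := by
  refine measurable_pi_lambda _ fun i => ?_
  by_cases hi : i ∈ S
  · have : (fun z : (ι → Bool) × (ι → Bool) => mix S z.1 z.2 i) = fun z => z.1 i := by
      funext z; exact mix_apply_of_mem hi _ _
    rw [this]; fun_prop
  · have : (fun z : (ι → Bool) × (ι → Bool) => mix S z.1 z.2 i) = fun z => z.2 i := by
      funext z; exact mix_apply_of_notMem hi _ _
    rw [this]; fun_prop

/-- resampling -/
theorem mp_mix (S : Set ι) (p : unitInterval) :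
    MeasurePreserving (fun z : (ι → Bool) × (ι → Bool) => mix S z.1 z.2)
      ((mu ι p).prod (mu ι p)) (mu ι p) := by
  classical
  refine ⟨measurable_mix S, ?_⟩
  refine Measure.eq_infinitePi _ ?_
  intro s t ht
  have hm : MeasurableSet (Set.pi (s : Set ι) t) :=
    MeasurableSet.pi s.countable_toSet fun i _ => ht i
  rw [Measure.map_apply (measurable_mix S) hm]
  have hpre : (fun z : (ι → Bool) × (ι → Bool) => mix S z.1 z.2) ⁻¹' Set.pi (s : Set ι) t
      = (Set.pi ((s.filter fun i => i ∈ S : Finset ι) : Set ι) t) ×ˢ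
        (Set.pi ((s.filter fun i => i ∉ S : Finset ι) : Set ι) t) := by
    ext z
    simp only [Set.mem_preimage, Set.mem_pi, Finset.mem_coe, Set.mem_prod, Finset.mem_filter]
    constructor
    · intro h
      refine ⟨fun i hi => ?_, fun i hi => ?_⟩
      · have := h i hi.1
        rwa [mix_apply_of_mem hi.2] at this
      · have := h i hi.1
        rwa [mix_apply_of_notMem hi.2] at this
    · rintro ⟨h1, h2⟩ i hi
      by_cases hS : i ∈ S
      · rw [mix_apply_of_mem hS]; exact h1 i ⟨hi, hS⟩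
      · rw [mix_apply_of_notMem hS]; exact h2 i ⟨hi, hS⟩
  rw [hpre, Measure.prod_prod]
  unfold mu
  rw [Measure.infinitePi_pi _ (fun i _ => ht i), Measure.infinitePi_pi _ (fun i _ => ht i)]
  exact Finset.prod_filter_mul_prod_filter_not s (fun i => i ∈ S) _

/-- pull back along an injection (Mathlib: `map_infinitePi_infinitePi_of_inj`) -/
theorem mp_inj (f : κ → ι) (hf : Function.Injective f) (p : unitInterval) :
    MeasurePreserving (fun ω : ι → Bool => ω ∘ f) (mu ι p) (mu κ p) := by
  refine ⟨?_, ?_⟩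
  · exact measurable_pi_lambda _ fun i => measurable_pi_apply _
  · exact Measure.map_infinitePi_infinitePi_of_inj (P := fun _ : ι => edgeLaw p) hf

theorem indep {A B : Set (ι → Bool)} {S T : Set ι} (hA : MeasurableSet A) (hB : MeasurableSet B)
    (dA : Dep A S) (dB : Dep B T) (hST : Disjoint S T) (p : unitInterval) :
    mu ι p (A ∩ B) = mu ι p A * mu ι p B := by
  have hmp := mp_mix S p
  rw [← hmp.measure_preimage (hA.inter hB).nullMeasurableSet, ← Measure.prod_prod]
  congr 1
  ext z
  simp only [Set.mem_preimage, Set.mem_inter_iff, Set.mem_prod]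
  have h1 : mix S z.1 z.2 ∈ A ↔ z.1 ∈ A :=
    dA _ _ fun i hi => mix_apply_of_mem hi _ _
  have h2 : mix S z.1 z.2 ∈ B ↔ z.2 ∈ B :=
    dB _ _ fun i hi => mix_apply_of_notMem (fun h => Set.disjoint_left.1 hST h hi) _ _
  rw [h1, h2]

theorem Dep.compl {A : Set (ι → Bool)} {S : Set ι} (h : Dep A S) : Dep Aᶜ S := by
  intro ω ω' hω
  exact not_congr (h ω ω' hω)

theorem Dep.mono {A : Set (ι → Bool)} {S T : Set ι} (h : Dep A S) (hST : S ⊆ T) : Dep A T :=
  fun ω ω' hω => h ω ω' fun i hi => hω i (hST hi)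

theorem Dep.iInter {α : Type*} {A : α → Set (ι → Bool)} {S : Set ι} (h : ∀ a, Dep (A a) S) :
    Dep (⋂ a, A a) S := by
  intro ω ω' hω
  simp only [Set.mem_iInter]
  exact forall_congr' fun a => h a ω ω' hω

theorem ae_exists_of_indep {E : ℕ → Set (ι → Bool)} {S : ℕ → Set ι}
    (hE : ∀ n, MeasurableSet (E n)) (dE : ∀ n, Dep (E n) (S n))
    (hS : ∀ i j, i ≠ j → Disjoint (S i) (S j)) {c : ENNReal} (hc : 0 < c)
    (h : ∀ n, c ≤ mu ι p (E n)) : ∀ᵐ ω ∂(mu ι p), ∃ n, ω ∈ E n := by
  set μ := mu ι p with hμ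
  have hcompl : ∀ n, μ (E n)ᶜ ≤ 1 - c := by
    intro n
    rw [prob_compl_eq_one_sub (hE n)]
    exact tsub_le_tsub_left (h n) 1
  have key : ∀ N : ℕ, μ {ω | ∀ n < N, ω ∉ E n} ≤ (1 - c) ^ N := by
    intro N
    induction N with
    | zero => simp
    | succ N ih =>
      have hset : {ω : ι → Bool | ∀ n < N + 1, ω ∉ E n}
          = {ω | ∀ n < N, ω ∉ E n} ∩ (E N)ᶜ := by
        ext ω
        simp only [Set.mem_ofPred_eq, Set.mem_inter_iff, Set.mem_compl_iff]
        constructor
        · intro hω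
          exact ⟨fun n hn => hω n (by omega), hω N (by omega)⟩
        · rintro ⟨h1, h2⟩ n hn
          rcases Nat.lt_succ_iff_lt_or_eq.1 hn with h3 | h3
          · exact h1 n h3
          · exact h3 ▸ h2
      have hmeas : MeasurableSet {ω : ι → Bool | ∀ n < N, ω ∉ E n} := by
        have : {ω : ι → Bool | ∀ n < N, ω ∉ E n} = ⋂ n, ⋂ (_ : n < N), (E n)ᶜ := by
          ext ω; simp
        rw [this]
        exact MeasurableSet.iInter fun n => MeasurableSet.iInter fun _ => (hE n).compl
      have hdep : Dep {ω : ι → Bool | ∀ n < N, ω ∉ E n} (⋃ n, ⋃ (_ : n < N), S n) := by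
        intro ω ω' hω
        simp only [Set.mem_ofPred_eq]
        refine forall_congr' fun n => forall_congr' fun hn => not_congr ?_
        refine dE n ω ω' fun i hi => hω i ?_
        simp only [Set.mem_iUnion]
        exact ⟨n, hn, hi⟩
      have hdisj : Disjoint (⋃ n, ⋃ (_ : n < N), S n) (S N) := by
        rw [Set.disjoint_left]
        intro i hi hiN
        simp only [Set.mem_iUnion] at hi
        obtain ⟨n, hn, hi⟩ := hi
        exact Set.disjoint_left.1 (hS n N (by omega)) hi hiN
      rw [hset, indep hmeas (hE N).compl hdep (dE N).compl hdisj, pow_succ]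
      exact mul_le_mul' ih (hcompl N)
  have hzero : μ {ω | ¬ ∃ n, ω ∈ E n} = 0 := by
    have hle : ∀ N, μ {ω | ¬ ∃ n, ω ∈ E n} ≤ (1 - c) ^ N := by
      intro N
      refine le_trans (measure_mono ?_) (key N)
      intro ω hω n _ hn
      exact hω ⟨n, hn⟩
    have hlt : 1 - c < 1 := ENNReal.sub_lt_self ENNReal.one_ne_top one_ne_zero hc.ne'
    have htend := ENNReal.tendsto_pow_atTop_nhds_zero_of_lt_one hlt
    exact le_antisymm (ge_of_tendsto' htend hle) bot_le
  exact hzero

theorem edgeLaw_true (p : unitInterval) : edgeLaw p {true} = ENNReal.ofReal p := by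
  simp [edgeLaw]

theorem mu_open (D : Finset ι) (p : unitInterval) :
    mu ι p {ω | ∀ i ∈ D, ω i = true} = ENNReal.ofReal p ^ D.card := by
  have hset : {ω : ι → Bool | ∀ i ∈ D, ω i = true} = Set.pi (D : Set ι) (fun _ => {true}) := by
    ext ω; simp [Set.mem_pi]
  rw [hset]
  unfold mu
  rw [Measure.infinitePi_pi _ (fun i _ => measurableSet_singleton _)]
  simp [edgeLaw_true]

theorem measurableSet_open (D : Finset ι) :
    MeasurableSet {ω : ι → Bool | ∀ i ∈ D, ω i = true} := by
  have hset : {ω : ι → Bool | ∀ i ∈ D, ω i = true} = Set.pi (D : Set ι) (fun _ => {true}) := by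
    ext ω; simp [Set.mem_pi]
  rw [hset]
  exact MeasurableSet.pi D.countable_toSet fun i _ => measurableSet_singleton _

theorem mu_force (D : Finset ι) {A : Set (ι → Bool)} (hA : MeasurableSet A) (iA : Incr A)
    (p : unitInterval) :
    ENNReal.ofReal p ^ D.card * mu ι p A ≤ mu ι p (A ∩ {ω | ∀ i ∈ D, ω i = true}) := by
  have hmp := mp_mix (D : Set ι) p
  rw [← hmp.measure_preimage (hA.inter (measurableSet_open D)).nullMeasurableSet,
    ← mu_open D p, ← Measure.prod_prod]
  refine measure_mono ?_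
  rintro ⟨ω', ω⟩ ⟨h1, h2⟩
  simp only [Set.mem_ofPred_eq] at h1
  refine ⟨iA ω _ ?_ h2, ?_⟩
  · intro i hi
    by_cases hD : i ∈ (D : Set ι)
    · simp only [mix_apply_of_mem hD]
      exact h1 i hD
    · simp only [mix_apply_of_notMem hD]
      exact hi
  · intro i hi
    have hD : i ∈ (D : Set ι) := hi
    simp only [mix_apply_of_mem hD]
    exact h1 i hi

/-- Fubini for resampling -/
theorem mu_eq_lintegral_mix (S : Set ι) {A : Set (ι → Bool)} (hA : MeasurableSet A)
    (p : unitInterval) :
    mu ι p A = ∫⁻ ω, mu ι p {ω' | mix S ω ω' ∈ A} ∂(mu ι p) := by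
  have hmp := mp_mix S p
  rw [← hmp.measure_preimage hA.nullMeasurableSet,
    Measure.prod_apply (hmp.measurable hA)]
  rfl

end T1

end Pool.Agent.Helper69.TL
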