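import Pool.Agent.Helper69.TL.BE
import Pool.Agent.Helper69.TL.T1
import Pool.Agent.Helper69.TL.BG
import Pool.Agent.Helper69.TL.Surv
import Pool.Agent.Helper69.TL.Column

/-!
# MP_b6f052_pr: any two good starts are connected
-/

open MeasureTheory Set

namespace Pool.Agent.Helper69.TL


section Merge

variable {b N M m : ℕ} {p : unitInterval}

/-- column edges at `v` from height `h₁` to `h₂` -/
noncomputable def colSet (v : TV b) (h₁ h₂ : ℤ) : Finset (Sym2 (X b)) := by
  classical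
  exact (Finset.Ico h₁ h₂).image (fun h => s(((v, h) : X b), ((v, h + 1) : X b)))

theorem mem_colSet {v : TV b} {h₁ h₂ : ℤ} {e : Sym2 (X b)} :
    e ∈ colSet v h₁ h₂ ↔ ∃ h, h₁ ≤ h ∧ h < h₂ ∧ e = s(((v, h) : X b), ((v, h + 1) : X b)) := by
  classical
  unfold colSet
  rw [Finset.mem_image]
  constructor
  · rintro ⟨h, hh, rfl⟩
    rw [Finset.mem_Ico] at hh
    exact ⟨h, hh.1, hh.2, rfl⟩
  · rintro ⟨h, h1, h2, rfl⟩
    exact ⟨h, Finset.mem_Ico.mpr ⟨h1, h2⟩, rfl⟩

theorem card_colSet_le (v : TV b) (h₁ h₂ : ℤ) : (colSet v h₁ h₂).card ≤ (h₂ - h₁).toNat := by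
  classical
  unfold colSet
  refine Finset.card_image_le.trans ?_
  rw [Int.card_Ico]

/-- the link between the two slabs of a block -/
noncomputable def linkSet (v v' : TV b) (P : Finset (Sym2 (TV b))) (h₁ g h₂ : ℤ) :
    Finset (Sym2 (X b)) := by
  classical
  exact colSet v h₁ g ∪ (P.image (fun e => e.map (fun u => ((u, g) : X b))) ∪ colSet v' g h₂)

theorem mem_linkSet {v v' : TV b} {P : Finset (Sym2 (TV b))} {h₁ g h₂ : ℤ} {e : Sym2 (X b)} :
    e ∈ linkSet v v' P h₁ g h₂ ↔ e ∈ colSet v h₁ g ∨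
      (∃ e' ∈ P, e'.map (fun u => ((u, g) : X b)) = e) ∨ e ∈ colSet v' g h₂ := by
  classical
  unfold linkSet
  rw [Finset.mem_union, Finset.mem_union, Finset.mem_image]

theorem card_linkSet_le (v v' : TV b) (P : Finset (Sym2 (TV b))) (h₁ g h₂ : ℤ) :
    (linkSet v v' P h₁ g h₂).card ≤ (g - h₁).toNat + (P.card + (h₂ - g).toNat) := by
  classical
  unfold linkSet
  refine (Finset.card_union_le _ _).trans (add_le_add (card_colSet_le _ _ _) ?_)
  exact (Finset.card_union_le _ _).trans (add_le_add Finset.card_image_le (card_colSet_le _ _ _))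

theorem mem_map_height {e' : Sym2 (TV b)} {g : ℤ} {x : X b}
    (hx : x ∈ e'.map (fun u => ((u, g) : X b))) : x.2 = g := by
  rw [Sym2.mem_map] at hx
  obtain ⟨u, _, rfl⟩ := hx
  rfl

theorem meet_congr {ω₁ ω₂ ω₁' ω₂' : Sym2 (X b) → Bool} {v v' : TV b} {j j' : ℤ}
    (h : ∀ e ∈ EGen N M m v j, ω₁ e = ω₂ e) (h' : ∀ e ∈ EGen N M m v' j', ω₁' e = ω₂' e) :
    Meet N M m ω₁ v j ω₁' v' j' ↔ Meet N M m ω₂ v j ω₂' v' j' := by
  unfold Meet
  simp only [gen_congr h, gen_congr h']

/-- members of `EGen` have heights in the slab -/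
theorem egen_heights (hm : m ≤ M) {v : TV b} {j : ℤ} {e : Sym2 (X b)} (he : e ∈ EGen N M m v j)
    {x : X b} (hx : x ∈ e) : j ≤ x.2 ∧ x.2 ≤ j + M := by
  have := mem_of_mem_ES (egen_slab hm v j he) hx
  exact ⟨this.1, this.2.1⟩

theorem linkSet_heights {v v' : TV b} {P : Finset (Sym2 (TV b))} {h₁ g h₂ : ℤ}
    (h1g : h₁ ≤ g) (hg2 : g ≤ h₂) {e : Sym2 (X b)}
    (he : e ∈ linkSet v v' P h₁ g h₂) {x : X b} (hx : x ∈ e) : h₁ ≤ x.2 ∧ x.2 ≤ h₂ := by
  rw [mem_linkSet] at he
  rcases he with he | ⟨e', _, rfl⟩ | he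
  · rw [mem_colSet] at he
    obtain ⟨h, h3, h4, rfl⟩ := he
    rcases Sym2.mem_iff.mp hx with rfl | rfl
    · exact ⟨h3, by show h ≤ h₂; omega⟩
    · exact ⟨by show h₁ ≤ h + 1; omega, by show h + 1 ≤ h₂; omega⟩
  · rw [mem_map_height hx]
    exact ⟨h1g, hg2⟩
  · rw [mem_colSet] at he
    obtain ⟨h, h3, h4, rfl⟩ := he
    rcases Sym2.mem_iff.mp hx with rfl | rfl
    · exact ⟨by show h₁ ≤ h; omega, by show h ≤ h₂; omega⟩
    · exact ⟨by show h₁ ≤ h + 1; omega, by show h + 1 ≤ h₂; omega⟩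

theorem exists_mem_sym2 {α : Type*} (e : Sym2 α) : ∃ x, x ∈ e := by
  induction e using Sym2.ind with
  | _ a c => exact ⟨a, Sym2.mem_mk_left a c⟩

/-- the first tree does not look at the link -/
theorem egen_disj_link_left (hN : 0 < N) (hm : m ≤ M) (v v' : TV b) (P : Finset (Sym2 (TV b)))
    {k h₁ g h₂ : ℤ} (hg : k + M < g) :
    Disjoint (EGen N M m v k) (↑(linkSet v v' P h₁ g h₂) : Set (Sym2 (X b))) := by
  rw [Set.disjoint_left]
  intro e he he'
  rw [Finset.mem_coe, mem_linkSet] at he'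
  rcases he' with h1 | ⟨e', _, rfl⟩ | h1
  · rw [mem_colSet] at h1
    obtain ⟨h, _, _, rfl⟩ := h1
    exact Set.disjoint_left.mp (egen_disj_col hN v k) he
      ⟨[], h, by simp, by rw [desc_nil]⟩
  · obtain ⟨x, hx⟩ := exists_mem_sym2 (e'.map (fun u => ((u, g) : X b)))
    have h2 := egen_heights hm he hx
    rw [mem_map_height hx] at h2
    omega
  · rw [mem_colSet] at h1
    obtain ⟨h, h3, _, rfl⟩ := h1
    have h2 := egen_heights hm he (Sym2.mem_mk_left _ _)
    have : h ≤ k + M := h2.2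
    omega

/-- the second tree does not look at the link -/
theorem egen_disj_link_right (hN : 0 < N) (hm : m ≤ M) (v v' : TV b) (P : Finset (Sym2 (TV b)))
    {k h₁ g h₂ : ℤ} (hg : g < k) :
    Disjoint (EGen N M m v' k) (↑(linkSet v v' P h₁ g h₂) : Set (Sym2 (X b))) := by
  rw [Set.disjoint_left]
  intro e he he'
  rw [Finset.mem_coe, mem_linkSet] at he'
  rcases he' with h1 | ⟨e', _, rfl⟩ | h1
  · rw [mem_colSet] at h1
    obtain ⟨h, _, h3, rfl⟩ := h1
    have h2 := egen_heights hm he (Sym2.mem_mk_left _ _)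
    have : k ≤ h := h2.1
    omega
  · obtain ⟨x, hx⟩ := exists_mem_sym2 (e'.map (fun u => ((u, g) : X b)))
    have h2 := egen_heights hm he hx
    rw [mem_map_height hx] at h2
    omega
  · rw [mem_colSet] at h1
    obtain ⟨h, _, _, rfl⟩ := h1
    exact Set.disjoint_left.mp (egen_disj_col hN v' k) he
      ⟨[], h, by simp, by rw [desc_nil]⟩

theorem conn_link {ω : Sym2 (X b) → Bool} {v v' : TV b} {P : Finset (Sym2 (TV b))}
    (hP : ∀ (ω : Sym2 (X b) → Bool) (h : ℤ), (∀ e ∈ P, ω (e.map (fun u => (u, h))) = true) →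
      Conn ω {x | x.2 = h} (v, h) (v', h)) {h₁ g h₂ : ℤ} (h1g : h₁ ≤ g) (hg2 : g ≤ h₂)
    (ho : ∀ e ∈ linkSet v v' P h₁ g h₂, ω e = true) :
    Conn ω {x | h₁ ≤ x.2} (v, h₁) (v', h₂) := by
  have c1 : Conn ω {x | h₁ ≤ x.2} (v, h₁) (v, g) := by
    refine (conn_column v h1g fun h h3 h4 => ho _ ?_).mono (fun x hx => hx.1)
    rw [mem_linkSet, mem_colSet]
    exact Or.inl ⟨h, h3, h4, rfl⟩
  have c2 : Conn ω {x | h₁ ≤ x.2} (v, g) (v', g) := by
    refine (hP ω g fun e he => ho _ ?_).mono (fun x hx => ?_)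
    · rw [mem_linkSet]
      exact Or.inr (Or.inl ⟨e, he, rfl⟩)
    · have : x.2 = g := hx
      show h₁ ≤ x.2
      omega
  have c3 : Conn ω {x | h₁ ≤ x.2} (v', g) (v', h₂) := by
    refine (conn_column v' hg2 fun h h3 h4 => ho _ ?_).mono (fun x hx => ?_)
    · rw [mem_linkSet, mem_colSet, mem_colSet]
      exact Or.inr (Or.inr ⟨h, h3, h4, rfl⟩)
    · have : g ≤ x.2 := hx.1
      show h₁ ≤ x.2
      omega
  exact (c1.trans c2).trans c3

/-- `i`-th trial -/
def trial (N M m : ℕ) (v v' : TV b) (j j' : ℤ) (P : Finset (Sym2 (TV b))) (k : ℤ)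
    (ω : Sym2 (X b) → Bool) : Set (Sym2 (X b) → Bool) :=
  {ω' | Meet N M m ω v j ω' v k} ∩ ({ω' | Meet N M m ω v' j' ω' v' (k + M + 2)} ∩
    {ω' | ∀ e ∈ linkSet v v' P (k + m) (k + M + 1) (k + M + 2 + m), ω' e = true})

/-- coordinates of the trial -/
def trialSet (N M m : ℕ) (v v' : TV b) (P : Finset (Sym2 (TV b))) (k : ℤ) :
    Set (Sym2 (X b)) :=
  EGen N M m v k ∪ (EGen N M m v' (k + M + 2) ∪
    ↑(linkSet v v' P (k + m) (k + M + 1) (k + M + 2 + m)))

theorem trialSet_heights (hm : m ≤ M) {v v' : TV b} {P : Finset (Sym2 (TV b))} {k : ℤ}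
    {e : Sym2 (X b)} (he : e ∈ trialSet N M m v v' P k) {x : X b} (hx : x ∈ e) :
    k ≤ x.2 ∧ x.2 ≤ k + 2 * M + 2 := by
  have hm' : (m : ℤ) ≤ M := by exact_mod_cast hm
  rcases he with he | he | he
  · have := egen_heights hm he hx
    omega
  · have := egen_heights hm he hx
    omega
  · have := linkSet_heights (by omega) (by omega) (Finset.mem_coe.mp he) hx
    omega

theorem measurable_meet_right (v v' : TV b) (j j' : ℤ) (ω : Sym2 (X b) → Bool) :
    MeasurableSet {ω' : Sym2 (X b) → Bool | Meet N M m ω v j ω' v' j'} :=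
  (measurableSet_meet (N := N) (M := M) (m := m) v v' j j').preimage measurable_prodMk_left

theorem measurable_all_open (D : Finset (Sym2 (X b))) :
    MeasurableSet {ω : Sym2 (X b) → Bool | ∀ e ∈ D, ω e = true} := by
  have : {ω : Sym2 (X b) → Bool | ∀ e ∈ D, ω e = true} = ⋂ e ∈ D, {ω | ω e = true} := by
    ext ω; simp
  rw [this]
  exact D.measurableSet_biInter fun e _ => measurableSet_coord e

theorem dep_meet_right (v v' : TV b) (j j' : ℤ) (ω : Sym2 (X b) → Bool) :
    Dep {ω' : Sym2 (X b) → Bool | Meet N M m ω v j ω' v' j'} (EGen N M m v' j') := by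
  intro ω₁ ω₂ h
  exact meet_congr (fun _ _ => rfl) h

theorem dep_all_open (D : Finset (Sym2 (X b))) :
    Dep {ω : Sym2 (X b) → Bool | ∀ e ∈ D, ω e = true} (↑D : Set (Sym2 (X b))) := by
  intro ω ω' h
  constructor
  · intro h1 e he
    rw [← h e he]; exact h1 e he
  · intro h1 e he
    rw [h e he]; exact h1 e he

theorem dep_inter {ι : Type*} {A B : Set (ι → Bool)} {S T : Set ι} (hA : Dep A S) (hB : Dep B T) :
    Dep (A ∩ B) (S ∪ T) := by
  intro ω ω' h
  exact and_congr (hA ω ω' fun i hi => h i (Or.inl hi)) (hB ω ω' fun i hi => h i (Or.inr hi))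

theorem trial_prob (hN : 0 < N) (hm : m ≤ M) (v v' : TV b) (j j' : ℤ) (P : Finset (Sym2 (TV b)))
    (k : ℤ) (ω : Sym2 (X b) → Bool) :
    surv N M m p v j ω * (surv N M m p v' j' ω * ENNReal.ofReal p ^ (P.card + (M + 3))) ≤
      mu (Sym2 (X b)) p (trial N M m v v' j j' P k ω) := by
  have hm' : (m : ℤ) ≤ M := by exact_mod_cast hm
  have d23 := egen_disj_link_right (M := M) (m := m) hN hm v v' P
    (k := k + M + 2) (h₁ := k + m) (g := k + M + 1) (h₂ := k + M + 2 + m) (by omega)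
  have d13 := egen_disj_link_left (M := M) (m := m) hN hm v v' P
    (k := k) (h₁ := k + m) (g := k + M + 1) (h₂ := k + M + 2 + m) (by omega)
  have d12 := egen_disj_slab (N := N) hm v v' (j := k) (k := k + M + 2) (by omega)
  unfold trial
  rw [indep (measurable_meet_right _ _ _ _ _)
      ((measurable_meet_right _ _ _ _ _).inter (measurable_all_open _))
      (dep_meet_right _ _ _ _ _) (dep_inter (dep_meet_right _ _ _ _ _) (dep_all_open _))
      (Set.disjoint_union_right.mpr ⟨d12, d13⟩),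
    indep (measurable_meet_right _ _ _ _ _) (measurable_all_open _)
      (dep_meet_right _ _ _ _ _) (dep_all_open _) d23, surv_eq, surv_eq, mu_open]
  refine mul_le_mul' le_rfl (mul_le_mul' le_rfl ?_)
  have hc := card_linkSet_le v v' P (k + m) (k + M + 1) (k + M + 2 + m)
  refine pow_le_pow_right_of_le_one' (by rw [ENNReal.ofReal_le_one]; exact p.2.2) ?_
  have e1 : (k + M + 1 - (k + m)).toNat + m = M + 1 := by omega
  have e2 : (k + M + 2 + m - (k + M + 1)).toNat = m + 1 := by omega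
  omega

theorem ae_merge_aux (H : FatAt b N M m p) (v v' : TV b) (j j' : ℤ) (P : Finset (Sym2 (TV b)))
    (k : ℕ → ℤ) (hk0 : ∀ i, j + M < k i) (hk0' : ∀ i, j' + M < k i)
    (hk : ∀ i i', i < i' → k i + 2 * M + 2 < k i') :
    ∀ᵐ ω ∂(mu (Sym2 (X b)) p), ω ∈ Good N M m p v j → ω ∈ Good N M m p v' j' →
      ∃ i, ω ∈ trial N M m v v' j j' P (k i) ω := by
  have hm := H.hm
  have hN := H.hN
  have hm' : (m : ℤ) ≤ M := by exact_mod_cast hm
  have hp := p_pos H
  set W : Set (Sym2 (X b) → Bool) := (Good N M m p v j ∩ Good N M m p v' j') ∩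
    (⋃ i, {ω | ω ∈ trial N M m v v' j j' P (k i) ω})ᶜ with hW
  have hWm : MeasurableSet W := by
    refine ((good_measurable _ _).inter (good_measurable _ _)).inter
      (MeasurableSet.iUnion fun i => ?_).compl
    have hd : Measurable (fun ω : Sym2 (X b) → Bool => (ω, ω)) := measurable_id.prodMk measurable_id
    exact ((measurableSet_meet (N := N) (M := M) (m := m) v v j (k i)).preimage hd).inter
      (((measurableSet_meet (N := N) (M := M) (m := m) v' v' j' (k i + M + 2)).preimage hd).inter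
        (measurable_all_open _))
  have hW0 : mu (Sym2 (X b)) p W = 0 := by
    rw [mu_eq_lintegral_mix {e : Sym2 (X b) | ∀ x ∈ e, x.2 ≤ max j j' + M} hWm p]
    set S : Set (Sym2 (X b)) := {e : Sym2 (X b) | ∀ x ∈ e, x.2 ≤ max j j' + M} with hS
    refine lintegral_eq_zero_of_ae_eq_zero (Filter.Eventually.of_forall fun ω => ?_)
    show mu (Sym2 (X b)) p {ω' | mix S ω ω' ∈ W} = 0
    -- agreement on the slabs
    have hagree : ∀ (ω' : Sym2 (X b) → Bool) (u : TV b) (i₀ : ℤ), i₀ ≤ max j j' →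
        ∀ e ∈ EGen N M m u i₀, mix S ω ω' e = ω e := by
      intro ω' u i₀ hi e he
      refine mix_apply_of_mem ?_ ω ω'
      intro x hx
      have := egen_heights hm he hx
      omega
    have hagree' : ∀ (ω' : Sym2 (X b) → Bool) (i : ℕ),
        ∀ e ∈ trialSet N M m v v' P (k i), mix S ω ω' e = ω' e := by
      intro ω' i e he
      refine mix_apply_of_notMem ?_ ω ω'
      intro hmem
      obtain ⟨x, hx⟩ := exists_mem_sym2 e
      have h1 := trialSet_heights hm he hx
      have h2 := hmem x hx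
      have h3 := hk0 i
      have h4 := hk0' i
      rcases max_cases j j' with ⟨h5, _⟩ | ⟨h5, _⟩ <;> omega
    by_cases hg : ω ∈ Good N M m p v j ∧ ω ∈ Good N M m p v' j'
    · -- a.s. some trial succeeds
      have hae : ∀ᵐ ω' ∂(mu (Sym2 (X b)) p), ∃ i, ω' ∈ trial N M m v v' j j' P (k i) ω := by
        refine ae_exists_of_indep (S := fun i => trialSet N M m v v' P (k i))
          (c := surv N M m p v j ω * (surv N M m p v' j' ω *
            ENNReal.ofReal p ^ (P.card + (M + 3)))) ?_ ?_ ?_ ?_ ?_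
        · intro i
          exact (measurable_meet_right _ _ _ _ _).inter
            ((measurable_meet_right _ _ _ _ _).inter (measurable_all_open _))
        · intro i
          exact dep_inter (dep_meet_right _ _ _ _ _)
            (dep_inter (dep_meet_right _ _ _ _ _) (dep_all_open _))
        · intro i i' hii
          rw [Set.disjoint_left]
          intro e he he'
          obtain ⟨x, hx⟩ := exists_mem_sym2 e
          have h1 := trialSet_heights hm he hx
          have h2 := trialSet_heights hm he' hx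
          rcases lt_or_gt_of_ne hii with h | h
          · have := hk i i' h
            omega
          · have := hk i' i h
            omega
        · have h1 : 0 < surv N M m p v j ω := hg.1
          have h2 : 0 < surv N M m p v' j' ω := hg.2
          have h3 : 0 < ENNReal.ofReal (p : ℝ) := ENNReal.ofReal_pos.mpr hp
          exact ENNReal.mul_pos h1.ne' (ENNReal.mul_pos h2.ne'
            (pow_ne_zero _ h3.ne')).ne'
        · intro i
          exact trial_prob hN hm v v' j j' P (k i) ω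
      refine measure_mono_null ?_ (ae_iff.mp hae)
      intro ω' hω'
      have h1 : mix S ω ω' ∈ W := hω'
      show ¬ ∃ i, ω' ∈ trial N M m v v' j j' P (k i) ω
      rintro ⟨i, hi⟩
      apply h1.2
      rw [mem_iUnion]
      refine ⟨i, ?_⟩
      have hA := hagree' ω' i
      refine ⟨?_, ?_, ?_⟩
      · refine (meet_congr (hagree ω' v j (le_max_left _ _)) (fun e he => hA e ?_)).mpr hi.1
        exact Or.inl he
      · refine (meet_congr (hagree ω' v' j' (le_max_right _ _)) (fun e he => hA e ?_)).mpr hi.2.1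
        exact Or.inr (Or.inl he)
      · intro e he
        rw [hA e (Or.inr (Or.inr he))]
        exact hi.2.2 e he
    · -- empty
      have : {ω' | mix S ω ω' ∈ W} = ∅ := by
        rw [Set.eq_empty_iff_forall_notMem]
        intro ω' hω'
        apply hg
        have h1 : mix S ω ω' ∈ W := hω'
        exact ⟨(good_dep v j _ _ (hagree ω' v j (le_max_left _ _))).mp h1.1.1,
          (good_dep v' j' _ _ (hagree ω' v' j' (le_max_right _ _))).mp h1.1.2⟩
      rw [this]
      exact measure_empty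
  rw [ae_iff]
  refine measure_mono_null ?_ hW0
  intro ω hω
  have h1 : ¬ (ω ∈ Good N M m p v j → ω ∈ Good N M m p v' j' →
      ∃ i, ω ∈ trial N M m v v' j j' P (k i) ω) := hω
  push Not at h1
  obtain ⟨h2, h3, h4⟩ := h1
  refine ⟨⟨h2, h3⟩, ?_⟩
  intro h5
  rw [mem_iUnion] at h5
  obtain ⟨i, hi⟩ := h5
  exact h4 i hi

theorem ae_merge (H : FatAt b N M m p) {A : Set ℤ}
    (hA : IsUpperSet A) (v v' : TV b) {j j' : ℤ} (hj : j ∈ A) (hj' : j' ∈ A) :
    ∀ᵐ ω ∂(mu (Sym2 (X b)) p), ω ∈ Good N M m p v j → ω ∈ Good N M m p v' j' →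
      Conn ω (RA A) (v, j + m) (v', j' + m) := by
  obtain ⟨P, hP⟩ := tree_link v v'
  have hm := H.hm
  have hN := H.hN
  have hm' : (m : ℤ) ≤ M := by exact_mod_cast hm
  have hp := p_pos H
  set k : ℕ → ℤ := fun i => max j j' + M + 1 + i * (2 * M + 4) with hk
  have hkj : ∀ i, max j j' + M < k i := by
    intro i
    have : (0 : ℤ) ≤ (i : ℤ) * (2 * M + 4) := by positivity
    simp only [hk]
    omega
  have hk0 : ∀ i, j + M < k i := fun i => by
    have := hkj i; have := le_max_left j j'; omega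
  have hk0' : ∀ i, j' + M < k i := fun i => by
    have := hkj i; have := le_max_right j j'; omega
  have hkk : ∀ i i', i < i' → k i + 2 * M + 2 < k i' := by
    intro i i' h
    have h1 : (i : ℤ) + 1 ≤ i' := by exact_mod_cast h
    have h2 : ((i : ℤ) + 1) * (2 * M + 4) ≤ i' * (2 * M + 4) :=
      mul_le_mul_of_nonneg_right h1 (by positivity)
    simp only [hk]
    nlinarith
  have hcol : ∀ᵐ ω ∂(mu (Sym2 (X b)) p), ∀ i, Meet N M m ω v j ω v (k i) →
      Conn ω (RA (Ici j)) (v, j + m) (v, k i + m) :=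
    ae_all_iff.mpr fun i => ae_column hN hm hp v (hk0 i)
  have hcol' : ∀ᵐ ω ∂(mu (Sym2 (X b)) p), ∀ i, Meet N M m ω v' j' ω v' (k i + M + 2) →
      Conn ω (RA (Ici j')) (v', j' + m) (v', k i + M + 2 + m) :=
    ae_all_iff.mpr fun i => ae_column hN hm hp v' (by have := hk0' i; omega)
  filter_upwards [ae_merge_aux H v v' j j' P k hk0 hk0' hkk, hcol, hcol'] with ω h1 h2 h3 hg hg'
  obtain ⟨i, hi⟩ := h1 hg hg'
  have c1 := h2 i hi.1
  have c2 := h3 i hi.2.1
  have c3 := conn_link hP (by omega) (by omega) hi.2.2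
  have m1 : RA (b := b) (Ici j) ⊆ RA A := fun x hx => hA hx hj
  have m2 : RA (b := b) (Ici j') ⊆ RA A := fun x hx => hA hx hj'
  have m3 : {x : X b | k i + m ≤ x.2} ⊆ RA A := fun x hx => by
    have h4 : k i + m ≤ x.2 := hx
    refine hA (a := j) ?_ hj
    have := hk0 i
    omega
  exact ((c1.mono m1).trans (c3.mono m3)).trans (c2.mono m2).symm

end Merge

end Pool.Agent.Helper69.TL
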