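import Pool.Agent.Helper69.TL.BA
import Pool.Agent.Helper69.TL.T1
import Pool.Agent.Helper69.TL.BE
import Pool.Agent.Helper69.TL.Tau

/-!
# MP_b6f052_pr: two far points on the axis are connected with probability at least `c`
-/

open MeasureTheory Set

namespace Pool.Agent.Helper69.TL

/-- second moment: among infinitely many events of probability `θ`, two have an intersection of
probability at least `θ² / 2` -/
theorem exists_pair_of_prob {Ω : Type*} [MeasurableSpace Ω] (μ : Measure Ω)
    [IsProbabilityMeasure μ] (I : ℕ → Set Ω) (hI : ∀ i, MeasurableSet (I i)) {θ : ℝ} (hθ : 0 < θ)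
    (h : ∀ i, μ.real (I i) = θ) : ∃ i j, i < j ∧ θ ^ 2 / 2 ≤ μ.real (I i ∩ I j) := by
  by_contra hcon
  push Not at hcon
  obtain ⟨n, hn⟩ := exists_nat_gt (2 / θ)
  have hn0 : (0 : ℝ) < n := lt_trans (by positivity) hn
  set S : Ω → ℝ := fun ω => ∑ i ∈ Finset.range n, (I i).indicator (fun _ => (1 : ℝ)) ω with hS
  have hint : ∀ i, Integrable ((I i).indicator (fun _ => (1 : ℝ))) μ := fun i =>
    (integrable_const (1 : ℝ)).indicator (hI i)
  have hint2 : ∀ i j, Integrable ((I i ∩ I j).indicator (fun _ => (1 : ℝ))) μ := fun i j =>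
    (integrable_const (1 : ℝ)).indicator ((hI i).inter (hI j))
  have hS1 : ∫ ω, S ω ∂μ = n * θ := by
    simp only [hS]
    rw [integral_finsetSum _ (fun i _ => hint i)]
    have : ∀ i ∈ Finset.range n, ∫ ω, (I i).indicator (fun _ => (1 : ℝ)) ω ∂μ = θ := by
      intro i _
      rw [integral_indicator_const _ (hI i), h i]
      simp
    rw [Finset.sum_congr rfl this]
    simp
  have hSS : ∀ ω, S ω ^ 2 = ∑ i ∈ Finset.range n, ∑ j ∈ Finset.range n,
      (I i ∩ I j).indicator (fun _ => (1 : ℝ)) ω := by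
    intro ω
    simp only [hS, sq, Finset.sum_mul_sum]
    refine Finset.sum_congr rfl fun i _ => Finset.sum_congr rfl fun j _ => ?_
    by_cases h1 : ω ∈ I i <;> by_cases h2 : ω ∈ I j <;> simp [h1, h2]
  have hSi : Integrable S μ := integrable_finsetSum _ fun i _ => hint i
  have hS2i : Integrable (fun ω => S ω ^ 2) μ := by
    simp_rw [hSS]
    exact integrable_finsetSum _ fun i _ => integrable_finsetSum _ fun j _ => hint2 i j
  have hS2 : ∫ ω, S ω ^ 2 ∂μ = ∑ i ∈ Finset.range n, ∑ j ∈ Finset.range n, μ.real (I i ∩ I j) := by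
    simp_rw [hSS]
    rw [integral_finsetSum _ (fun i _ => integrable_finsetSum _ fun j _ => hint2 i j)]
    refine Finset.sum_congr rfl fun i _ => ?_
    rw [integral_finsetSum _ (fun j _ => hint2 i j)]
    refine Finset.sum_congr rfl fun j _ => ?_
    rw [integral_indicator_const _ ((hI i).inter (hI j))]
    simp
  have hlow : (n * θ) ^ 2 ≤ ∫ ω, S ω ^ 2 ∂μ := by
    have h0 : 0 ≤ ∫ ω, (S ω - n * θ) ^ 2 ∂μ := integral_nonneg fun ω => sq_nonneg _
    have h1 : ∫ ω, (S ω - n * θ) ^ 2 ∂μ = ∫ ω, S ω ^ 2 ∂μ - (n * θ) ^ 2 := by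
      have : ∀ ω, (S ω - n * θ) ^ 2 = S ω ^ 2 - (2 * (n * θ)) * S ω + (n * θ) ^ 2 := fun ω => by
        ring
      simp_rw [this]
      have hA : Integrable (fun ω => S ω ^ 2 - (2 * (n * θ)) * S ω) μ :=
        hS2i.sub (hSi.const_mul _)
      have hB : Integrable (fun ω => (2 * (n * θ)) * S ω) μ := hSi.const_mul _
      rw [integral_add hA (integrable_const _), integral_sub hS2i hB, integral_const_mul, hS1]
      simp
      ring
    linarith
  have hup : ∫ ω, S ω ^ 2 ∂μ ≤ n * θ + n ^ 2 * (θ ^ 2 / 2) := by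
    rw [hS2]
    have hbd : ∀ i ∈ Finset.range n, ∑ j ∈ Finset.range n, μ.real (I i ∩ I j) ≤
        θ + n * (θ ^ 2 / 2) := by
      intro i hi
      rw [← Finset.add_sum_erase _ _ hi]
      have h1 : μ.real (I i ∩ I i) = θ := by rw [inter_self, h i]
      have h2 : ∑ j ∈ (Finset.range n).erase i, μ.real (I i ∩ I j) ≤
          ∑ j ∈ (Finset.range n).erase i, θ ^ 2 / 2 := by
        refine Finset.sum_le_sum fun j hj => ?_
        have hne : j ≠ i := (Finset.mem_erase.mp hj).1
        rcases lt_or_gt_of_ne hne with hlt | hlt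
        · rw [inter_comm]
          exact (hcon j i hlt).le
        · exact (hcon i j hlt).le
      have h3 : ∑ j ∈ (Finset.range n).erase i, θ ^ 2 / 2 ≤ n * (θ ^ 2 / 2) := by
        rw [Finset.sum_const, nsmul_eq_mul]
        refine mul_le_mul_of_nonneg_right ?_ (by positivity)
        have : ((Finset.range n).erase i).card ≤ n := by
          simpa using Finset.card_erase_le (s := Finset.range n) (a := i)
        exact_mod_cast this
      linarith
    calc ∑ i ∈ Finset.range n, ∑ j ∈ Finset.range n, μ.real (I i ∩ I j)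
        ≤ ∑ i ∈ Finset.range n, (θ + n * (θ ^ 2 / 2)) := Finset.sum_le_sum hbd
      _ = n * θ + n ^ 2 * (θ ^ 2 / 2) := by
        rw [Finset.sum_const, nsmul_eq_mul, Finset.card_range]; ring
  have hfin : (n : ℝ) * θ * (n * θ / 2) ≤ n * θ * 1 := by nlinarith
  have h1 : (n : ℝ) * θ / 2 ≤ 1 := le_of_mul_le_mul_left hfin (by positivity)
  have h2 : 2 < n * θ := by
    rw [div_lt_iff₀ hθ] at hn
    linarith
  linarith

section Pair
variable {b : ℕ} {p : unitInterval}

/-- translation invariance of connection probabilities -/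
theorem mu_conn_map (f : X b → X b) (hf : Function.Bijective f)
    (hadj : ∀ a c, adj (f a) (f c) ↔ adj a c) (hh : ∀ a, (f a).2 = a.2) (A : Set ℤ)
    (x y : X b) :
    mu (Sym2 (X b)) p {ω | Conn ω (RA A) (f x) (f y)} =
      mu (Sym2 (X b)) p {ω | Conn ω (RA A) x y} := by
  have himg : f '' (RA A) = RA A := by
    ext z
    constructor
    · rintro ⟨a, ha, rfl⟩
      show (f a).2 ∈ A
      rw [hh]; exact ha
    · intro hz
      obtain ⟨a, rfl⟩ := hf.2 z
      refine ⟨a, ?_, rfl⟩
      show a.2 ∈ A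
      rw [← hh]; exact hz
  have hmp := mp_inj (Sym2.map f) (Sym2.map.injective hf.1) p
  rw [← hmp.measure_preimage (measurableSet_conn (RA A) x y).nullMeasurableSet]
  congr 1
  ext ω
  show Conn ω (RA A) (f x) (f y) ↔ Conn (ω ∘ Sym2.map f) (RA A) x y
  rw [conn_map f hf.1 (fun a _ c _ => hadj a c), himg]

theorem clus_inf_map (f : X b → X b) (hf : Function.Bijective f)
    (hadj : ∀ a c, adj (f a) (f c) ↔ adj a c) (hh : ∀ a, (f a).2 = a.2) (A : Set ℤ) (x : X b) :
    mu (Sym2 (X b)) p {ω | (Clus ω (RA A) (f x)).Infinite} =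
      mu (Sym2 (X b)) p {ω | (Clus ω (RA A) x).Infinite} := by
  have himg : f '' (RA A) = RA A := by
    ext z
    constructor
    · rintro ⟨a, ha, rfl⟩
      show (f a).2 ∈ A
      rw [hh]; exact ha
    · intro hz
      obtain ⟨a, rfl⟩ := hf.2 z
      refine ⟨a, ?_, rfl⟩
      show a.2 ∈ A
      rw [← hh]; exact hz
  have hmp := mp_inj (Sym2.map f) (Sym2.map.injective hf.1) p
  rw [← hmp.measure_preimage (measurableSet_infinite_clus (RA A) x).nullMeasurableSet]
  congr 1
  ext ω
  show (Clus ω (RA A) (f x)).Infinite ↔ (Clus (ω ∘ Sym2.map f) (RA A) x).Infinite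
  have : Clus ω (RA A) (f x) = f '' (Clus (ω ∘ Sym2.map f) (RA A) x) := by
    ext z
    constructor
    · intro hz
      obtain ⟨a, rfl⟩ := hf.2 z
      refine ⟨a, ?_, rfl⟩
      show Conn (ω ∘ Sym2.map f) (RA A) x a
      rw [conn_map f hf.1 (fun a _ c _ => hadj a c), himg]
      exact hz
    · rintro ⟨a, ha, rfl⟩
      have ha' : Conn (ω ∘ Sym2.map f) (RA A) x a := ha
      rw [conn_map f hf.1 (fun a _ c _ => hadj a c), himg] at ha'
      exact ha'
  rw [this, Set.infinite_image_iff (hf.1.injOn)]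

/-- a point with an infinite cluster has an open edge -/
theorem exists_open_of_inf {ω : Sym2 (X b) → Bool} {A : Set ℤ} {x : X b}
    (h : (Clus ω (RA A) x).Infinite) : x.2 ∈ A ∧ ∃ y, ω s(x, y) = true := by
  obtain ⟨y, hy, hne⟩ := h.exists_notMem_finite (Set.finite_singleton x)
  have hy' : Conn ω (RA A) x y := hy
  have hne' : x ≠ y := fun h => hne (by rw [h]; rfl)
  refine ⟨?_, ?_⟩
  · rcases hy'.mem with h | ⟨h, _⟩
    · exact absurd h hne'
    · exact h
  · unfold Conn at hy'
    rcases Relation.ReflTransGen.cases_head hy' with h | ⟨a, h, _⟩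
    · exact absurd h hne'
    · exact ⟨a, h.2.1⟩

theorem incr_clus_inf (S : Set (X b)) (x : X b) :
    Incr {ω : Sym2 (X b) → Bool | (Clus ω S x).Infinite} := by
  intro ω ω' h hc
  exact hc.mono fun y hy => Conn.incr hy h

/-- `τ^r × id` -/
def liftTau (τ : Equiv.Perm (TV b)) (x : X b) : X b := (τ x.1, x.2)

theorem liftTau_bij (τ : Equiv.Perm (TV b)) : Function.Bijective (liftTau τ) := by
  constructor
  · rintro ⟨a, i⟩ ⟨c, j⟩ h
    simp only [liftTau, Prod.mk.injEq, EmbeddingLike.apply_eq_iff_eq] at h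
    exact Prod.ext h.1 h.2
  · rintro ⟨a, i⟩
    exact ⟨(τ.symm a, i), by simp [liftTau]⟩

theorem liftTau_adj {τ : Equiv.Perm (TV b)} (hτ : ∀ u v, tadj (τ u) (τ v) ↔ tadj u v)
    (a c : X b) : adj (liftTau τ a) (liftTau τ c) ↔ adj a c := by
  simp only [adj, liftTau, EmbeddingLike.apply_eq_iff_eq, hτ]

theorem exists_pair [NeZero b] {A : Set ℤ}
    (hU : ∀ᵐ ω ∂(mu (Sym2 (X b)) p), Uniq A ω) :
    0 < (p : ℝ) ∧ ∃ h ∈ A, ∃ c : ENNReal, 0 < c ∧ ∀ s : ℕ, ∃ n ≥ s, 0 < n ∧
      c ≤ mu (Sym2 (X b)) p {ω | Conn ω (RA A) (v0 b, h) ((false, List.replicate n 0), h)} := by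
  -- a point with an infinite cluster
  obtain ⟨x, hx⟩ : ∃ x : X b, 0 < mu (Sym2 (X b)) p {ω | (Clus ω (RA A) x).Infinite} := by
    by_contra hcon
    push Not at hcon
    have h0 : ∀ x : X b, ∀ᵐ ω ∂(mu (Sym2 (X b)) p), ¬ (Clus ω (RA A) x).Infinite := by
      intro x
      rw [ae_iff]
      simpa using nonpos_iff_eq_zero.mp (hcon x)
    have h1 : ∀ᵐ ω ∂(mu (Sym2 (X b)) p), False := by
      filter_upwards [hU, ae_all_iff.mpr h0] with ω h2 h3
      obtain ⟨x, hx⟩ := h2.1
      exact h3 x hx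
    rw [ae_iff] at h1
    simp at h1
  obtain ⟨v, h⟩ := x
  have hA : h ∈ A := by
    have : ({ω : Sym2 (X b) → Bool | (Clus ω (RA A) ((v, h) : X b)).Infinite}).Nonempty := by
      rw [Set.nonempty_iff_ne_empty]
      intro h0
      rw [h0] at hx
      simp at hx
    obtain ⟨ω, hω⟩ := this
    exact (exists_open_of_inf hω).1
  have hp : 0 < ENNReal.ofReal (p : ℝ) := by
    by_contra h0
    have h0' : ENNReal.ofReal (p : ℝ) = 0 := nonpos_iff_eq_zero.mp (not_lt.mp h0)
    have h1 : ∀ e : Sym2 (X b), mu (Sym2 (X b)) p {ω | ω e = true} = 0 := by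
      intro e
      have := mu_open {e} p
      rw [h0'] at this
      simpa using this
    have h2 : mu (Sym2 (X b)) p {ω | (Clus ω (RA A) ((v, h) : X b)).Infinite} ≤
        mu (Sym2 (X b)) p (⋃ y : X b, {ω | ω s((v, h), y) = true}) := by
      refine measure_mono fun ω hω => ?_
      obtain ⟨y, hy⟩ := (exists_open_of_inf hω).2
      exact mem_iUnion.mpr ⟨y, hy⟩
    have h3 : mu (Sym2 (X b)) p (⋃ y : X b, {ω | ω s((v, h), y) = true}) = 0 :=
      measure_iUnion_null fun y => h1 _
    rw [h3] at h2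
    exact absurd hx (not_lt.mpr h2)
  have hp' : 0 < (p : ℝ) := ENNReal.ofReal_pos.mp hp
  refine ⟨hp', h, hA, ?_⟩
  -- move to the root
  have hθ : 0 < mu (Sym2 (X b)) p {ω | (Clus ω (RA A) ((v0 b, h) : X b)).Infinite} := by
    obtain ⟨P, hP⟩ := tree_link (v0 b) v
    have h1 := mu_force (P.image (Sym2.map (fun u => ((u, h) : X b))))
      (measurableSet_infinite_clus (RA A) ((v, h) : X b)) (incr_clus_inf (RA A) (v, h)) p
    refine lt_of_lt_of_le (ENNReal.mul_pos (pow_ne_zero _ hp.ne') hx.ne') (h1.trans ?_)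
    refine measure_mono ?_
    rintro ω ⟨h2, h3⟩
    have h4 : Conn ω {x | x.2 = h} (v0 b, h) (v, h) := by
      refine hP ω h fun e he => h3 _ ?_
      exact Finset.mem_image_of_mem _ he
    have h5 : Conn ω (RA A) (v0 b, h) (v, h) := by
      refine h4.mono ?_
      intro z hz
      show z.2 ∈ A
      rw [show z.2 = h from hz]; exact hA
    show (Clus ω (RA A) ((v0 b, h) : X b)).Infinite
    rw [clus_eq h5]
    exact h2
  obtain ⟨τ, hτ, hτa⟩ := exists_tau (b := b)
  set θ : ℝ := (mu (Sym2 (X b)) p).real {ω | (Clus ω (RA A) ((v0 b, h) : X b)).Infinite} with hθd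
  have hθ' : 0 < θ := by
    rw [hθd, measureReal_def]
    exact ENNReal.toReal_pos hθ.ne' (measure_ne_top _ _)
  refine ⟨ENNReal.ofReal (θ ^ 2 / 2), ENNReal.ofReal_pos.mpr (by positivity), fun s => ?_⟩
  set s' := max s 1 with hs'
  have hs1 : 1 ≤ s' := le_max_right _ _
  set I : ℕ → Set (Sym2 (X b) → Bool) := fun i =>
    {ω | (Clus ω (RA A) (((false, List.replicate (i * s') 0), h) : X b)).Infinite} with hI
  have hpt : ∀ r : ℕ, ∀ l : List (Fin b), liftTau (τ ^ r) (((false, l), h) : X b) =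
      ((false, List.replicate r 0 ++ l), h) := by
    intro r l
    simp only [liftTau]
    rw [tau_pow_false hτ]
  have hIreal : ∀ i, (mu (Sym2 (X b)) p).real (I i) = θ := by
    intro i
    rw [hθd, measureReal_def, measureReal_def]
    congr 1
    have := clus_inf_map (p := p) (liftTau (τ ^ (i * s'))) (liftTau_bij _)
      (liftTau_adj (tau_pow_adj hτa _)) (fun _ => rfl) A ((v0 b, h) : X b)
    rw [← this]
    have h2 := hpt (i * s') []
    rw [List.append_nil] at h2
    have h3 : liftTau (τ ^ (i * s')) ((v0 b, h) : X b) =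
        ((false, List.replicate (i * s') 0), h) := h2
    rw [h3]
  obtain ⟨i, j, hij, hcij⟩ := exists_pair_of_prob (mu (Sym2 (X b)) p) I
    (fun i => measurableSet_infinite_clus _ _) hθ' hIreal
  refine ⟨(j - i) * s', ?_, ?_, ?_⟩
  · calc s ≤ s' := le_max_left _ _
      _ = 1 * s' := (one_mul _).symm
      _ ≤ (j - i) * s' := Nat.mul_le_mul_right _ (by omega)
  · exact Nat.mul_pos (by omega) hs1
  · have h1 : ENNReal.ofReal (θ ^ 2 / 2) ≤ mu (Sym2 (X b)) p (I i ∩ I j) := by
      rw [measureReal_def] at hcij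
      rw [← ENNReal.ofReal_toReal (measure_ne_top (mu (Sym2 (X b)) p) (I i ∩ I j))]
      exact ENNReal.ofReal_le_ofReal hcij
    refine h1.trans ?_
    have h2 : mu (Sym2 (X b)) p (I i ∩ I j) ≤ mu (Sym2 (X b)) p {ω | Conn ω (RA A)
        (((false, List.replicate (i * s') 0), h) : X b)
        (((false, List.replicate (j * s') 0), h) : X b)} := by
      refine measure_mono_ae ?_
      filter_upwards [hU] with ω hω hh
      exact hω.2 _ _ hh.1 hh.2
    refine h2.trans (le_of_eq ?_)
    have h3 := mu_conn_map (p := p) (liftTau (τ ^ (i * s'))) (liftTau_bij _)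
      (liftTau_adj (tau_pow_adj hτa _)) (fun _ => rfl) A ((v0 b, h) : X b)
      (((false, List.replicate ((j - i) * s') 0), h) : X b)
    rw [← h3]
    have h4 := hpt (i * s') []
    rw [List.append_nil] at h4
    have h5 : liftTau (τ ^ (i * s')) ((v0 b, h) : X b) =
        ((false, List.replicate (i * s') 0), h) := h4
    rw [h5, hpt]
    have h6 : List.replicate (i * s') (0 : Fin b) ++ List.replicate ((j - i) * s') 0 =
        List.replicate (j * s') 0 := by
      rw [List.replicate_append_replicate, ← Nat.add_mul]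
      congr 2
      omega
    rw [h6]

end Pair

end Pool.Agent.Helper69.TL
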