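import Pool.Agent.Helper69.TL.Rot
import Pool.Agent.Helper69.TL.Pair
import Pool.Agent.Helper69.TL.Box
import Pool.Agent.Helper69.TL.Chain

/-!
# MP_b6f052_pr: uniqueness implies the finite-volume criterion
-/

open MeasureTheory Set

namespace Pool.Agent.Helper69.TL


theorem fat_of_uniq {b : ℕ} (hb : 2 ≤ b) {p : unitInterval} {A : Set ℤ}
    (hU : ∀ᵐ ω ∂(mu (Sym2 (X b)) p), Uniq A ω) : Fat b p := by
  haveI : NeZero b := ⟨by omega⟩
  obtain ⟨hp, h, hA, c, hc, hpair⟩ := exists_pair hU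
  have hc1 : c ≤ 1 := by
    obtain ⟨n, _, _, hn⟩ := hpair 0
    exact hn.trans prob_le_one
  have hctop : c ≠ ⊤ := ne_top_of_le_ne_top ENNReal.one_ne_top hc1
  have hc2 : c / 2 < c := ENNReal.half_lt_self hc.ne' hctop
  set cr : ℝ := (c / 2).toReal with hcr
  have hcr0 : 0 < cr := by
    apply ENNReal.toReal_pos
    · exact (ENNReal.half_pos hc.ne').ne'
    · exact (ENNReal.div_lt_top hctop (by norm_num)).ne
  have hbr : (1 : ℝ) < b := by exact_mod_cast (by omega : 1 < b)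
  obtain ⟨s, hs⟩ := pow_unbounded_of_one_lt (1 / cr ^ 2) hbr
  obtain ⟨n, hns, hn0, hn⟩ := hpair s
  obtain ⟨r, hr0, hrh, hbox⟩ := exists_box hc2 hn
  have hκ : 1 < (b : ℝ) ^ n * cr ^ 2 := by
    have h1 : 1 / cr ^ 2 < (b : ℝ) ^ n :=
      hs.trans_le (pow_le_pow_right₀ hbr.le hns)
    rwa [div_lt_iff₀ (by positivity)] at h1
  have hpos : 0 < (b : ℝ) ^ (3 * r) * ((p : ℝ) ^ (3 * r)) ^ 2 := by positivity
  obtain ⟨L, hL⟩ := pow_unbounded_of_one_lt (1 / ((b : ℝ) ^ (3 * r) * ((p : ℝ) ^ (3 * r)) ^ 2)) hκ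
  have hchain := chain_bound (p := p) hr0 hrh hn0 hbox L
  refine ⟨L * n + 3 * r, 2 * r, (h + r).toNat, ?_, ?_, ?_⟩
  · omega
  · have := abs_le.mp hrh
    omega
  · set N := L * n + 3 * r with hN
    set q : ℝ := (mu (Sym2 (X b)) p).real {ω | List.replicate N 0 ∈
      Off N (2 * r) (h + r).toNat ω (v0 b) 0} with hq
    have hqw : ∀ w : Fin N → Fin b, (mu (Sym2 (X b)) p).real {ω | List.ofFn w ∈
        Off N (2 * r) (h + r).toNat ω (v0 b) 0} = q := by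
      intro w
      rw [hq, measureReal_def, measureReal_def,
        mu_off_rot N (2 * r) (h + r).toNat p (List.ofFn w) (List.length_ofFn)]
    have hqlow : (p : ℝ) ^ (3 * r) * cr ^ L ≤ q := by
      have h1 : (ENNReal.ofReal p ^ (3 * r) * (c / 2) ^ L).toReal ≤ q := by
        rw [hq, measureReal_def]
        exact ENNReal.toReal_mono (measure_ne_top _ _) hchain
      rw [ENNReal.toReal_mul, ENNReal.toReal_pow, ENNReal.toReal_pow,
        ENNReal.toReal_ofReal p.2.1] at h1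
      exact h1
    have hsum : ∑ w : Fin N → Fin b, ((mu (Sym2 (X b)) p).real {ω | List.ofFn w ∈
        Off N (2 * r) (h + r).toNat ω (v0 b) 0}) ^ 2 = (b : ℝ) ^ N * q ^ 2 := by
      simp only [hqw]
      rw [Finset.sum_const, Finset.card_univ, Fintype.card_fun, Fintype.card_fin,
        Fintype.card_fin, nsmul_eq_mul]
      push_cast
      ring
    rw [hsum]
    have h0 : 0 ≤ (p : ℝ) ^ (3 * r) * cr ^ L := by positivity
    have h1 : ((p : ℝ) ^ (3 * r) * cr ^ L) ^ 2 ≤ q ^ 2 := pow_le_pow_left₀ h0 hqlow 2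
    have h2 : (b : ℝ) ^ N * ((p : ℝ) ^ (3 * r) * cr ^ L) ^ 2 =
        ((b : ℝ) ^ n * cr ^ 2) ^ L * ((b : ℝ) ^ (3 * r) * ((p : ℝ) ^ (3 * r)) ^ 2) := by
      rw [hN, pow_add, pow_mul']
      ring
    have h3 : 1 < ((b : ℝ) ^ n * cr ^ 2) ^ L * ((b : ℝ) ^ (3 * r) * ((p : ℝ) ^ (3 * r)) ^ 2) := by
      rwa [div_lt_iff₀ hpos] at hL
    calc 1 < (b : ℝ) ^ N * ((p : ℝ) ^ (3 * r) * cr ^ L) ^ 2 := by rw [h2]; exact h3
      _ ≤ (b : ℝ) ^ N * q ^ 2 := by gcongr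

end Pool.Agent.Helper69.TL
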