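import Pool.Agent.Helper69.TL.Merge
import Pool.Agent.Helper69.TL.Exist
import Pool.Agent.Helper69.TL.Hit

/-!
# MP_b6f052_pr: the finite-volume criterion implies uniqueness
-/

open MeasureTheory Set

namespace Pool.Agent.Helper69.TL

theorem uniq_of_fat {b : ℕ} {p : unitInterval} (hb : 0 < b) (H : Fat b p) {A : Set ℤ}
    (hA : IsUpperSet A) (h0 : (0 : ℤ) ∈ A) : ∀ᵐ ω ∂(mu (Sym2 (X b)) p), Uniq A ω := by
  obtain ⟨N, M, m, H⟩ := H
  have h1 := ae_exists_good H hA h0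
  have h2 : ∀ᵐ ω ∂(mu (Sym2 (X b)) p), ∀ x : X b, (Clus ω (RA A) x).Infinite →
      ∃ v j, j ∈ A ∧ ω ∈ Good N M m p v j ∧ Conn ω (RA A) x (v, j + m) :=
    ae_all_iff.mpr fun x => ae_hit_good H hb hA x
  have h3 : ∀ᵐ ω ∂(mu (Sym2 (X b)) p), ∀ (v v' : TV b) (j j' : ℤ), j ∈ A → j' ∈ A →
      ω ∈ Good N M m p v j → ω ∈ Good N M m p v' j' →
      Conn ω (RA A) (v, j + m) (v', j' + m) := by
    rw [ae_all_iff]; intro v
    rw [ae_all_iff]; intro v'
    rw [ae_all_iff]; intro j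
    rw [ae_all_iff]; intro j'
    by_cases hj : j ∈ A
    · by_cases hj' : j' ∈ A
      · filter_upwards [ae_merge H hA v v' hj hj'] with ω h _ _
        exact h
      · exact Filter.Eventually.of_forall fun ω _ h => absurd h hj'
    · exact Filter.Eventually.of_forall fun ω h => absurd h hj
  filter_upwards [h1, h2, h3] with ω h1 h2 h3
  constructor
  · obtain ⟨j, hj, hg⟩ := h1
    refine ⟨(v0 b, j + m), (good_infinite H hg).mono (clus_mono ?_)⟩
    intro x hx
    exact hA hx.1 hj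
  · intro x y hx hy
    obtain ⟨v, j, hj, hg, hc⟩ := h2 x hx
    obtain ⟨v', j', hj', hg', hc'⟩ := h2 y hy
    exact (hc.trans (h3 v v' j j' hj hj' hg hg')).trans hc'.symm

end Pool.Agent.Helper69.TL
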