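import Mathlib

/-!
# Bernoulli bond percolation and the uniqueness threshold (MP_b6f052_pr)
-/

open MeasureTheory Set

namespace Pool.Agent.Helper69.TL

/-- law of the state of one edge: `true` (open) with probability `p` -/
noncomputable def edgeLaw (p : unitInterval) : Measure Bool :=
  ENNReal.ofReal (p : ℝ) • Measure.dirac true + ENNReal.ofReal (1 - (p : ℝ)) • Measure.dirac false

instance (p : unitInterval) : IsProbabilityMeasure (edgeLaw p) := by
  constructor
  simp only [edgeLaw, Measure.coe_add, Measure.coe_smul, Pi.add_apply, Pi.smul_apply,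
    measure_univ, smul_eq_mul, mul_one]
  rw [← ENNReal.ofReal_add p.2.1 (by linarith [p.2.2])]
  simp

/-- Bernoulli bond percolation on `G`: the edges are open (`true`) independently with
probability `p` -/
noncomputable def perc {V : Type*} (G : SimpleGraph V) (p : unitInterval) :
    Measure (G.edgeSet → Bool) :=
  Measure.infinitePi fun _ => edgeLaw p

/-- the graph of open edges -/
def openGraph {V : Type*} (G : SimpleGraph V) (ω : G.edgeSet → Bool) : SimpleGraph V where
  Adj x y := ∃ h : G.Adj x y, ω ⟨s(x, y), h⟩ = true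
  symm := ⟨by
    rintro x y ⟨h, hω⟩
    refine ⟨h.symm, ?_⟩
    have : (⟨s(y, x), h.symm⟩ : G.edgeSet) = ⟨s(x, y), h⟩ := Subtype.ext Sym2.eq_swap
    rw [this]; exact hω⟩
  loopless := ⟨by
    rintro x ⟨h, _⟩
    exact G.loopless.irrefl x h⟩

/-- exactly one infinite open cluster -/
def UniqueInfinite {V : Type*} (H : SimpleGraph V) : Prop :=
  ∃! C : H.ConnectedComponent, C.supp.Infinite

/-- the uniqueness threshold -/
noncomputable def pu {V : Type*} (G : SimpleGraph V) : ℝ :=
  sInf {p : ℝ | ∃ h : p ∈ unitInterval, ∀ᵐ ω ∂(perc G ⟨p, h⟩), UniqueInfinite (openGraph G ω)}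

end Pool.Agent.Helper69.TL
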