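import Pool.Agent.Helper69.TL.Defs
import Pool.Agent.Helper69.TL.T1
import Pool.Agent.Helper69.TL.BA

open MeasureTheory Set

namespace Pool.Agent.Helper69.TL

section Rot

variable {b : ℕ} [NeZero b]

/-- letterwise addition from the root -/
def rotL : List (Fin b) → List (Fin b) → List (Fin b)
  | _, [] => []
  | [], x :: l => x :: l
  | a :: w, x :: l => (x + a) :: rotL w l

theorem rotL_nil (w : List (Fin b)) : rotL w [] = [] := by
  cases w <;> rfl

theorem rotL_length (w l : List (Fin b)) : (rotL w l).length = l.length := by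
  induction l generalizing w with
  | nil => rw [rotL_nil]
  | cons x l ih =>
    cases w with
    | nil => rfl
    | cons a w => simp [rotL, ih]

theorem rotL_neg (w l : List (Fin b)) : rotL (w.map (fun a => -a)) (rotL w l) = l := by
  induction l generalizing w with
  | nil => rw [rotL_nil, rotL_nil]
  | cons x l ih =>
    cases w with
    | nil => rfl
    | cons a w => simp [rotL, ih]

theorem rotL_neg' (w l : List (Fin b)) : rotL w (rotL (w.map (fun a => -a)) l) = l := by
  have h := rotL_neg (w.map (fun a => -a)) l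
  rw [List.map_map] at h
  have : ((fun a : Fin b => -a) ∘ fun a => -a) = id := by
    funext a; simp
  rw [this, List.map_id] at h
  exact h

theorem rotL_append (w l : List (Fin b)) (i : Fin b) :
    ∃ i', rotL w (l ++ [i]) = rotL w l ++ [i'] := by
  induction l generalizing w with
  | nil =>
    cases w with
    | nil => exact ⟨i, rfl⟩
    | cons a w => exact ⟨i + a, by simp [rotL]⟩
  | cons x l ih =>
    cases w with
    | nil => exact ⟨i, rfl⟩
    | cons a w =>
      obtain ⟨i', hi'⟩ := ih w
      exact ⟨i', by simp [rotL, hi']⟩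

theorem rotL_replicate (N : ℕ) (w : List (Fin b)) (hw : w.length = N) :
    rotL w (List.replicate N 0) = w := by
  induction N generalizing w with
  | zero =>
    rw [List.length_eq_zero_iff] at hw
    subst hw
    rfl
  | succ N ih =>
    cases w with
    | nil => simp at hw
    | cons a w =>
      rw [List.replicate_succ]
      simp only [rotL, zero_add]
      rw [ih w (by simpa using hw)]

/-- rotation of the `false` side of the tree -/
def rotV (w : List (Fin b)) (u : TV b) : TV b :=
  (u.1, if u.1 = false then rotL w u.2 else u.2)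

theorem rotV_neg (w : List (Fin b)) (u : TV b) : rotV (w.map (fun a => -a)) (rotV w u) = u := by
  obtain ⟨s, l⟩ := u
  cases s
  · simp [rotV, rotL_neg]
  · simp [rotV]

theorem rotV_neg' (w : List (Fin b)) (u : TV b) : rotV w (rotV (w.map (fun a => -a)) u) = u := by
  obtain ⟨s, l⟩ := u
  cases s
  · simp [rotV, rotL_neg']
  · simp [rotV]

theorem rotV_inj (w : List (Fin b)) : Function.Injective (rotV w) :=
  Function.LeftInverse.injective (rotV_neg w)

theorem rotV_tadj (w : List (Fin b)) {u v : TV b} (h : tadj u v) : tadj (rotV w u) (rotV w v) := by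
  obtain ⟨s, l⟩ := u
  obtain ⟨s', l'⟩ := v
  rcases h with ⟨h1, i, h2⟩ | ⟨h1, i, h2⟩ | ⟨h1, h2, h3⟩
  · simp only at h1 h2
    subst h1 h2
    left
    refine ⟨rfl, ?_⟩
    cases s
    · obtain ⟨i', hi'⟩ := rotL_append w l i
      exact ⟨i', by simp [rotV, hi']⟩
    · exact ⟨i, by simp [rotV]⟩
  · simp only at h1 h2
    subst h1 h2
    right; left
    refine ⟨rfl, ?_⟩
    cases s
    · obtain ⟨i', hi'⟩ := rotL_append w l' i
      exact ⟨i', by simp [rotV, hi']⟩
    · exact ⟨i, by simp [rotV]⟩
  · simp only at h1 h2 h3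
    subst h2 h3
    right; right
    refine ⟨h1, ?_, ?_⟩
    · simp [rotV, rotL_nil]
    · simp [rotV, rotL_nil]

theorem rotV_tadj_iff (w : List (Fin b)) {u v : TV b} :
    tadj (rotV w u) (rotV w v) ↔ tadj u v := by
  refine ⟨fun h => ?_, rotV_tadj w⟩
  have := rotV_tadj (w.map (fun a => -a)) h
  rwa [rotV_neg, rotV_neg] at this

/-- rotation on tree times `ℤ` -/
def rotX (w : List (Fin b)) (x : X b) : X b := (rotV w x.1, x.2)

theorem rotX_inj (w : List (Fin b)) : Function.Injective (rotX w) := by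
  rintro ⟨u, h⟩ ⟨v, k⟩ heq
  simp only [rotX, Prod.mk.injEq] at heq
  rw [rotV_inj w heq.1, heq.2]

theorem rotX_adj_iff (w : List (Fin b)) (x y : X b) :
    adj (rotX w x) (rotX w y) ↔ adj x y := by
  unfold adj rotX
  simp only
  rw [rotV_tadj_iff, (rotV_inj w).eq_iff]

theorem rotX_mem_reg (w : List (Fin b)) (N M m : ℕ) {x : X b} (hx : x ∈ Reg N M m (v0 b) 0) :
    rotX w x ∈ Reg N M m (v0 b) 0 := by
  obtain ⟨l, hl, h⟩ := hx
  refine ⟨rotL w l, ?_, ?_⟩
  · simp only [rotX]
    rw [hl]
    simp [desc, v0, rotV]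
  · rw [rotL_length]
    rcases h with ⟨h1, h2⟩ | h | h
    · left
      exact ⟨by rw [h1, rotL_nil], h2⟩
    · right; left; exact h
    · right; right; exact h

theorem rotX_image_reg (w : List (Fin b)) (N M m : ℕ) :
    rotX w '' (Reg N M m (v0 b) 0) = Reg N M m (v0 b) 0 := by
  apply Subset.antisymm
  · rintro _ ⟨x, hx, rfl⟩
    exact rotX_mem_reg w N M m hx
  · intro x hx
    refine ⟨rotX (w.map (fun a => -a)) x, rotX_mem_reg _ N M m hx, ?_⟩
    simp only [rotX]
    rw [rotV_neg']

end Rot

theorem mu_off_rot {b : ℕ} [NeZero b] (N M m : ℕ) (p : unitInterval) (w : List (Fin b))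
    (hw : w.length = N) :
    mu (Sym2 (X b)) p {ω | w ∈ Off N M m ω (v0 b) 0} =
      mu (Sym2 (X b)) p {ω | List.replicate N 0 ∈ Off N M m ω (v0 b) 0} := by
  have hset : ∀ l : List (Fin b), l.length = N →
      {ω : Sym2 (X b) → Bool | l ∈ Off N M m ω (v0 b) 0}
        = {ω | Conn ω (Reg N M m (v0 b) 0) (v0 b, (0 : ℤ) + m) (desc (v0 b) l, (0 : ℤ) + m)} := by
    intro l hl
    ext ω
    simp [Off, hl]
  rw [hset w hw, hset (List.replicate N 0) (by simp)]
  have hmp := mp_inj (Sym2.map (rotX w)) (Sym2.map.injective (rotX_inj w)) p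
  have hm := measurableSet_conn (Reg N M m (v0 b) 0) (v0 b, (0 : ℤ) + m)
    (desc (v0 b) (List.replicate N (0 : Fin b)), (0 : ℤ) + m)
  rw [← hmp.measure_preimage hm.nullMeasurableSet]
  congr 1
  ext ω
  simp only [mem_preimage, mem_setOf_eq]
  rw [conn_map (rotX w) (rotX_inj w) (fun a _ c _ => rotX_adj_iff w a c), rotX_image_reg]
  have e1 : rotX w (v0 b, (0 : ℤ) + m) = (v0 b, (0 : ℤ) + m) := by
    simp [rotX, rotV, v0, rotL_nil]
  have e2 : rotX w (desc (v0 b) (List.replicate N (0 : Fin b)), (0 : ℤ) + m)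
      = (desc (v0 b) w, (0 : ℤ) + m) := by
    simp [rotX, rotV, v0, desc, rotL_replicate N w hw]
  rw [e1, e2]

end Pool.Agent.Helper69.TL
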