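import Pool.Agent.Helper69.TL.T1

/-!
# T2: Harris inequality for cylinder events
-/

open MeasureTheory Set

namespace Pool.Agent.Helper69.TL

section T2
variable {ι : Type*} {p : unitInterval}

/-- conditioning on one coordinate -/
theorem mu_split [DecidableEq ι] (i : ι) {A : Set (ι → Bool)} (hA : MeasurableSet A)
    (p : unitInterval) :
    mu ι p A = ENNReal.ofReal (p : ℝ) * mu ι p {ω | Function.update ω i true ∈ A}
      + ENNReal.ofReal (1 - (p : ℝ)) * mu ι p {ω | Function.update ω i false ∈ A} := by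
  rw [mu_eq_lintegral_mix {i} hA p]
  have h1 : ∀ ω : ι → Bool, mu ι p {ω' | mix {i} ω ω' ∈ A}
      = (fun x : Bool => mu ι p {ω' | Function.update ω' i x ∈ A}) (ω i) := by
    intro ω
    have : ∀ ω' : ι → Bool, mix {i} ω ω' = Function.update ω' i (ω i) := by
      intro ω'
      funext j
      by_cases hj : j = i
      · subst hj
        rw [mix_apply_of_mem (Set.mem_singleton j)]
        simp
      · rw [mix_apply_of_notMem (by simpa using hj)]
        simp [hj]
    simp only [this]
  rw [lintegral_congr h1]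
  have hmp : MeasurePreserving (Function.eval i) (mu ι p) (edgeLaw p) :=
    measurePreserving_eval_infinitePi (fun _ : ι => edgeLaw p) i
  have h2 : ∫⁻ ω : ι → Bool, (fun x : Bool => mu ι p {ω' | Function.update ω' i x ∈ A}) (ω i) ∂(mu ι p)
      = ∫⁻ x, mu ι p {ω' | Function.update ω' i x ∈ A} ∂(edgeLaw p) :=
    hmp.lintegral_comp (f := fun x : Bool => mu ι p {ω' | Function.update ω' i x ∈ A})
      (measurable_of_finite _)
  rw [h2]
  unfold edgeLaw
  rw [lintegral_add_measure, lintegral_smul_measure, lintegral_smul_measure, lintegral_dirac,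
    lintegral_dirac]
  rfl

theorem harris {A B : Set (ι → Bool)} (hA : MeasurableSet A) (hB : MeasurableSet B)
    (iA : Incr A) (iB : Incr B) (J : Finset ι) (dA : Dep A ↑J) (dB : Dep B ↑J)
    (p : unitInterval) : mu ι p A * mu ι p B ≤ mu ι p (A ∩ B) := by
  classical
  induction J using Finset.induction_on generalizing A B with
  | empty =>
    rcases A.eq_empty_or_nonempty with h | ⟨ω, hω⟩
    · simp [h]
    · have : A = Set.univ := by
        ext ω'
        simp only [Set.mem_univ, iff_true]
        exact (dA ω ω' (fun i hi => by simp at hi)).1 hω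
      rw [this]; simp
  | insert i J hi ih =>
    have hmu : ∀ x : Bool, Measurable fun ω : ι → Bool => Function.update ω i x := by
      intro x
      exact measurable_update' (a := i) |>.comp (measurable_id.prodMk measurable_const)
    have hdep : ∀ {C : Set (ι → Bool)}, Dep C ↑(insert i J) → ∀ x : Bool,
        Dep {ω | Function.update ω i x ∈ C} ↑J := by
      intro C dC x ω ω' hω
      refine dC _ _ fun j hj => ?_
      by_cases hji : j = i
      · subst hji; simp
      · have hjJ : j ∈ J := by
          have : j ∈ insert i J := hj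
          rw [Finset.mem_insert] at this
          exact this.resolve_left hji
        simp [hji, hω j hjJ]
    have hincr : ∀ {C : Set (ι → Bool)}, Incr C → ∀ x : Bool,
        Incr {ω | Function.update ω i x ∈ C} := by
      intro C iC x ω ω' hω h
      refine iC _ _ ?_ h
      intro j hj
      by_cases hji : j = i
      · subst hji; simpa using hj
      · simp only [Function.update_of_ne hji] at hj ⊢
        exact hω j hj
    have hmono : ∀ {C : Set (ι → Bool)}, Incr C →
        mu ι p {ω | Function.update ω i false ∈ C} ≤ mu ι p {ω | Function.update ω i true ∈ C} := by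
      intro C iC
      refine measure_mono fun ω h => ?_
      refine iC _ _ ?_ h
      intro j hj
      by_cases hji : j = i
      · subst hji; simp
      · simp only [Function.update_of_ne hji] at hj ⊢
        exact hj
    have key : ∀ x : Bool, mu ι p {ω | Function.update ω i x ∈ A} *
        mu ι p {ω | Function.update ω i x ∈ B} ≤ mu ι p {ω | Function.update ω i x ∈ A ∩ B} :=
      fun x => ih (hmu x hA) (hmu x hB) (hincr iA x) (hincr iB x) (hdep dA x) (hdep dB x)
    rw [mu_split i hA p, mu_split i hB p, mu_split i (hA.inter hB) p]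
    have ha := hmono iA
    have hb := hmono iB
    have k1 := key true
    have k0 := key false
    have fin : ∀ C : Set (ι → Bool), mu ι p C ≠ ⊤ := fun C => measure_ne_top _ _
    obtain ⟨a1, e1⟩ : ∃ a1 : NNReal, mu ι p {ω | Function.update ω i true ∈ A} = a1 :=
      ⟨_, (ENNReal.coe_toNNReal (fin _)).symm⟩
    obtain ⟨a0, e2⟩ : ∃ a1 : NNReal, mu ι p {ω | Function.update ω i false ∈ A} = a1 :=
      ⟨_, (ENNReal.coe_toNNReal (fin _)).symm⟩
    obtain ⟨b1, e3⟩ : ∃ a1 : NNReal, mu ι p {ω | Function.update ω i true ∈ B} = a1 :=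
      ⟨_, (ENNReal.coe_toNNReal (fin _)).symm⟩
    obtain ⟨b0, e4⟩ : ∃ a1 : NNReal, mu ι p {ω | Function.update ω i false ∈ B} = a1 :=
      ⟨_, (ENNReal.coe_toNNReal (fin _)).symm⟩
    obtain ⟨c1, e5⟩ : ∃ a1 : NNReal, mu ι p {ω | Function.update ω i true ∈ A ∩ B} = a1 :=
      ⟨_, (ENNReal.coe_toNNReal (fin _)).symm⟩
    obtain ⟨c0, e6⟩ : ∃ a1 : NNReal, mu ι p {ω | Function.update ω i false ∈ A ∩ B} = a1 :=
      ⟨_, (ENNReal.coe_toNNReal (fin _)).symm⟩
    rw [e1, e2] at ha
    rw [e3, e4] at hb
    rw [e1, e3, e5] at k1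
    rw [e2, e4, e6] at k0
    rw [e1, e2, e3, e4, e5, e6]
    have hp0 : (0 : ℝ) ≤ p := p.2.1
    have hp1 : (p : ℝ) ≤ 1 := p.2.2
    norm_cast at ha hb k1 k0
    unfold ENNReal.ofReal
    norm_cast
    rw [← NNReal.coe_le_coe]
    push_cast
    rw [Real.coe_toNNReal _ hp0, Real.coe_toNNReal _ (by linarith)]
    have ha' : (a0 : ℝ) ≤ a1 := by exact_mod_cast ha
    have hb' : (b0 : ℝ) ≤ b1 := by exact_mod_cast hb
    have k1' : (a1 : ℝ) * b1 ≤ c1 := by exact_mod_cast k1
    have k0' : (a0 : ℝ) * b0 ≤ c0 := by exact_mod_cast k0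
    have h3 : 0 ≤ (p : ℝ) * (1 - p) * ((a1 - a0) * (b1 - b0)) :=
      mul_nonneg (mul_nonneg hp0 (by linarith)) (mul_nonneg (by linarith) (by linarith))
    have h4 : (p : ℝ) * (a1 * b1) ≤ p * c1 := mul_le_mul_of_nonneg_left k1' hp0
    have h5 : (1 - (p : ℝ)) * (a0 * b0) ≤ (1 - p) * c0 :=
      mul_le_mul_of_nonneg_left k0' (by linarith)
    nlinarith [h3, h4, h5]

theorem Incr.inter {A B : Set (ι → Bool)} (iA : Incr A) (iB : Incr B) : Incr (A ∩ B) :=
  fun ω ω' h hω => ⟨iA ω ω' h hω.1, iB ω ω' h hω.2⟩

theorem harris_range (L : ℕ) (E : ℕ → Set (ι → Bool)) (J : ℕ → Finset ι)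
    (hE : ∀ n, MeasurableSet (E n)) (iE : ∀ n, Incr (E n)) (dE : ∀ n, Dep (E n) ↑(J n))
    (p : unitInterval) {c : ENNReal} (hc : ∀ n, c ≤ mu ι p (E n)) :
    c ^ L ≤ mu ι p (⋂ n ∈ Finset.range L, E n) := by
  classical
  induction L with
  | zero => simp
  | succ L ih =>
    have hset : (⋂ n ∈ Finset.range (L + 1), E n) = (⋂ n ∈ Finset.range L, E n) ∩ E L := by
      ext ω
      simp only [Set.mem_iInter, Finset.mem_range, Set.mem_inter_iff]
      constructor
      · intro h
        exact ⟨fun n hn => h n (by omega), h L (by omega)⟩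
      · rintro ⟨h1, h2⟩ n hn
        rcases Nat.lt_succ_iff_lt_or_eq.1 hn with h3 | h3
        · exact h1 n h3
        · exact h3 ▸ h2
    have hmeas : MeasurableSet (⋂ n ∈ Finset.range L, E n) :=
      Finset.measurableSet_biInter _ fun n _ => hE n
    have hincr : Incr (⋂ n ∈ Finset.range L, E n) := by
      intro ω ω' h hω
      simp only [Set.mem_iInter] at hω ⊢
      exact fun n hn => iE n ω ω' h (hω n hn)
    set K : Finset ι := (Finset.range L).biUnion J ∪ J L with hK
    have d1 : Dep (⋂ n ∈ Finset.range L, E n) ↑K := by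
      intro ω ω' h
      simp only [Set.mem_iInter]
      refine forall_congr' fun n => forall_congr' fun hn => dE n ω ω' fun i hi => h i ?_
      rw [hK]
      simp only [Finset.coe_union, Set.mem_union, Finset.mem_coe, Finset.mem_biUnion]
      exact Or.inl ⟨n, hn, hi⟩
    have d2 : Dep (E L) ↑K := by
      intro ω ω' h
      refine dE L ω ω' fun i hi => h i ?_
      rw [hK]
      simp only [Finset.coe_union, Set.mem_union, Finset.mem_coe]
      exact Or.inr hi
    rw [hset, pow_succ]
    exact le_trans (mul_le_mul' ih (hc L)) (harris hmeas (hE L) hincr (iE L) K d1 d2 p)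

end T2

end Pool.Agent.Helper69.TL
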