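import Pool.Agent.Helper69.TL.BA

/-!
# MP_b6f052_pr: transfer between percolation on `G` and the model
-/

open MeasureTheory Set

namespace Pool.Agent.Helper69.TL

theorem tr_measurableSet_uniq {b : ℕ} (A : Set ℤ) :
    MeasurableSet {ω : Sym2 (X b) → Bool | Uniq A ω} := by
  have : {ω : Sym2 (X b) → Bool | Uniq A ω} =
      (⋃ x : X b, {ω | (Clus ω (RA A) x).Infinite}) ∩
        ⋂ x : X b, ⋂ y : X b, ({ω | (Clus ω (RA A) x).Infinite}ᶜ ∪
          ({ω | (Clus ω (RA A) y).Infinite}ᶜ ∪ {ω | Conn ω (RA A) x y})) := by
    ext ω
    simp only [mem_ofPred_eq, mem_union, mem_iUnion, mem_inter_iff, mem_iInter, mem_compl_iff,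
      Uniq]
    refine and_congr Iff.rfl (forall_congr' fun x => forall_congr' fun y => ?_)
    tauto
  rw [this]
  exact (MeasurableSet.iUnion fun x => measurableSet_infinite_clus _ x).inter
    (MeasurableSet.iInter fun x => MeasurableSet.iInter fun y =>
      (measurableSet_infinite_clus _ x).compl.union
        ((measurableSet_infinite_clus _ y).compl.union (measurableSet_conn _ x y)))

section
variable {b : ℕ} {V : Type*} (G : SimpleGraph V) {A : Set ℤ} (g : V → X b)

/-- the edge map -/
def trE (e : G.edgeSet) : Sym2 (X b) := Sym2.map g e.1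

theorem trE_injective (hg : Function.Injective g) : Function.Injective (trE G g) := by
  intro e e' h
  exact Subtype.ext (Sym2.map.injective hg h)

/-- paths in the open graph and `Conn` -/
theorem tr_reach (hg : Function.Injective g) (hadj : ∀ x y, G.Adj x y ↔ adj (g x) (g y))
    (hrange : Set.range g = RA A) (ω : Sym2 (X b) → Bool) (x y : V) :
    (openGraph G (ω ∘ trE G g)).Reachable x y ↔ Conn ω (RA A) (g x) (g y) := by
  rw [SimpleGraph.reachable_iff_reflTransGen]
  constructor
  · intro h
    refine rtg_lift g ?_ h
    rintro a c ⟨h1, h2⟩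
    exact ⟨(hadj a c).1 h1, h2, hrange ▸ mem_range_self a, hrange ▸ mem_range_self c⟩
  · intro h
    unfold Conn at h
    have key : ∀ z : X b, Relation.ReflTransGen
        (fun a c => adj a c ∧ ω s(a, c) = true ∧ a ∈ RA A ∧ c ∈ RA A) (g x) z →
        ∀ w, g w = z → Relation.ReflTransGen (openGraph G (ω ∘ trE G g)).Adj x w := by
      intro z hz
      induction hz with
      | refl =>
        intro w hw
        rw [hg hw]
      | tail _ hbc ih =>
        rename_i b' c'
        intro w hw
        obtain ⟨h1, h2, h3, h4⟩ := hbc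
        rw [← hrange] at h3
        obtain ⟨a, ha⟩ := h3
        refine Relation.ReflTransGen.tail (ih a ha) ?_
        subst hw ha
        exact ⟨(hadj a w).2 h1, h2⟩
    exact key _ h y rfl

theorem tr_uniq (hg : Function.Injective g) (hadj : ∀ x y, G.Adj x y ↔ adj (g x) (g y))
    (hrange : Set.range g = RA A) (ω : Sym2 (X b) → Bool) :
    UniqueInfinite (openGraph G (ω ∘ trE G g)) ↔ Uniq A ω := by
  set H := openGraph G (ω ∘ trE G g) with hH
  have hr := tr_reach G g hg hadj hrange ω
  rw [← hH] at hr
  -- clusters
  have hcl : ∀ x : V, (Clus ω (RA A) (g x)) = g '' (H.connectedComponentMk x).supp := by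
    intro x
    ext z
    constructor
    · intro hz
      have hz' : Conn ω (RA A) (g x) z := hz
      have : z ∈ Set.range g := by
        rcases Conn.mem hz' with h | ⟨_, h⟩
        · rw [← h]; exact mem_range_self x
        · rw [hrange]; exact h
      obtain ⟨w, rfl⟩ := this
      refine ⟨w, ?_, rfl⟩
      rw [SimpleGraph.ConnectedComponent.mem_supp_iff]
      exact SimpleGraph.ConnectedComponent.sound ((hr x w).2 hz').symm
    · rintro ⟨w, hw, rfl⟩
      rw [SimpleGraph.ConnectedComponent.mem_supp_iff] at hw
      exact (hr x w).1 (SimpleGraph.ConnectedComponent.exact hw).symm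
  have hinf : ∀ x : V, (Clus ω (RA A) (g x)).Infinite ↔
      (H.connectedComponentMk x).supp.Infinite := by
    intro x
    rw [hcl x, Set.infinite_image_iff hg.injOn]
  -- vertices with an infinite cluster are in the range
  have hran : ∀ z : X b, (Clus ω (RA A) z).Infinite → ∃ x, g x = z := by
    intro z hz
    by_contra hcon
    have hzA : z ∉ RA A := by
      rw [← hrange]; exact hcon
    refine hz (Set.Finite.subset (Set.finite_singleton z) ?_)
    intro w hw
    have hw' : Conn ω (RA A) z w := hw
    rcases Conn.mem hw' with h | ⟨h, _⟩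
    · exact h.symm
    · exact absurd h hzA
  constructor
  · rintro ⟨C, hC, huniq⟩
    induction C using SimpleGraph.ConnectedComponent.ind with
    | h x =>
      refine ⟨⟨g x, (hinf x).2 hC⟩, ?_⟩
      intro z z' hz hz'
      obtain ⟨y, rfl⟩ := hran z hz
      obtain ⟨y', rfl⟩ := hran z' hz'
      have h1 := huniq _ ((hinf y).1 hz)
      have h2 := huniq _ ((hinf y').1 hz')
      have : H.connectedComponentMk y = H.connectedComponentMk y' := h1.trans h2.symm
      exact (hr y y').1 (SimpleGraph.ConnectedComponent.exact this)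
  · rintro ⟨⟨z, hz⟩, hU⟩
    obtain ⟨x, rfl⟩ := hran z hz
    refine ⟨H.connectedComponentMk x, (hinf x).1 hz, ?_⟩
    intro C hC
    induction C using SimpleGraph.ConnectedComponent.ind with
    | h y =>
      have := hU (g y) (g x) ((hinf y).2 hC) hz
      exact SimpleGraph.ConnectedComponent.sound ((hr y x).2 this)

open Classical in
/-- a section of the edge map -/
noncomputable def trS (ω : G.edgeSet → Bool) : Sym2 (X b) → Bool :=
  fun e => if h : ∃ e', trE G g e' = e then ω h.choose else false

theorem trS_spec (hg : Function.Injective g) (ω : G.edgeSet → Bool) :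
    trS G g ω ∘ trE G g = ω := by
  funext e
  have h : ∃ e', trE G g e' = trE G g e := ⟨e, rfl⟩
  have h2 : h.choose = e := trE_injective G g hg h.choose_spec
  simp only [Function.comp, trS, h, dif_pos, h2]

theorem trS_measurable : Measurable (trS G g) := by
  classical
  refine measurable_pi_iff.2 fun e => ?_
  by_cases h : ∃ e', trE G g e' = e
  · have : (fun ω : G.edgeSet → Bool => trS G g ω e) = fun ω => ω h.choose := by
      funext ω
      simp only [trS, h, dif_pos]
    rw [this]
    exact measurable_pi_apply (X := fun _ : G.edgeSet => Bool) h.choose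
  · have : (fun ω : G.edgeSet → Bool => trS G g ω e) = fun _ => false := by
      funext ω
      simp only [trS, h, dif_neg, not_false_eq_true]
    rw [this]
    exact measurable_const

theorem tr_measurableSet (hg : Function.Injective g)
    (hadj : ∀ x y, G.Adj x y ↔ adj (g x) (g y)) (hrange : Set.range g = RA A) :
    MeasurableSet {ω : G.edgeSet → Bool | UniqueInfinite (openGraph G ω)} := by
  have : {ω : G.edgeSet → Bool | UniqueInfinite (openGraph G ω)} =
      trS G g ⁻¹' {ω : Sym2 (X b) → Bool | Uniq A ω} := by
    ext ω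
    rw [mem_preimage, mem_ofPred_eq, mem_ofPred_eq, ← tr_uniq G g hg hadj hrange (trS G g ω),
      trS_spec G g hg]
  rw [this]
  exact trS_measurable G g (tr_measurableSet_uniq A)

end

theorem transfer {b : ℕ} {V : Type*} (G : SimpleGraph V) {A : Set ℤ} (g : V → X b)
    (hg : Function.Injective g) (hadj : ∀ x y, G.Adj x y ↔ adj (g x) (g y))
    (hrange : Set.range g = RA A) (p : unitInterval) :
    (∀ᵐ ω ∂(perc G p), UniqueInfinite (openGraph G ω)) ↔
      ∀ᵐ ω ∂(mu (Sym2 (X b)) p), Uniq A ω := by
  have hmeas := tr_measurableSet G g hg hadj hrange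
  have hmp : (mu (Sym2 (X b)) p).map (fun ω => ω ∘ trE G g) = perc G p :=
    Measure.map_infinitePi_infinitePi_of_inj (trE_injective G g hg)
  have hm : Measurable (fun ω : Sym2 (X b) → Bool => ω ∘ trE G g) :=
    measurable_pi_iff.2 fun e => measurable_pi_apply (X := fun _ : Sym2 (X b) => Bool) _
  rw [← hmp, ae_map_iff hm.aemeasurable hmeas]
  refine Filter.eventually_congr (Filter.Eventually.of_forall fun ω => ?_)
  exact tr_uniq G g hg hadj hrange ω

end Pool.Agent.Helper69.TL
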