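import Pool.Agent.Helper69.TL.Defs

/-!
# Every `(b+1)`-regular tree is the model tree
-/

namespace Pool.Agent.Helper69.TL

open SimpleGraph

section TI
variable {V : Type*} {T : SimpleGraph V}

theorem ti_par_unique (hT : T.IsTree) (r : V) {z w w' : V} (h : T.Adj z w) (h' : T.Adj z w')
    (hd : T.dist r z = T.dist r w + 1) (hd' : T.dist r z = T.dist r w' + 1) : w = w' := by
  obtain ⟨p, hp⟩ := hT.connected.exists_walk_length_eq_dist r w
  obtain ⟨q, hq⟩ := hT.connected.exists_walk_length_eq_dist r w'
  have h1 : (p.concat h.symm).IsPath := by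
    apply Walk.isPath_of_length_eq_dist
    rw [Walk.length_concat, hp, hd]
  have h2 : (q.concat h'.symm).IsPath := by
    apply Walk.isPath_of_length_eq_dist
    rw [Walk.length_concat, hq, hd']
  have h3 := (hT.existsUnique_path r z).unique h1 h2
  have h4 := congrArg Walk.penultimate h3
  simpa [Walk.penultimate_concat] using h4

theorem ti_exists_par (hT : T.IsTree) (r : V) {z : V} (hz : z ≠ r) :
    ∃ w, T.Adj z w ∧ T.dist r z = T.dist r w + 1 := by
  obtain ⟨p, hp⟩ := hT.connected.exists_walk_length_eq_dist z r
  cases p with
  | nil => exact absurd rfl hz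
  | cons h q =>
    rename_i w
    refine ⟨w, h, ?_⟩
    have h1 : T.dist w r ≤ q.length := dist_le q
    rw [Walk.length_cons] at hp
    rcases hT.dist_eq_dist_add_one_of_adj r h with h2 | h2
    · exact h2
    · rw [dist_comm (u := r) (v := z), dist_comm (u := r) (v := w)] at h2
      omega

open Classical in
theorem ti_card [T.LocallyFinite] (hT : T.IsTree) {b : ℕ} (hreg : T.IsRegularOfDegree (b + 1))
    (r : V) {z : V} (hz : z ≠ r) :
    ((T.neighborFinset z).filter (fun w => T.dist r w = T.dist r z + 1)).card = b := by
  obtain ⟨w, hw, hd⟩ := ti_exists_par hT r hz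
  have h1 : (T.neighborFinset z).filter (fun w => ¬ T.dist r w = T.dist r z + 1) = {w} := by
    ext u
    simp only [Finset.mem_filter, mem_neighborFinset, Finset.mem_singleton]
    constructor
    · rintro ⟨hu, hu'⟩
      rcases hT.dist_eq_dist_add_one_of_adj r hu with h2 | h2
      · exact ti_par_unique hT r hu hw h2 hd
      · exact absurd h2 hu'
    · rintro rfl
      exact ⟨hw, by omega⟩
  have h2 := Finset.card_filter_add_card_filter_not (s := T.neighborFinset z)
    (p := fun w => T.dist r w = T.dist r z + 1)
  rw [h1, Finset.card_singleton, card_neighborFinset_eq_degree, hreg z] at h2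
  omega

/-- the map on reversed words -/
def tiG {b : ℕ} (r y : V) (e : V → Fin b → V) : Bool → List (Fin b) → V
  | false, [] => r
  | true, [] => y
  | s, i :: l => e (tiG r y e s l) i

theorem tree_iso {b : ℕ} (hb : 1 ≤ b) {V : Type*} (T : SimpleGraph V) [T.LocallyFinite]
    (hT : T.IsTree) (hreg : T.IsRegularOfDegree (b + 1)) : Nonempty (T ≃g treeGraph b) := by
  classical
  obtain ⟨r⟩ := hT.connected.nonempty
  have hy : (T.neighborFinset r).Nonempty := by
    rw [← Finset.card_pos, card_neighborFinset_eq_degree, hreg r]; omega
  obtain ⟨y, hy⟩ := hy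
  rw [mem_neighborFinset] at hy
  have hdr : T.dist r r = 0 := dist_self
  have hdy : T.dist r y = 1 := dist_eq_one_iff_adj.mpr hy
  -- the children
  let Ch : V → Finset V := fun z =>
    ((T.neighborFinset z).filter (fun w => T.dist r w = T.dist r z + 1)).erase y
  have hCh : ∀ z w, w ∈ Ch z ↔ w ≠ y ∧ T.Adj z w ∧ T.dist r w = T.dist r z + 1 := by
    intro z w
    simp [Ch]
  have hcard : ∀ z, (Ch z).card = b := by
    intro z
    by_cases hz : z = r
    · subst hz
      have h1 : (T.neighborFinset z).filter (fun w => T.dist z w = T.dist z z + 1) =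
          T.neighborFinset z := by
        apply Finset.filter_true_of_mem
        intro w hw
        rw [mem_neighborFinset] at hw
        rw [hdr, dist_eq_one_iff_adj.mpr hw]
      simp only [Ch]
      rw [h1, Finset.card_erase_of_mem (by rwa [mem_neighborFinset]),
        card_neighborFinset_eq_degree, hreg z]
      rfl
    · have h1 : y ∉ (T.neighborFinset z).filter (fun w => T.dist r w = T.dist r z + 1) := by
        rw [Finset.mem_filter, not_and]
        intro hzy h2
        rw [mem_neighborFinset] at hzy
        rw [hdy] at h2
        have h3 : T.dist r z = 0 := by omega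
        have h4 := (hT.connected r z).dist_eq_zero_iff.mp h3
        exact hz h4.symm
      simp only [Ch]
      rw [Finset.erase_eq_of_notMem h1]
      exact ti_card hT hreg r hz
  have hequiv : ∀ z, Nonempty (Fin b ≃ Ch z) := fun z =>
    ⟨((Ch z).equivFinOfCardEq (hcard z)).symm⟩
  have e0 : ∀ z, Fin b ≃ Ch z := fun z => (hequiv z).some
  let e : V → Fin b → V := fun z i => (e0 z i : V)
  have he1 : ∀ z i, e z i ≠ y ∧ T.Adj z (e z i) ∧ T.dist r (e z i) = T.dist r z + 1 :=
    fun z i => (hCh z _).mp (e0 z i).2
  have he2 : ∀ z, Function.Injective (e z) := fun z i j h =>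
    (e0 z).injective (Subtype.ext h)
  have he3 : ∀ z w, w ≠ y → T.Adj z w → T.dist r w = T.dist r z + 1 → ∃ i, e z i = w := by
    intro z w h1 h2 h3
    obtain ⟨i, hi⟩ := (e0 z).surjective ⟨w, (hCh z w).mpr ⟨h1, h2, h3⟩⟩
    exact ⟨i, congrArg Subtype.val hi⟩
  let G := tiG r y e
  have G0 : G false [] = r := rfl
  have G1 : G true [] = y := rfl
  have Gc : ∀ s i l, G s (i :: l) = e (G s l) i := by
    intro s i l
    cases s <;> rfl
  -- distances
  have hdist : ∀ s l, T.dist r (G s l) = l.length + (if s then 1 else 0) := by
    intro s l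
    induction l with
    | nil => cases s <;> simp [G0, G1, hdy]
    | cons i l ih =>
      rw [Gc, (he1 _ i).2.2, ih, List.length_cons]
      omega
  have hne : ∀ s i l, G s (i :: l) ≠ y := fun s i l => by rw [Gc]; exact (he1 _ i).1
  -- injectivity
  have hinj : ∀ n, ∀ s l s' l', l.length ≤ n → G s l = G s' l' → s = s' ∧ l = l' := by
    intro n
    induction n with
    | zero =>
      intro s l s' l' hl h
      have hl0 : l = [] := List.length_eq_zero_iff.mp (by omega)
      subst hl0
      have h1 := hdist s []
      have h2 := hdist s' l'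
      rw [← h] at h2
      rw [h1] at h2
      cases l' with
      | nil => cases s <;> cases s' <;> simp_all
      | cons i l' =>
        cases s with
        | false => cases s' <;> simp at h2
        | true => exact absurd (h.symm.trans G1) (hne _ _ _)
    | succ n ih =>
      intro s l s' l' hl h
      cases l with
      | nil =>
        have h1 := hdist s []
        have h2 := hdist s' l'
        rw [← h] at h2
        rw [h1] at h2
        cases l' with
        | nil => cases s <;> cases s' <;> simp_all
        | cons i l' =>
          cases s with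
          | false => cases s' <;> simp at h2
          | true => exact absurd (h.symm.trans G1) (hne _ _ _)
      | cons i l =>
        cases l' with
        | nil =>
          cases s' with
          | false =>
            have h1 := hdist s (i :: l)
            have h2 := hdist false []
            rw [h, h2] at h1
            simp at h1
            omega
          | true => exact absurd (h.trans G1) (hne _ _ _)
        | cons i' l' =>
          rw [Gc, Gc] at h
          have h1 := he1 (G s l) i
          have h2 := he1 (G s' l') i'
          rw [← h] at h2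
          have h3 : G s l = G s' l' :=
            ti_par_unique hT r h1.2.1.symm h2.2.1.symm h1.2.2 h2.2.2
          obtain ⟨h4, h5⟩ := ih s l s' l' (by simpa using hl) h3
          rw [h3] at h
          exact ⟨h4, by rw [h5, he2 _ h]⟩
  -- surjectivity
  have hsurj : ∀ n, ∀ z, T.dist r z = n → ∃ s l, G s l = z := by
    intro n
    induction n with
    | zero =>
      intro z hz
      have h4 := (hT.connected r z).dist_eq_zero_iff.mp hz
      exact ⟨false, [], h4⟩
    | succ n ih =>
      intro z hz
      by_cases hzy : z = y
      · exact ⟨true, [], hzy.symm⟩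
      · have hzr : z ≠ r := by
          rintro rfl
          rw [hdr] at hz; omega
        obtain ⟨w, hw1, hw2⟩ := ti_exists_par hT r hzr
        obtain ⟨s, l, hsl⟩ := ih w (by omega)
        obtain ⟨i, hi⟩ := he3 w z hzy hw1.symm hw2
        exact ⟨s, i :: l, by rw [Gc, hsl, hi]⟩
  -- adjacency: one direction up the tree
  have hup : ∀ s l s' l', T.Adj (G s l) (G s' l') →
      T.dist r (G s' l') = T.dist r (G s l) + 1 → tadj (s, l.reverse) (s', l'.reverse) := by
    intro s l s' l' hadj hd
    cases l' with
    | nil =>
      cases s' with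
      | false =>
        rw [G0, hdr] at hd; omega
      | true =>
        rw [G1, hdy] at hd
        have h1 := hdist s l
        have h2 : l.length + (if s then 1 else 0) = 0 := by omega
        cases s with
        | true => simp at h2
        | false =>
          have : l = [] := List.length_eq_zero_iff.mp (by simpa using h2)
          subst this
          exact Or.inr (Or.inr ⟨by simp, rfl, rfl⟩)
    | cons i' l' =>
      have h1 := he1 (G s' l') i'
      rw [← Gc] at h1
      have h3 : G s l = G s' l' := ti_par_unique hT r hadj.symm h1.2.1.symm hd h1.2.2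
      obtain ⟨h4, h5⟩ := hinj l.length s l s' l' le_rfl h3
      subst h4; subst h5
      refine Or.inl ⟨rfl, i', ?_⟩
      simp
  have hdown : ∀ s l s' l', tadj (s, l.reverse) (s', l'.reverse) → T.Adj (G s l) (G s' l') := by
    have key : ∀ s l s' l', s = s' → (∃ i, l'.reverse = l.reverse ++ [i]) →
        T.Adj (G s l) (G s' l') := by
      rintro s l s' l' rfl ⟨i, hi⟩
      have : l' = i :: l := by
        have := congrArg List.reverse hi
        simpa using this
      subst this
      rw [Gc]
      exact (he1 _ i).2.1
    rintro s l s' l' (⟨h1, h2⟩ | ⟨h1, h2⟩ | ⟨h1, h2, h3⟩)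
    · exact key s l s' l' h1 h2
    · exact (key s' l' s l h1.symm h2).symm
    · have hl : l = [] := by simpa using h2
      have hl' : l' = [] := by simpa using h3
      subst hl; subst hl'
      cases s <;> cases s'
      · exact absurd rfl h1
      · exact hy
      · exact hy.symm
      · exact absurd rfl h1
  let F : TV b → V := fun u => G u.1 u.2.reverse
  have hF : Function.Bijective F := by
    constructor
    · rintro ⟨s, l⟩ ⟨s', l'⟩ h
      obtain ⟨h1, h2⟩ := hinj _ _ _ _ _ le_rfl h
      simp only at h1 h2
      rw [h1, List.reverse_injective h2]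
    · intro z
      obtain ⟨s, l, h⟩ := hsurj _ z rfl
      exact ⟨(s, l.reverse), by simpa [F] using h⟩
  refine ⟨SimpleGraph.Iso.symm ⟨Equiv.ofBijective F hF, ?_⟩⟩
  rintro ⟨s, l⟩ ⟨s', l'⟩
  change T.Adj (G s l.reverse) (G s' l'.reverse) ↔ tadj (s, l) (s', l')
  constructor
  · intro h
    rcases hT.dist_eq_dist_add_one_of_adj r h with h2 | h2
    · have h3 := hup _ _ _ _ h.symm h2
      rw [List.reverse_reverse, List.reverse_reverse] at h3
      rcases h3 with ⟨h4, h5⟩ | ⟨h4, h5⟩ | ⟨h4, h5, h6⟩
      · exact Or.inr (Or.inl ⟨h4.symm, h5⟩)
      · exact Or.inl ⟨h4.symm, h5⟩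
      · exact Or.inr (Or.inr ⟨h4.symm, h6, h5⟩)
    · have h3 := hup _ _ _ _ h h2
      rwa [List.reverse_reverse, List.reverse_reverse] at h3
  · intro h
    apply hdown
    rwa [List.reverse_reverse, List.reverse_reverse]

end TI

end Pool.Agent.Helper69.TL
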